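import Pool.Agent.H249.ML.Hw

/-!
# The dimensions of the graded pieces
-/

set_option autoImplicit false
set_option linter.unusedSectionVars false

open Submodule Module Polynomial

namespace Pool.Agent.H249.ML

open Pool.Agent.H249.MZ

/-- the coefficient of a basis element -/
noncomputable def cf (p : ℕ × List ℕ) : HH →ₗ[ℚ] ℚ := (co p.2).comp (LinearMap.restrictScalars ℚ (lcoeff Sh p.1))

theorem cf_monomial (p : ℕ × List ℕ) (i : ℕ) (u : List ℕ) :
    cf p (monomial i (word u)) = if (i, u) = p then 1 else 0 := by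
  change co p.2 ((monomial i (word u) : HH).coeff p.1) = _
  rw [coeff_monomial]
  rcases p with ⟨j, v⟩
  by_cases h1 : i = j
  · subst h1
    rw [if_pos rfl, co_word]
    by_cases h2 : u = v
    · subst h2
      rw [if_pos rfl, if_pos rfl]
    · rw [if_neg h2, if_neg]
      intro h3
      exact h2 (Prod.mk.inj h3).2
  · rw [if_neg h1, map_zero, if_neg]
    intro h3
    exact h1 (Prod.mk.inj h3).1

theorem linInd : LinearIndependent ℚ (fun p : ℕ × List ℕ => (monomial p.1 (word p.2) : HH)) := by
  rw [linearIndependent_iff']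
  intro s g h p hp
  have h1 := congrArg (cf p) h
  rw [map_sum, map_zero, Finset.sum_eq_single p] at h1
  · rw [map_smul, cf_monomial, if_pos rfl, smul_eq_mul, mul_one] at h1
    exact h1
  · intro q _ hq
    rw [map_smul, cf_monomial, if_neg, smul_zero]
    exact hq
  · intro h2
    exact absurd hp h2

/-- the pairs of degree `n` -/
def prs (W : Wt) (n : ℕ) : Set (ℕ × List ℕ) := {p | W.e * p.1 + W.wt p.2 = n}

/-- the words of weight `n` -/
def wds (W : Wt) (n : ℕ) : Set (List ℕ) := {u | W.wt u = n}

variable {W : Wt}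

theorem wds_fin (n : ℕ) : (wds W n).Finite := (words_finite (W := W) n).subset fun _ h => le_of_eq h

theorem prs_fin (n : ℕ) : (prs W n).Finite := by
  refine Set.Finite.subset ((Set.finite_Iic n).prod (words_finite (W := W) n)) ?_
  rintro ⟨i, u⟩ h1
  have h1' : W.e * i + W.wt u = n := h1
  have h2 : i ≤ W.e * i := Nat.le_mul_of_pos_left i W.epos
  exact ⟨by change i ≤ n; omega, by change W.wt u ≤ n; omega⟩

theorem finrank_deg (n : ℕ) : finrank ℚ (deg W n) = (prs W n).ncard := by
  have h1 : deg W n = span ℚ (Set.range fun p : prs W n => (monomial p.1.1 (word p.1.2) : HH)) := by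
    unfold deg
    congr 1
    ext x
    constructor
    · rintro ⟨i, u, h, rfl⟩
      exact ⟨⟨(i, u), h⟩, rfl⟩
    · rintro ⟨⟨⟨i, u⟩, h⟩, rfl⟩
      exact ⟨i, u, h, rfl⟩
  have h2 : Fintype (prs W n) := (prs_fin n).fintype
  rw [h1, finrank_span_eq_card (b := fun p : prs W n => (monomial p.1.1 (word p.1.2) : HH))
    (linInd.comp _ Subtype.val_injective), ← Nat.card_eq_fintype_card]
  rfl

theorem prs_rec (n : ℕ) : (prs W (n + W.e)).ncard = (prs W n).ncard + (wds W (n + W.e)).ncard := by
  have h1 : prs W (n + W.e) = (fun p : ℕ × List ℕ => (p.1 + 1, p.2)) '' prs W n ∪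
      (fun u => ((0 : ℕ), u)) '' wds W (n + W.e) := by
    ext ⟨i, u⟩
    constructor
    · intro h
      have h' : W.e * i + W.wt u = n + W.e := h
      rcases i with _ | i
      · right
        exact ⟨u, by change W.wt u = n + W.e; omega, rfl⟩
      · left
        refine ⟨(i, u), ?_, rfl⟩
        change W.e * i + W.wt u = n
        rw [mul_add, mul_one] at h'
        omega
    · rintro (⟨⟨j, v⟩, h, h2⟩ | ⟨v, h, h2⟩)
      · have h' : W.e * j + W.wt v = n := h
        obtain ⟨rfl, rfl⟩ := Prod.mk.inj h2
        change W.e * (j + 1) + W.wt v = n + W.e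
        rw [mul_add, mul_one]
        omega
      · have h' : W.wt v = n + W.e := h
        obtain ⟨rfl, rfl⟩ := Prod.mk.inj h2
        change W.e * 0 + W.wt v = n + W.e
        omega
  rw [h1, Set.ncard_union_eq _ ((prs_fin n).image _) ((wds_fin _).image _), Set.ncard_image_of_injective _,
    Set.ncard_image_of_injective _]
  · intro u v h
    exact (Prod.mk.inj h).2
  · rintro ⟨i, u⟩ ⟨j, v⟩ h
    obtain ⟨h1, h2⟩ := Prod.mk.inj h
    simp only at h1 h2
    rw [h2, Nat.succ.inj h1]
  · rw [Set.disjoint_left]
    rintro _ ⟨⟨j, v⟩, -, rfl⟩ ⟨u, -, h⟩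
    have := (Prod.mk.inj h).1
    omega

theorem prs_lt {n : ℕ} (h : n < W.e) : (prs W n).ncard = (wds W n).ncard := by
  have h1 : prs W n = (fun u => ((0 : ℕ), u)) '' wds W n := by
    ext ⟨i, u⟩
    constructor
    · intro h2
      have h' : W.e * i + W.wt u = n := h2
      rcases i with _ | i
      · exact ⟨u, by change W.wt u = n; omega, rfl⟩
      · rw [mul_add, mul_one] at h'
        omega
    · rintro ⟨v, h2, h3⟩
      have h' : W.wt v = n := h2
      obtain ⟨rfl, rfl⟩ := Prod.mk.inj h3
      change W.e * 0 + W.wt v = n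
      omega
  rw [h1, Set.ncard_image_of_injective]
  intro u v h
  exact (Prod.mk.inj h).2

theorem wds_zero : (wds W 0).ncard = 1 := by
  have h1 : wds W 0 = {[]} := by
    ext u
    constructor
    · intro h
      have h' : W.wt u = 0 := h
      rcases u with _ | ⟨a, u⟩
      · rfl
      · rw [wt_cons] at h'
        have := W.pos a
        omega
    · rintro rfl
      exact wt_nil W
  rw [h1, Set.ncard_singleton]

/-- the first letter is raised by one -/
def bump : List ℕ → List ℕ
  | [] => []
  | a :: u => (a + 1) :: u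

/-- letters with weights in arithmetic progression -/
theorem wds_rec {d : ℕ} (hL : ∀ a, W.L (a + 1) = W.L a + d) {n : ℕ} (hn : 0 < n) :
    (wds W (n + d)).ncard = (wds W n).ncard + {u | W.L 0 + W.wt u = n + d}.ncard := by
  have h0 : {u | W.L 0 + W.wt u = n + d}.Finite := (words_finite (W := W) (n + d)).subset fun u h => by
    have h' : W.L 0 + W.wt u = n + d := h
    change W.wt u ≤ n + d
    omega
  have h1 : wds W (n + d) = bump '' wds W n ∪ (fun u => 0 :: u) '' {u | W.L 0 + W.wt u = n + d} := by
    ext u
    constructor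
    · intro h
      have h' : W.wt u = n + d := h
      rcases u with _ | ⟨a, u⟩
      · rw [wt_nil] at h'
        omega
      rw [wt_cons] at h'
      rcases a with _ | a
      · right
        exact ⟨u, h', rfl⟩
      · left
        refine ⟨a :: u, ?_, rfl⟩
        change W.wt (a :: u) = n
        rw [wt_cons]
        rw [hL] at h'
        omega
    · rintro (⟨v, h, rfl⟩ | ⟨v, h, rfl⟩)
      · have h' : W.wt v = n := h
        rcases v with _ | ⟨a, v⟩
        · rw [wt_nil] at h'
          omega
        · change W.wt ((a + 1) :: v) = n + d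
          rw [wt_cons] at h' ⊢
          rw [hL]
          omega
      · have h' : W.L 0 + W.wt v = n + d := h
        change W.wt (0 :: v) = n + d
        rw [wt_cons, h']
  rw [h1, Set.ncard_union_eq _ ((wds_fin n).image _) (h0.image _), Set.ncard_image_of_injOn,
    Set.ncard_image_of_injective _ (List.cons_injective)]
  · intro u hu v hv h
    rcases u with _ | ⟨a, u⟩
    · have h' : W.wt [] = n := hu
      rw [wt_nil] at h'
      omega
    rcases v with _ | ⟨b, v⟩
    · have h' : W.wt [] = n := hv
      rw [wt_nil] at h'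
      omega
    obtain ⟨h2, h3⟩ := List.cons.inj h
    rw [h3, Nat.succ.inj h2]
  · rw [Set.disjoint_left]
    rintro _ ⟨v, hv, rfl⟩ ⟨u, -, h⟩
    rcases v with _ | ⟨b, v⟩
    · exact absurd h (by simp [bump])
    · have := (List.cons.inj h).1
      omega

/-- The weights for the multiple Clausen values: letters of the weights `2, 3, 4, ...`, variable of weight `1`. -/
def WC : Wt where
  L a := a + 2
  e := 1
  pos a := by omega
  epos := one_pos
  fin n := (Set.finite_Iic n).subset fun a h => by
    change a ≤ n
    have : a + 2 ≤ n := h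
    omega

/-- The weights for the alternating values: letters of the weights `1, 3, 5, ...`, variable of weight `2`. -/
def WA : Wt where
  L a := 2 * a + 1
  e := 2
  pos a := by omega
  epos := two_pos
  fin n := (Set.finite_Iic n).subset fun a h => by
    change a ≤ n
    have : 2 * a + 1 ≤ n := h
    omega

/-- The weights for the multiple zeta values: letters of the weights `3, 5, 7, ...`, variable of weight `2`. -/
def WZ : Wt where
  L a := 2 * a + 3
  e := 2
  pos a := by omega
  epos := two_pos
  fin n := (Set.finite_Iic n).subset fun a h => by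
    change a ≤ n
    have : 2 * a + 3 ≤ n := h
    omega

theorem wdsC_one : (wds WC 1).ncard = 0 := by
  have h1 : wds WC 1 = ∅ := by
    rw [Set.eq_empty_iff_forall_notMem]
    intro u h
    have h' : WC.wt u = 1 := h
    rcases u with _ | ⟨a, u⟩
    · rw [wt_nil] at h'
      omega
    · rw [wt_cons] at h'
      change a + 2 + WC.wt u = 1 at h'
      omega
  rw [h1, Set.ncard_empty]

theorem wdsC (n : ℕ) : (wds WC (n + 1)).ncard = Nat.fib n ∧ (wds WC (n + 2)).ncard = Nat.fib (n + 1) := by
  induction n with
  | zero =>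
    refine ⟨wdsC_one, ?_⟩
    have h := wds_rec (W := WC) (d := 1) (fun a => by change a + 1 + 2 = a + 2 + 1; omega) (n := 1) one_pos
    have h2 : {u | WC.L 0 + WC.wt u = 1 + 1} = wds WC 0 := by
      ext u
      change 0 + 2 + WC.wt u = 1 + 1 ↔ WC.wt u = 0
      omega
    rw [h2, wdsC_one, wds_zero] at h
    exact h
  | succ n ih =>
    refine ⟨ih.2, ?_⟩
    have h := wds_rec (W := WC) (d := 1) (fun a => by change a + 1 + 2 = a + 2 + 1; omega) (n := n + 2) (by omega)
    have h2 : {u | WC.L 0 + WC.wt u = n + 2 + 1} = wds WC (n + 1) := by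
      ext u
      change 0 + 2 + WC.wt u = n + 2 + 1 ↔ WC.wt u = n + 1
      omega
    rw [h2, ih.1, ih.2] at h
    rw [show n + 1 + 2 = n + 2 + 1 by omega, h, Nat.fib_add_two, add_comm]

theorem dimC (n : ℕ) : finrank ℚ (deg WC n) = Nat.fib (n + 1) := by
  rw [finrank_deg]
  induction n with
  | zero => rw [prs_lt (by change 0 < 1; omega), wds_zero]; rfl
  | succ n ih =>
    have h := prs_rec (W := WC) n
    change (prs WC (n + 1)).ncard = (prs WC n).ncard + (wds WC (n + 1)).ncard at h
    rw [h, ih, (wdsC n).1, Nat.fib_add_two, add_comm]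

theorem wdsA_one : (wds WA 1).ncard = 1 := by
  have h1 : wds WA 1 = {[0]} := by
    ext u
    constructor
    · intro h
      have h' : WA.wt u = 1 := h
      rcases u with _ | ⟨a, u⟩
      · rw [wt_nil] at h'
        omega
      rw [wt_cons] at h'
      change 2 * a + 1 + WA.wt u = 1 at h'
      have ha : a = 0 := by omega
      subst ha
      rcases u with _ | ⟨b, u⟩
      · rfl
      · rw [wt_cons] at h'
        change 2 * 0 + 1 + (2 * b + 1 + WA.wt u) = 1 at h'
        omega
    · rintro rfl
      rfl
  rw [h1, Set.ncard_singleton]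

theorem wdsA_two : (wds WA 2).ncard = 1 := by
  have h1 : wds WA 2 = (fun u => 0 :: u) '' wds WA 1 := by
    ext u
    constructor
    · intro h
      have h' : WA.wt u = 2 := h
      rcases u with _ | ⟨a, u⟩
      · rw [wt_nil] at h'
        omega
      rw [wt_cons] at h'
      change 2 * a + 1 + WA.wt u = 2 at h'
      have ha : a = 0 := by omega
      subst ha
      exact ⟨u, by change WA.wt u = 1; omega, rfl⟩
    · rintro ⟨v, h, rfl⟩
      have h' : WA.wt v = 1 := h
      change WA.wt (0 :: v) = 2
      rw [wt_cons]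
      change 2 * 0 + 1 + WA.wt v = 2
      omega
  rw [h1, Set.ncard_image_of_injective _ List.cons_injective, wdsA_one]

theorem wdsA (n : ℕ) : (wds WA (n + 1)).ncard = Nat.fib (n + 1) ∧ (wds WA (n + 2)).ncard = Nat.fib (n + 2) := by
  induction n with
  | zero => exact ⟨wdsA_one, wdsA_two⟩
  | succ n ih =>
    refine ⟨ih.2, ?_⟩
    have h := wds_rec (W := WA) (d := 2) (fun a => by change 2 * (a + 1) + 1 = 2 * a + 1 + 2; omega) (n := n + 1) (by omega)
    have h2 : {u | WA.L 0 + WA.wt u = n + 1 + 2} = wds WA (n + 2) := by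
      ext u
      change 2 * 0 + 1 + WA.wt u = n + 1 + 2 ↔ WA.wt u = n + 2
      omega
    rw [h2, ih.1, ih.2] at h
    rw [h]
    exact (Nat.fib_add_two (n := n + 1)).symm

theorem dimA (n : ℕ) : finrank ℚ (deg WA n) = Nat.fib (n + 1) ∧ finrank ℚ (deg WA (n + 1)) = Nat.fib (n + 2) := by
  rw [finrank_deg, finrank_deg]
  induction n with
  | zero =>
    rw [prs_lt (by change 0 < 2; omega), wds_zero, prs_lt (by change 0 + 1 < 2; omega), wdsA_one]
    exact ⟨rfl, rfl⟩
  | succ n ih =>
    refine ⟨ih.2, ?_⟩
    have h := prs_rec (W := WA) n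
    change (prs WA (n + 2)).ncard = (prs WA n).ncard + (wds WA (n + 2)).ncard at h
    rw [h, ih.1, (wdsA n).2]
    exact (Nat.fib_add_two (n := n + 1)).symm

end Pool.Agent.H249.ML
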