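import Pool.Agent.H249.ML.Hw

/-!
# Homomorphisms of graded algebras to polynomials over a field: the stabilizer of the kernel
-/

set_option autoImplicit false
set_option linter.unusedSectionVars false

open Submodule Module Polynomial

namespace Pool.Agent.H249.ML

open Pool.Agent.H249.MZ

section eval

variable {A : Type} [CommRing A] [Algebra ℚ A] {G : ℕ → Submodule ℚ A} {K : Type} [Field K] [Algebra ℚ K]
  {ev : A →ₐ[ℚ] K[X]} (hev : ∀ w, ∀ x ∈ G w, ∃ z : K, ev x = monomial w z)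

/-- the stabilizer of the kernel -/
def stab (F : LieSubalgebra ℚ (Derivation ℚ A A)) (ev : A →ₐ[ℚ] K[X]) : LieSubalgebra ℚ (Derivation ℚ A A) where
  carrier := {d | d ∈ F ∧ ∀ x, ev x = 0 → ev (d x) = 0}
  add_mem' := fun {d d'} h h' => ⟨add_mem h.1 h'.1, fun x hx => by
    rw [Derivation.add_apply, map_add, h.2 x hx, h'.2 x hx, add_zero]⟩
  zero_mem' := ⟨zero_mem _, fun x _ => by rw [Derivation.zero_apply, map_zero]⟩
  smul_mem' := fun c d h => ⟨F.smul_mem c h.1, fun x hx => by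
    rw [Derivation.smul_apply]
    have h1 : ev (c • d x) = c • ev (d x) := map_smul ev c (d x)
    rw [h1, h.2 x hx, Algebra.smul_def, mul_zero]⟩
  lie_mem' := fun {d d'} h h' => ⟨F.lie_mem h.1 h'.1, fun x hx => by
    rw [Derivation.commutator_apply, map_sub, h.2 _ (h'.2 x hx), h'.2 _ (h.2 x hx), sub_zero]⟩

include hev

/-- the homogeneous components of elements of the kernel are in the kernel -/
theorem comp_ker (t : Finset ℕ) (f : ℕ → A) (hf : ∀ n ∈ t, f n ∈ G n) (h0 : ev (∑ n ∈ t, f n) = 0) :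
    ∀ n ∈ t, ev (f n) = 0 := by
  intro n hn
  have h1 : ∀ m ∈ t, m ≠ n → (ev (f m)).coeff n = 0 := by
    intro m hm hmn
    obtain ⟨z, hz⟩ := hev m (f m) (hf m hm)
    rw [hz, coeff_monomial, if_neg hmn]
  have h2 := congrArg (fun p : K[X] => p.coeff n) h0
  simp only [map_sum, Polynomial.finsetSum_coeff, coeff_zero] at h2
  rw [Finset.sum_eq_single n h1 (fun h => absurd hn h)] at h2
  obtain ⟨z, hz⟩ := hev n (f n) (hf n hn)
  rw [hz, coeff_monomial, if_pos rfl] at h2
  rw [hz, h2, map_zero]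

theorem ker_homog (hG : Gr G) : Homog G (RingHom.ker ev) := by
  intro x hx
  have h1 : x ∈ ⨆ w, G w := by
    rw [hG.top]
    trivial
  obtain ⟨f, hf, rfl⟩ := (Submodule.mem_iSup_iff_exists_finsupp _ _).mp h1
  have h2 : ev (∑ n ∈ f.support, f n) = 0 := hx
  have h3 := comp_ker hev f.support f (fun n _ => hf n) h2
  rw [Finsupp.sum]
  exact Submodule.sum_mem _ fun n hn => Submodule.mem_iSup_of_mem n ⟨h3 n hn, hf n⟩

theorem stab_gr (hG : Gr G) {F : LieSubalgebra ℚ (Derivation ℚ A A)} (hF : IsGr G F) : IsGr G (stab F ev) := by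
  intro d hd
  have h1 : d ∈ up G F 1 := hF hd.1
  obtain ⟨f, hf, rfl⟩ := (Submodule.mem_iSup_iff_exists_finsupp _ _).mp h1
  rw [Finsupp.sum]
  refine Submodule.sum_mem _ fun k hk => ?_
  refine le_up (j := k.1) k.2 ⟨⟨(hf k).1, ?_⟩, (hf k).2⟩
  -- homogeneous elements of the kernel first
  have key : ∀ w, ∀ x ∈ G w, ev x = 0 → ev (f k x) = 0 := by
    intro w x hx hx0
    rcases lt_or_ge w k.1 with hlt | hle
    · rw [((hf k).2 w x hx).2 hlt, map_zero]
    have h2 := hd.2 x hx0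
    rw [Finsupp.sum] at h2
    rw [der_sum, map_sum] at h2
    have h4 := congrArg (fun p : K[X] => p.coeff (w - k.1)) h2
    simp only [Polynomial.finsetSum_coeff, coeff_zero] at h4
    rw [Finset.sum_eq_single k] at h4
    · obtain ⟨z, hz⟩ := hev (w - k.1) (f k x) (((hf k).2 w x hx).1 (w - k.1) (by omega))
      rw [hz, coeff_monomial, if_pos rfl] at h4
      rw [hz, h4, map_zero]
    · intro j _ hjk
      rcases lt_or_ge w j.1 with hlt' | hle'
      · rw [((hf j).2 w x hx).2 hlt', map_zero, coeff_zero]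
      · obtain ⟨z, hz⟩ := hev (w - j.1) (f j x) (((hf j).2 w x hx).1 (w - j.1) (by omega))
        rw [hz, coeff_monomial, if_neg]
        intro h5
        exact hjk (Subtype.ext (by omega))
    · intro h5
      exact absurd hk h5
  intro x hx
  have h1 := ker_homog hev hG x hx
  refine Submodule.iSup_induction _ (motive := fun x : A => ev (f k x) = 0) h1 ?_ (by rw [map_zero, map_zero]) ?_
  · rintro n y ⟨hy1, hy2⟩
    exact key n y hy2 hy1
  · intro a b ha hb
    rw [map_add, map_add, ha, hb, add_zero]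

omit hev in
theorem dm_ker (hG : Gr G) (U : Submodule ℚ (Derivation ℚ A A)) (w : ℕ) :
    dm G (RingHom.ker ev) U w = finrank ℚ ((MZ.Inv U ⊓ G w).map ev.toLinearMap) := by
  have h0 := hG.fin w
  have hf : FiniteDimensional ℚ (MZ.Inv U ⊓ G w : Submodule ℚ A) := Submodule.finiteDimensional_of_le inf_le_right
  have h1 := finrank_inf (RingHom.ker ev) (MZ.Inv U ⊓ G w)
  have h2 := finrank_map_add ev.toLinearMap (MZ.Inv U ⊓ G w)
  have h3 : LinearMap.ker ev.toLinearMap = (RingHom.ker ev).restrictScalars ℚ := by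
    ext x
    rfl
  rw [h3] at h2
  unfold dm
  omega

end eval

/-! ### the algebra `HH` with a grading `deg W` and a family `Z` of spaces of numbers -/

section

variable (W : Wt) {K : Type} [Field K] [Algebra ℚ K] (Z : ℕ → Submodule ℚ K)

/-- A surjective homomorphism of graded algebras to the algebra of the polynomials `∑ z_w X^w`, `z_w ∈ Z_w`. -/
def IsMap (ev : HH →ₐ[ℚ] K[X]) : Prop :=
  ∀ w, (deg W w).map ev.toLinearMap = (Z w).map ((monomial w : K →ₗ[K] K[X]).restrictScalars ℚ)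

/-- `S` is a graded Lie subalgebra of `F`: the sum of its parts of degrees `1, 2, 3, ...`. -/
def IsGradedSub (S : LieSubalgebra ℚ (Derivation ℚ HH HH)) : Prop :=
  S ≤ Fl ∧ S.toSubmodule ≤ ⨆ k : ℕ, S.toSubmodule ⊓ Deg (deg W) (k + 1)

/-- The relations (the kernel of `ev`) are preserved by `S`. -/
def Stable (ev : HH →ₐ[ℚ] K[X]) (S : LieSubalgebra ℚ (Derivation ℚ HH HH)) : Prop :=
  ∀ d ∈ S, ∀ x, ev x = 0 → ev (d x) = 0

/-- The ideal of the relations is generated by relations which are killed by `S`. -/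
def Generated (ev : HH →ₐ[ℚ] K[X]) (S : LieSubalgebra ℚ (Derivation ℚ HH HH)) : Prop :=
  ∀ x, ev x = 0 → x ∈ Ideal.span {y | ev y = 0 ∧ ∀ d ∈ S, d y = 0}

/-- The dimension of the space of the values of the elements of degree `w` which are killed by `S`. -/
noncomputable def dimInv (ev : HH →ₐ[ℚ] K[X]) (S : LieSubalgebra ℚ (Derivation ℚ HH HH)) (w : ℕ) : ℕ :=
  finrank ℚ (Submodule.map ev.toLinearMap (MZ.Inv S.toSubmodule ⊓ deg W w))

/-- The dimension of the part of degree `k` of `S`. -/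
noncomputable def dimLie (S : LieSubalgebra ℚ (Derivation ℚ HH HH)) (k : ℕ) : ℕ :=
  finrank ℚ (S.toSubmodule ⊓ Deg (deg W) k : Submodule ℚ (Derivation ℚ HH HH))

/-- The coefficient of `X ^ n` in `(∑ dimInv ev S w * X ^ w) / ∏_k (1 - X ^ k) ^ dimLie S k`. -/
noncomputable def bound (ev : HH →ₐ[ℚ] K[X]) (S : LieSubalgebra ℚ (Derivation ℚ HH HH)) (n : ℕ) : ℚ :=
  PowerSeries.coeff n (PowerSeries.mk (fun w => (dimInv W ev S w : ℚ)) *
    (∏ k ∈ Finset.Icc 1 n, (1 - PowerSeries.X ^ k) ^ dimLie W S k)⁻¹)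

variable {W} {Z} {ev : HH →ₐ[ℚ] K[X]} (hev : IsMap W Z ev)

theorem isGr_iff {S : LieSubalgebra ℚ (Derivation ℚ HH HH)} :
    IsGr (deg W) S ↔ S.toSubmodule ≤ ⨆ k : ℕ, S.toSubmodule ⊓ Deg (deg W) (k + 1) := by
  have h1 : up (deg W) S 1 = ⨆ k : ℕ, S.toSubmodule ⊓ Deg (deg W) (k + 1) := by
    apply le_antisymm
    · refine iSup_le fun j => ?_
      obtain ⟨k, hk⟩ := Nat.exists_eq_add_of_le' j.2
      rw [hk]
      exact le_iSup (fun k : ℕ => S.toSubmodule ⊓ Deg (deg W) (k + 1)) k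
    · exact iSup_le fun k => le_up (by omega)
  rw [IsGr, h1]

include hev

theorem hom_ev : ∀ w, ∀ x ∈ deg W w, ∃ z : K, ev x = monomial w z := by
  intro w x hx
  have h1 : ev x ∈ (deg W w).map ev.toLinearMap := ⟨x, hx, rfl⟩
  rw [hev w] at h1
  obtain ⟨z, -, hz⟩ := h1
  exact ⟨z, hz.symm⟩

theorem dim_Z (w : ℕ) : finrank ℚ (Z w) = finrank ℚ ((deg W w).map ev.toLinearMap) := by
  rw [hev w]
  exact (Submodule.equivMapOfInjective ((monomial w : K →ₗ[K] K[X]).restrictScalars ℚ)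
    (monomial_injective w) (Z w)).finrank_eq

theorem dm_bot (w : ℕ) : dm (deg W) (RingHom.ker ev) ⊥ w = finrank ℚ (Z w) := by
  have hb : (MZ.Inv ⊥ ⊓ deg W w : Submodule ℚ HH) = deg W w := inf_eq_right.mpr fun x _ d hd => by
    rw [(Submodule.mem_bot ℚ).mp hd]
    rfl
  rw [dm_ker (gr_deg W), hb, dim_Z hev]

omit hev in
theorem bd_eq (S : LieSubalgebra ℚ (Derivation ℚ HH HH)) (n : ℕ) :
    bd (deg W) (RingHom.ker ev) S n = bound W ev S n := by
  have h1 : HS (deg W) (RingHom.ker ev) S.toSubmodule = PowerSeries.mk (fun w => (dimInv W ev S w : ℚ)) := by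
    ext w
    rw [HS, PowerSeries.coeff_mk, PowerSeries.coeff_mk, dm_ker (gr_deg W)]
    rfl
  rw [bd, h1]
  rfl

theorem inj_of_stable {z : K} (hz : z ≠ 0) (hX : ev X = monomial W.e z) (h : Stable ev Fl) : Function.Injective ev := by
  have h1 := (stable_iff_gen (gr_deg W) (nondeg_Fl W) (gr_Fl W) (ker_homog (hom_ev hev) (gr_deg W))).mp
    fun d hd x hx => h d hd x hx
  rw [injective_iff_map_eq_zero]
  intro x hx
  have h2 : gen (deg W) (RingHom.ker ev) Fl.toSubmodule ≤ ⊥ := by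
    refine Ideal.span_le.mpr ?_
    rintro y ⟨hy0, hy1, -⟩
    obtain ⟨q, rfl⟩ := Inv_Fl hy1
    have h3 : (ev.comp (Polynomial.mapAlgHom (Algebra.ofId ℚ Sh))) = aeval (monomial W.e z : K[X]) := by
      refine Polynomial.algHom_ext ?_
      rw [AlgHom.comp_apply, aeval_X, coe_mapAlgHom, Polynomial.map_X, hX]
    have h4 : aeval (monomial W.e z : K[X]) q = 0 := by
      rw [← h3]
      exact hy0
    have h5 : (q.map (algebraMap ℚ K)).comp (monomial W.e z) = 0 := by
      rw [← h4, Polynomial.comp, eval₂_map, aeval_def]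
      rfl
    rw [comp_eq_zero_iff] at h5
    rcases h5 with h5 | ⟨-, h5⟩
    · have h6 : q = 0 := (Polynomial.map_eq_zero (algebraMap ℚ K)).mp h5
      rw [h6, Polynomial.map_zero]
      rfl
    · exfalso
      have h6 := congrArg (fun p : K[X] => p.coeff W.e) h5
      simp only [coeff_monomial, coeff_C] at h6
      have he : W.e ≠ 0 := W.epos.ne'
      rw [if_pos trivial, if_neg he] at h6
      exact hz h6
  exact h2 (h1 hx)

theorem inj_of_dims (h : ∀ w, finrank ℚ (Z w) = finrank ℚ (deg W w)) : Function.Injective ev := by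
  have key : ∀ w, ∀ x ∈ deg W w, ev x = 0 → x = 0 := by
    intro w x hx h0
    have hf := (gr_deg W).fin w
    have e1 := finrank_map_add ev.toLinearMap (deg W w)
    have e2 := h w
    rw [dim_Z hev] at e2
    have e3 : finrank ℚ (deg W w ⊓ LinearMap.ker ev.toLinearMap : Submodule ℚ HH) = 0 := by omega
    have hf2 : FiniteDimensional ℚ (deg W w ⊓ LinearMap.ker ev.toLinearMap : Submodule ℚ HH) :=
      Submodule.finiteDimensional_of_le inf_le_left
    rw [Submodule.finrank_eq_zero] at e3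
    have h3 : x ∈ (deg W w ⊓ LinearMap.ker ev.toLinearMap : Submodule ℚ HH) := ⟨hx, h0⟩
    rwa [e3, Submodule.mem_bot] at h3
  rw [injective_iff_map_eq_zero]
  intro x hx
  have h1 := ker_homog (hom_ev hev) (gr_deg W) x hx
  refine Submodule.iSup_induction _ (motive := fun x : HH => x = 0) h1 ?_ rfl fun a b ha hb => by rw [ha, hb, add_zero]
  rintro n y ⟨hy1, hy2⟩
  exact key n y hy2 hy1

theorem dims_of_inj (h : Function.Injective ev) (w : ℕ) : finrank ℚ (Z w) = finrank ℚ (deg W w) := by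
  rw [dim_Z hev]
  exact (Submodule.equivMapOfInjective ev.toLinearMap h (deg W w)).finrank_eq.symm

/-- **Theorem.** The largest graded Lie subalgebra which preserves the relations. -/
theorem main {z : K} (hz : z ≠ 0) (hX : ev X = monomial W.e z) :
    ∃ S₀ : LieSubalgebra ℚ (Derivation ℚ HH HH), IsGradedSub W S₀ ∧
      (∀ S, IsGradedSub W S → (Stable ev S ↔ S ≤ S₀) ∧ (Generated ev S ↔ S ≤ S₀) ∧
        ((∀ n, (finrank ℚ (Z n) : ℚ) = bound W ev S n) ↔ S ≤ S₀) ∧ ∀ n, (finrank ℚ (Z n) : ℚ) ≤ bound W ev S n) ∧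
      ((∀ n, finrank ℚ (Z n) = finrank ℚ (deg W n)) ↔ S₀ = Fl) := by
  have hh := hom_ev hev
  have hker := ker_homog hh (gr_deg W)
  refine ⟨stab Fl ev, ⟨fun d hd => hd.1, isGr_iff.mp (stab_gr hh (gr_deg W) (gr_Fl W))⟩, fun S hS => ?_, ?_⟩
  · have hgr : IsGr (deg W) S := isGr_iff.mpr hS.2
    have hnd : NonDeg (deg W) S := fun k hk d hd => nondeg_Fl W k hk d ⟨hS.1 hd.1, hd.2⟩
    have h0 : Stable ev S ↔ S ≤ stab Fl ev :=
      ⟨fun h d hd => ⟨hS.1 hd, h d hd⟩, fun h d hd => (h hd).2⟩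
    have h0' : Stable ev S ↔ ∀ d ∈ S, ∀ x ∈ RingHom.ker ev, d x ∈ RingHom.ker ev := Iff.rfl
    refine ⟨h0, ?_, ?_, fun n => ?_⟩
    · rw [← h0]
      constructor
      · intro h d hd
        exact stable_of_kill (I := RingHom.ker ev) (T := {y | ev y = 0 ∧ ∀ d ∈ S, d y = 0}) (fun x hx => h x hx)
          (fun x hx => hx.1) fun x hx => hx.2 d hd
      · intro h x hx
        have h1 := (stable_iff_gen (gr_deg W) hnd hgr hker).mp (h0'.mp h) (show x ∈ RingHom.ker ev from hx)
        refine Ideal.span_mono ?_ h1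
        rintro y ⟨hy1, hy2, -⟩
        exact ⟨hy1, hy2⟩
    · rw [← h0, h0', stable_iff_dm (gr_deg W) hnd hgr hker]
      refine forall_congr' fun n => ?_
      rw [dm_bot hev, bd_eq]
    · have h1 := dm_le_bd (gr_deg W) hnd hgr (I := RingHom.ker ev) n
      rwa [dm_bot hev, bd_eq] at h1
  · constructor
    · intro h
      have hinj := inj_of_dims hev h
      apply le_antisymm
      · exact fun d hd => hd.1
      · intro d hd
        refine ⟨hd, fun x hx => ?_⟩
        have h1 : x = 0 := hinj (by rw [hx, map_zero])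
        rw [h1, map_zero, map_zero]
    · intro h
      refine dims_of_inj hev (inj_of_stable hev hz hX fun d hd => ?_)
      rw [← h] at hd
      exact hd.2

/-- **Theorem.** When do all relations follow from finitely many? -/
theorem fg : (RingHom.ker ev).FG ↔ ∃ N, ∀ k, N < k → ∀ d ∈ Fl.toSubmodule ⊓ Deg (deg W) k,
    ∀ x ∈ RingHom.ker ev, d x ∈ RingHom.ker ev :=
  fg_iff (gr_deg W) (nondeg_Fl W) (gr_Fl W) inv_fg (ker_homog (hom_ev hev) (gr_deg W))

end

end Pool.Agent.H249.ML
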