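import Pool.Agent.H249.ML.UG

/-!
# The filtration by the degree, and the dimensions of the quotients by arbitrary ideals
-/

set_option autoImplicit false
set_option linter.unusedSectionVars false

open Submodule Module

namespace Pool.Agent.H249.ML

open Pool.Agent.H249.MZ

section general

variable {A : Type} [CommRing A] [Algebra ℚ A] {G : ℕ → Submodule ℚ A}

/-- the elements of degree at most `n` -/
def Fi (G : ℕ → Submodule ℚ A) (n : ℕ) : Submodule ℚ A := ⨆ k : {k : ℕ // k ≤ n}, G k.1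

theorem le_Fi {k n : ℕ} (h : k ≤ n) : G k ≤ Fi G n := le_iSup (fun k : {k : ℕ // k ≤ n} => G k.1) ⟨k, h⟩

theorem Fi_mono {m n : ℕ} (h : m ≤ n) : Fi G m ≤ Fi G n := iSup_le fun k => le_Fi (k.2.trans h)

theorem Fi_ind {n : ℕ} {p : A → Prop} (h0 : p 0) (ha : ∀ x y, p x → p y → p (x + y)) (h : ∀ k ≤ n, ∀ x ∈ G k, p x) {x : A}
    (hx : x ∈ Fi G n) : p x :=
  Submodule.iSup_induction _ (motive := p) hx (fun k x hx => h k.1 k.2 x hx) h0 ha

theorem gr_Fi (hG : Gr G) : Gr (Fi G) where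
  one := le_Fi le_rfl hG.one
  mul := fun {a b x y} hx hy => by
    refine Fi_ind (p := fun x => x * y ∈ Fi G (a + b)) (by rw [zero_mul]; exact zero_mem _)
      (fun x z h1 h2 => by rw [add_mul]; exact add_mem h1 h2) (fun k hk x hx => ?_) hx
    refine Fi_ind (p := fun y => x * y ∈ Fi G (a + b)) (by rw [mul_zero]; exact zero_mem _)
      (fun x z h1 h2 => by rw [mul_add]; exact add_mem h1 h2) (fun l hl y hy => ?_) hy
    exact le_Fi (show k + l ≤ a + b by omega) (hG.mul hx hy)
  top := by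
    rw [eq_top_iff, ← hG.top]
    exact iSup_mono fun n => le_Fi le_rfl
  zero := fun x hx => by
    refine Fi_ind (p := fun x => ∃ c : ℚ, x = algebraMap ℚ A c) ⟨0, (map_zero _).symm⟩ ?_ (fun k hk x hx => ?_) hx
    · rintro x y ⟨a, rfl⟩ ⟨b, rfl⟩
      exact ⟨a + b, (map_add _ _ _).symm⟩
    · have h1 : k = 0 := by omega
      subst h1
      exact hG.zero x hx
  fin := fun n => by
    have h1 : ∀ k : {k : ℕ // k ≤ n}, FiniteDimensional ℚ (G k.1) := fun k => hG.fin k.1
    have h2 : Finite {k : ℕ // k ≤ n} := Set.Finite.to_subtype (Set.finite_Iic n)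
    unfold Fi
    infer_instance

theorem deg_Fi {k : ℕ} : Deg G k ≤ Deg (Fi G) k := by
  intro d hd w x hx
  refine Fi_ind (p := fun x => (∀ v, v + k = w → d x ∈ Fi G v) ∧ (w < k → d x = 0)) ?_ ?_ (fun l hl x hx => ?_) hx
  · rw [map_zero]
    exact ⟨fun _ _ => zero_mem _, fun _ => rfl⟩
  · rintro x y ⟨h1, h2⟩ ⟨h3, h4⟩
    rw [map_add]
    exact ⟨fun v hv => add_mem (h1 v hv) (h3 v hv), fun h => by rw [h2 h, h4 h, add_zero]⟩
  · refine ⟨fun v hv => ?_, fun h => (hd l x hx).2 (by omega)⟩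
    rcases lt_or_ge l k with h | h
    · rw [(hd l x hx).2 h]
      exact zero_mem _
    · exact le_Fi (show l - k ≤ v by omega) ((hd l x hx).1 (l - k) (by omega))

theorem toFi {W : Submodule ℚ (Derivation ℚ A A)} {y : Derivation ℚ A A} {s : A} {k : ℕ} (st : Step G W y s k) :
    Step (Fi G) W y s k where
  pos := st.pos
  hy := deg_Fi st.hy
  hs := le_Fi le_rfl st.hs
  ys := st.ys
  Ws := st.Ws
  Wy := st.Wy

theorem Fi_kill {S : LieSubalgebra ℚ (Derivation ℚ A A)} {k w : ℕ} (h : w < k) : Fi G w ≤ MZ.Inv (up G S k) :=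
  iSup_le fun j => up_kill (by have := j.2; omega)

theorem mem_some (hG : Gr G) (x : A) : ∃ n, x ∈ Fi G n := by
  have hx : x ∈ ⨆ w, G w := by
    rw [hG.top]
    trivial
  refine Submodule.iSup_induction _ (motive := fun x : A => ∃ n, x ∈ Fi G n) hx (fun n x hx => ⟨n, le_Fi le_rfl hx⟩)
    ⟨0, zero_mem _⟩ ?_
  rintro a b ⟨n, hn⟩ ⟨m, hm⟩
  exact ⟨max n m, add_mem (Fi_mono (le_max_left _ _) hn) (Fi_mono (le_max_right _ _) hm)⟩

theorem dm_trunc' (I : Ideal A) (S : LieSubalgebra ℚ (Derivation ℚ A A)) {w n : ℕ} (h : w ≤ n) :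
    dm (Fi G) I (up G S (n + 1)) w = dm (Fi G) I ⊥ w := by
  have hb : (MZ.Inv ⊥ ⊓ Fi G w : Submodule ℚ A) = MZ.Inv (up G S (n + 1)) ⊓ Fi G w := by
    apply le_antisymm
    · rintro x ⟨-, hx⟩
      exact ⟨Fi_kill (Nat.lt_succ_of_le h) hx, hx⟩
    · rintro x ⟨-, hx⟩
      exact ⟨fun d hd => by
        rw [(Submodule.mem_bot ℚ).mp hd]
        rfl, hx⟩
  unfold dm
  rw [hb]

/-- the bound for the dimension in degrees at most `n` -/
noncomputable def bdF (G : ℕ → Submodule ℚ A) (I : Ideal A) (S : LieSubalgebra ℚ (Derivation ℚ A A)) (n : ℕ) : ℚ :=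
  PowerSeries.coeff n (HS (Fi G) I S.toSubmodule * (prd G S n)⁻¹)

section main

variable [Nontrivial A] (hG : Gr G) {S : LieSubalgebra ℚ (Derivation ℚ A A)} (hN : NonDeg G S) (hS : IsGr G S)
  {I : Ideal A}

include hG hN

theorem level_Fi {k : ℕ} (hk : 0 < k) (hI : ∀ d ∈ S, ∀ x ∈ I, d x ∈ I) :
    HS (Fi G) I (up G S k) = HS (Fi G) I (up G S (k + 1)) * (1 - PowerSeries.X ^ k) ^ rk G S k := by
  have hf := fin_deg hG hN hk
  obtain ⟨b, h1, h2, h3⟩ := exists_chain (S.toSubmodule ⊓ Deg G k : Submodule ℚ (Derivation ℚ A A))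
  have key : ∀ j ≤ rk G S k, HS (Fi G) I (up G S (k + 1) ⊔ span ℚ (b '' Set.Iio j)) =
        HS (Fi G) I (up G S (k + 1)) * (1 - PowerSeries.X ^ k) ^ j := by
    intro j
    induction j with
    | zero =>
      intro _
      have h4 : span ℚ (b '' Set.Iio 0) = ⊥ := by simp
      rw [h4, sup_bot_eq, pow_zero, mul_one]
    | succ j ih =>
      intro hj
      have i2 := ih (by omega)
      have hU : span ℚ (b '' Set.Iio j) ≤ S.toSubmodule ⊓ Deg G k := by
        rw [Submodule.span_le]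
        rintro _ ⟨i, hi, rfl⟩
        have hi' : i < j := hi
        exact h1 i (by
          change i < rk G S k
          omega)
      have hy : b j ∈ S.toSubmodule ⊓ Deg G k := h1 j hj
      obtain ⟨s, st⟩ := exists_step hG hN hk hU hy (h2 j hj)
      have hIy : ∀ x ∈ I, b j x ∈ I := hI (b j) hy.1
      rw [span_Iio_succ, ← sup_assoc]
      rw [pow_succ, ← mul_assoc, ← i2]
      ext w
      have h5 := step_dim (gr_Fi hG) (toFi st) hIy w
      rw [mul_sub, mul_one, map_sub, PowerSeries.coeff_mul_X_pow', HS, HS, PowerSeries.coeff_mk, PowerSeries.coeff_mk]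
      rw [h5]
      split_ifs with h6
      · rw [PowerSeries.coeff_mk]
        push_cast
        ring
      · push_cast
        ring
  have h4 := key _ le_rfl
  have h5 : up G S (k + 1) ⊔ span ℚ (b '' Set.Iio (rk G S k)) = up G S k := by
    rw [up_succ S k]
    congr 1
  rwa [h5] at h4

theorem chain_Fi (hI : ∀ d ∈ S, ∀ x ∈ I, d x ∈ I) (n : ℕ) :
    HS (Fi G) I (up G S 1) = HS (Fi G) I (up G S (n + 1)) * prd G S n := by
  induction n with
  | zero => simp [prd]
  | succ n ih =>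
    rw [ih, level_Fi hG hN (Nat.succ_pos n) hI, prd, prd, ← Finset.insert_Icc_right_eq_Icc_add_one (by omega),
      Finset.prod_insert (by simp), mul_assoc]
    congr 1

include hS

theorem dmF_of_stable (hst : ∀ d ∈ S, ∀ x ∈ I, d x ∈ I) (n : ℕ) : (dm (Fi G) I ⊥ n : ℚ) = bdF G I S n := by
  have h1 := chain_Fi hG hN hst n
  rw [up_one hS] at h1
  rw [bdF, h1, mul_assoc, PowerSeries.mul_inv_cancel _ (const_prd S n), mul_one, HS, PowerSeries.coeff_mk,
    dm_trunc' I S le_rfl]

omit [Nontrivial A] hN hS in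
theorem dmF_genI (w : ℕ) : dm (Fi G) (genI I S.toSubmodule) S.toSubmodule w = dm (Fi G) I S.toSubmodule w := by
  have h0 := (gr_Fi hG).fin w
  have hf : FiniteDimensional ℚ (MZ.Inv S.toSubmodule ⊓ Fi G w : Submodule ℚ A) :=
    Submodule.finiteDimensional_of_le inf_le_right
  have h1 := finrank_inf I (MZ.Inv S.toSubmodule ⊓ Fi G w)
  have h2 := finrank_inf (genI I S.toSubmodule) (MZ.Inv S.toSubmodule ⊓ Fi G w)
  have h3 : (MZ.Inv S.toSubmodule ⊓ Fi G w ⊓ (genI I S.toSubmodule).restrictScalars ℚ : Submodule ℚ A) =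
      MZ.Inv S.toSubmodule ⊓ Fi G w ⊓ I.restrictScalars ℚ := by
    apply le_antisymm
    · exact inf_le_inf_left _ fun x hx => genI_le I _ hx
    · rintro x ⟨hx1, hx2⟩
      exact ⟨hx1, Ideal.subset_span ⟨hx2, hx1.1⟩⟩
  rw [h3] at h2
  unfold dm
  omega

theorem dmF_le (n : ℕ) : (dm (Fi G) I ⊥ n : ℚ) ≤ bdF G I S n := by
  have h1 := dmF_of_stable hG hN hS (I := genI I S.toSubmodule) (fun d hd => genI_stable I S.toSubmodule d hd) n
  have h2 : HS (Fi G) (genI I S.toSubmodule) S.toSubmodule = HS (Fi G) I S.toSubmodule := by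
    ext w
    rw [HS, HS, PowerSeries.coeff_mk, PowerSeries.coeff_mk, dmF_genI hG]
  rw [bdF, h2] at h1
  rw [bdF, ← h1]
  exact_mod_cast dm_mono (gr_Fi hG) (genI_le I _) ⊥ n

theorem stable_iff_dmF : (∀ d ∈ S, ∀ x ∈ I, d x ∈ I) ↔ ∀ n, (dm (Fi G) I ⊥ n : ℚ) = bdF G I S n := by
  constructor
  · intro hst n
    exact dmF_of_stable hG hN hS hst n
  · intro h
    rw [stable_iff_genI hG hN hS]
    intro x hx
    obtain ⟨n, hn⟩ := mem_some hG x
    have h1 := dmF_of_stable hG hN hS (I := genI I S.toSubmodule) (fun d hd => genI_stable I S.toSubmodule d hd) n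
    have h2 : HS (Fi G) (genI I S.toSubmodule) S.toSubmodule = HS (Fi G) I S.toSubmodule := by
      ext w
      rw [HS, HS, PowerSeries.coeff_mk, PowerSeries.coeff_mk, dmF_genI hG]
    rw [bdF, h2] at h1
    have h3 := h n
    rw [bdF, ← h1] at h3
    exact eq_of_dm (gr_Fi hG) (genI_le I _) (by exact_mod_cast h3) ⟨hx, hn⟩

end main

/-! ### the theorem of Hilbert and Serre -/

/-- **Base of the induction.** -/
theorem phs_baseF (hG : Gr G) {W : Submodule ℚ (Derivation ℚ A A)} (h : ∀ x ∈ MZ.Inv W, ∃ c : ℚ, x = algebraMap ℚ A c) :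
    PHS (Fi G) W := by
  have hE := gr_Fi hG
  have hone : ∀ n, (1 : A) ∈ Fi G n := fun n => le_Fi (Nat.zero_le n) hG.one
  have hInv1 : (1 : A) ∈ MZ.Inv W := fun d _ => Derivation.map_one_eq_zero d
  have hsp : ∀ n, (MZ.Inv W ⊓ Fi G n : Submodule ℚ A) = span ℚ {(1 : A)} := by
    intro n
    apply le_antisymm
    · rintro x ⟨hx, -⟩
      obtain ⟨q, rfl⟩ := h x hx
      rw [Algebra.algebraMap_eq_smul_one]
      exact Submodule.smul_mem _ _ (mem_span_singleton_self _)
    · rw [span_singleton_le_iff_mem]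
      exact ⟨hInv1, hone n⟩
  have hfs : FiniteDimensional ℚ (span ℚ {(1 : A)}) := FiniteDimensional.span_singleton ℚ _
  have h1 : finrank ℚ (span ℚ {(1 : A)}) ≤ 1 := by
    have h3 := finrank_span_le_card (R := ℚ) ({(1 : A)} : Set A)
    simpa using h3
  have hor : ∀ (c : GI (Fi G) W) (n : ℕ), c.J n = ⊥ ∨ c.J n = span ℚ {(1 : A)} := by
    intro c n
    have hf2 := finJ hE c n
    have hle : c.J n ≤ span ℚ {(1 : A)} := by
      rw [← hsp n]
      exact c.le n
    rcases Nat.eq_zero_or_pos (finrank ℚ (c.J n)) with h2 | h2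
    · left
      exact Submodule.finrank_eq_zero.mp h2
    · right
      exact Submodule.eq_of_le_of_finrank_le hle (h1.trans h2)
  have hup : ∀ (c : GI (Fi G) W) (m n : ℕ), m ≤ n → c.J m ≤ c.J n := by
    intro c m n hmn x hx
    have h3 := c.mul hInv1 (hone (n - m)) hx
    rwa [one_mul, Nat.sub_add_cancel hmn] at h3
  refine ⟨fun c hc => ?_, fun c => ?_⟩
  · have hc' : ∀ i j, i ≤ j → ∀ n, (c i).J n ≤ (c j).J n := by
      intro i j hij n
      induction hij with
      | refl => exact le_rfl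
      | step _ ih => exact ih.trans (hc _ n)
    by_cases h2 : ∃ n i, (c i).J n ≠ ⊥
    · classical
      obtain ⟨i, hi⟩ := Nat.find_spec h2
      obtain ⟨m, hm⟩ : ∃ m, m = Nat.find h2 := ⟨_, rfl⟩
      rw [← hm] at hi
      refine ⟨i, fun j hj n => ?_⟩
      have hj' : (c j).J m ≠ ⊥ := fun h3 => hi (by
        rw [eq_bot_iff, ← h3]
        exact hc' i j hj m)
      rcases lt_or_ge n m with hnm | hnm
      · have h3 : ∀ i, (c i).J n = ⊥ := by
          have h4 := Nat.find_min h2 (m := n) (by rw [← hm]; exact hnm)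
          push Not at h4
          exact h4
        rw [h3, h3]
      · have h3 : ∀ l, (c l).J m ≠ ⊥ → (c l).J n = span ℚ {(1 : A)} := by
          intro l hl
          refine (hor (c l) n).resolve_left fun h5 => hl ?_
          rw [eq_bot_iff, ← h5]
          exact hup _ _ _ hnm
        rw [h3 i hi, h3 j hj']
    · push Not at h2
      exact ⟨0, fun j _ n => by rw [h2, h2]⟩
  · by_cases h2 : ∃ n, c.J n ≠ ⊥
    · classical
      have hm1 := Nat.find_spec h2
      obtain ⟨m, hm⟩ : ∃ m, m = Nat.find h2 := ⟨_, rfl⟩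
      rw [← hm] at hm1
      refine ⟨1 - Polynomial.X ^ m, ?_⟩
      have h3 : Nl c = PowerSeries.X ^ m * Hl (Fi G) W := by
        ext n
        rw [Nl, Hl, PowerSeries.coeff_mk, PowerSeries.coeff_X_pow_mul']
        split_ifs with hnm
        · have h4 : c.J n = span ℚ {(1 : A)} := by
            refine (hor c n).resolve_left fun h5 => hm1 ?_
            rw [eq_bot_iff, ← h5]
            exact hup _ _ _ hnm
          rw [PowerSeries.coeff_mk, h4, hsp]
        · have h4 : c.J n = ⊥ := by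
            have h5 := Nat.find_min h2 (m := n) (by rw [← hm]; omega)
            push Not at h5
            exact h5
          rw [h4, finrank_bot]
          rfl
      have h5 : ((1 - Polynomial.X ^ m : Polynomial ℤ) : PowerSeries ℤ) = 1 - PowerSeries.X ^ m := by
        have h8 : ∀ q : Polynomial ℤ, (q : PowerSeries ℤ) = Polynomial.coeToPowerSeries.ringHom q := fun q => rfl
        rw [h8, map_sub, map_one, map_pow, ← h8, Polynomial.coe_X]
      rw [h3, h5]
      ring
    · push Not at h2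
      refine ⟨1, ?_⟩
      have h3 : Nl c = 0 := by
        ext n
        rw [Nl, PowerSeries.coeff_mk, map_zero, h2, finrank_bot]
        rfl
      rw [h3, sub_zero, Polynomial.coe_one, one_mul]

theorem level_phsF [Nontrivial A] (hG : Gr G) {S : LieSubalgebra ℚ (Derivation ℚ A A)} (hN : NonDeg G S) {k : ℕ} (hk : 0 < k)
    (h : PHS (Fi G) (up G S k)) : PHS (Fi G) (up G S (k + 1)) := by
  have hf := fin_deg hG hN hk
  obtain ⟨b, h1, h2, h3⟩ := exists_chain (S.toSubmodule ⊓ Deg G k : Submodule ℚ (Derivation ℚ A A))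
  have key : ∀ j ≤ rk G S k, PHS (Fi G) (up G S (k + 1) ⊔ span ℚ (b '' Set.Iio j)) → PHS (Fi G) (up G S (k + 1)) := by
    intro j
    induction j with
    | zero =>
      intro _ h
      have h4 : span ℚ (b '' Set.Iio 0) = ⊥ := by simp
      rwa [h4, sup_bot_eq] at h
    | succ j ih =>
      intro hj h
      apply ih (by omega)
      have hU : span ℚ (b '' Set.Iio j) ≤ S.toSubmodule ⊓ Deg G k := by
        rw [Submodule.span_le]
        rintro _ ⟨i, hi, rfl⟩
        have hi' : i < j := hi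
        exact h1 i (by
          change i < rk G S k
          omega)
      obtain ⟨s, st⟩ := exists_step hG hN hk hU (h1 j hj) (h2 j hj)
      rw [span_Iio_succ, ← sup_assoc] at h
      exact phs_step (gr_Fi hG) (toFi st) h
  refine key _ le_rfl ?_
  have h5 : up G S (k + 1) ⊔ span ℚ (b '' Set.Iio (rk G S k)) = up G S k := by
    rw [up_succ S k]
    congr 1
  rwa [h5]

theorem all_phsF [Nontrivial A] (hG : Gr G) {S : LieSubalgebra ℚ (Derivation ℚ A A)} (hN : NonDeg G S) (hS : IsGr G S)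
    (h : PHS (Fi G) S.toSubmodule) (n : ℕ) : PHS (Fi G) (up G S (n + 1)) := by
  induction n with
  | zero => rwa [up_one hS]
  | succ n ih => exact level_phsF hG hN (Nat.succ_pos n) ih

/-- **Theorem.** The Hilbert series of the quotient by an arbitrary ideal preserved by the elements of large degree. -/
theorem hs_fullF [Nontrivial A] (hG : Gr G) {S : LieSubalgebra ℚ (Derivation ℚ A A)} (hN : NonDeg G S) (hS : IsGr G S)
    (h : PHS (Fi G) S.toSubmodule) {I : Ideal A} {N : ℕ}
    (hI : ∀ k, N < k → ∀ d ∈ S.toSubmodule ⊓ Deg G k, ∀ x ∈ I, d x ∈ I) :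
    ∃ p : Polynomial ℤ, HS (Fi G) I ⊥ = ((p.map (Int.castRingHom ℚ) : Polynomial ℚ) : PowerSeries ℚ) * HS (Fi G) ⊥ ⊥ := by
  have hst : ∀ d ∈ tail G S N, ∀ x ∈ I, d x ∈ I := by
    intro d hd x hx
    refine Submodule.iSup_induction _ (motive := fun d : Derivation ℚ A A => d x ∈ I) hd ?_ (zero_mem _) ?_
    · rintro ⟨j, hj⟩ d hd
      exact hI j hj d hd x hx
    · intro a b ha hb
      rw [Derivation.add_apply]
      exact add_mem ha hb
  have hst0 : ∀ d ∈ tail G S N, ∀ x ∈ (⊥ : Ideal A), d x ∈ (⊥ : Ideal A) := by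
    intro d _ x hx
    rw [Ideal.mem_bot] at hx
    rw [hx, map_zero]
    exact zero_mem _
  have hnd : NonDeg G (tail G S N) := fun k hk d hd => hN k hk d ⟨tail_le S N hd.1, hd.2⟩
  obtain ⟨p, hp⟩ := hs_inv (gr_Fi hG) (all_phsF hG hN hS h N) I
  refine ⟨p, ?_⟩
  obtain ⟨P, hP⟩ : ∃ P : PowerSeries ℚ, P = ((p.map (Int.castRingHom ℚ) : Polynomial ℚ) : PowerSeries ℚ) := ⟨_, rfl⟩
  rw [← hP] at hp ⊢
  have e0 : up G (tail G S N) 1 = up G S (N + 1) := up_one (tail_gr S N)
  ext n
  have e1 := chain_Fi hG hnd hst n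
  have e2 := chain_Fi hG hnd hst0 n
  rw [e0] at e1 e2
  rw [e2, e1, ← mul_assoc] at hp
  have e3 : prd G (tail G S N) n ≠ 0 := by
    intro h0
    have := const_prd (G := G) (tail G S N) n
    rw [h0, map_zero] at this
    exact this rfl
  have e4 := mul_right_cancel₀ e3 hp
  have e5 := congrArg (PowerSeries.coeff (R := ℚ) n) e4
  rw [HS, PowerSeries.coeff_mk, dm_trunc' I _ le_rfl] at e5
  rw [HS, PowerSeries.coeff_mk, e5, PowerSeries.coeff_mul, PowerSeries.coeff_mul]
  refine Finset.sum_congr rfl fun ij hij => ?_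
  have h6 := Finset.HasAntidiagonal.mem_antidiagonal.mp hij
  rw [HS, HS, PowerSeries.coeff_mk, PowerSeries.coeff_mk, dm_trunc' _ _ (show ij.2 ≤ n by omega)]

end general

end Pool.Agent.H249.ML
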