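import Pool.Agent.H249.ML.Ev

/-!
# The theorem of Hilbert and Serre for the invariants of nilpotent Lie algebras of derivations
-/

set_option autoImplicit false
set_option linter.unusedSectionVars false

open Submodule Module

namespace Pool.Agent.H249.ML

open Pool.Agent.H249.MZ

variable {A : Type} [CommRing A] [Algebra ℚ A] {G : ℕ → Submodule ℚ A}

/-- a graded ideal of the algebra of the elements killed by `W` -/
structure GI (G : ℕ → Submodule ℚ A) (W : Submodule ℚ (Derivation ℚ A A)) where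
  J : ℕ → Submodule ℚ A
  le : ∀ n, J n ≤ MZ.Inv W ⊓ G n
  mul : ∀ {m n : ℕ} {a x : A}, a ∈ MZ.Inv W → a ∈ G m → x ∈ J n → a * x ∈ J (m + n)

/-- the series of the dimensions of a graded ideal -/
noncomputable def Nl {W : Submodule ℚ (Derivation ℚ A A)} (c : GI G W) : PowerSeries ℤ :=
  PowerSeries.mk fun n => (finrank ℚ (c.J n) : ℤ)

/-- the Hilbert series of the algebra of the elements killed by `W` -/
noncomputable def Hl (G : ℕ → Submodule ℚ A) (W : Submodule ℚ (Derivation ℚ A A)) : PowerSeries ℤ :=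
  PowerSeries.mk fun n => (finrank ℚ (MZ.Inv W ⊓ G n : Submodule ℚ A) : ℤ)

/-- graded noetherianity and the Hilbert series of quotients -/
def PHS (G : ℕ → Submodule ℚ A) (W : Submodule ℚ (Derivation ℚ A A)) : Prop :=
  (∀ c : ℕ → GI G W, (∀ i n, (c i).J n ≤ (c (i + 1)).J n) → ∃ i₀, ∀ i, i₀ ≤ i → ∀ n, (c i).J n = (c i₀).J n) ∧
  ∀ c : GI G W, ∃ p : Polynomial ℤ, Hl G W - Nl c = (p : PowerSeries ℤ) * Hl G W

theorem iter_const {y : Derivation ℚ A A} {a : A} (ha : y a = 0) (i : ℕ) (x : A) : (y)^[i] (a * x) = a * (y)^[i] x := by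
  induction i with
  | zero => rfl
  | succ i ih =>
    rw [Function.iterate_succ_apply', ih, Derivation.leibniz, ha, smul_zero, add_zero, Function.iterate_succ_apply',
      smul_eq_mul]

theorem iter_slice {y : Derivation ℚ A A} {s : A} (hs : y s = 1) (j : ℕ) (x : A) :
    (y)^[j + 1] (s * x) = s * (y)^[j + 1] x + ((j + 1 : ℕ) : A) * (y)^[j] x := by
  induction j with
  | zero =>
    change y (s * x) = s * y x + ((0 + 1 : ℕ) : A) * x
    rw [Derivation.leibniz, hs, smul_eq_mul, smul_eq_mul, mul_one, zero_add, Nat.cast_one, one_mul]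
  | succ j ih =>
    rw [Function.iterate_succ_apply', ih, map_add, Derivation.leibniz, Derivation.leibniz, hs, Derivation.map_natCast,
      smul_zero, add_zero, smul_eq_mul, smul_eq_mul, smul_eq_mul, mul_one, ← Function.iterate_succ_apply' (f := y),
      ← Function.iterate_succ_apply' (f := y)]
    push_cast
    ring

section step

variable (hG : Gr G) {W : Submodule ℚ (Derivation ℚ A A)} {y : Derivation ℚ A A} {s : A} {k : ℕ}
  (st : Step G W y s k)

/-- the iterates as linear maps -/
noncomputable def Yp (y : Derivation ℚ A A) : ℕ → (A →ₗ[ℚ] A)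
  | 0 => LinearMap.id
  | i + 1 => (y : A →ₗ[ℚ] A).comp (Yp y i)

theorem Yp_apply (y : Derivation ℚ A A) (i : ℕ) (x : A) : Yp y i x = (y)^[i] x := by
  induction i with
  | zero => rfl
  | succ i ih =>
    rw [Function.iterate_succ_apply', ← ih]
    rfl

theorem Yp_succ (y : Derivation ℚ A A) (i : ℕ) (x : A) : Yp y (i + 1) x = y (Yp y i x) := rfl

/-- leading coefficients -/
noncomputable def lead (c : GI G W) (i : ℕ) : GI G (W ⊔ span ℚ {y}) where
  J n := (c.J (n + i * k) ⊓ LinearMap.ker (Yp y (i + 1))).map (Yp y i)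
  le n := by
    rintro _ ⟨x, ⟨h1, h2⟩, rfl⟩
    have h3 := c.le _ h1
    have h2' : y (Yp y i x) = 0 := h2
    refine ⟨mem_Inv_sup.mpr ⟨?_, mem_Inv_span.mpr h2'⟩, ?_⟩
    · rw [Yp_apply]
      exact iter_mem st.Wy i h3.1
    · rw [Yp_apply]
      rcases iter_deg st.hy i _ x h3.2 with h4 | ⟨m, h4, h5⟩
      · rw [h4]
        exact zero_mem _
      · have h6 : m = n := by omega
        rwa [h6] at h5
  mul {m n a z} ha hm hz := by
    obtain ⟨x, ⟨h1, h2⟩, rfl⟩ := hz
    obtain ⟨h3, h4⟩ := mem_Inv_sup.mp ha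
    have h4' := mem_Inv_span.mp h4
    have h2' : Yp y (i + 1) x = 0 := h2
    refine ⟨a * x, ⟨?_, ?_⟩, ?_⟩
    · have h5 := c.mul h3 hm h1
      rwa [← add_assoc] at h5
    · change Yp y (i + 1) (a * x) = 0
      rw [Yp_apply, iter_const h4', ← Yp_apply, h2', mul_zero]
    · rw [Yp_apply, iter_const h4', ← Yp_apply]

theorem mem_lead {c : GI G W} {i n : ℕ} {z : A} :
    z ∈ (lead st c i).J n ↔ ∃ x ∈ c.J (n + i * k), (y)^[i + 1] x = 0 ∧ (y)^[i] x = z := by
  constructor
  · rintro ⟨x, ⟨h1, h2⟩, rfl⟩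
    refine ⟨x, h1, ?_, (Yp_apply y i x).symm⟩
    rw [← Yp_apply]
    exact h2
  · rintro ⟨x, h1, h2, rfl⟩
    refine ⟨x, ⟨h1, ?_⟩, Yp_apply y i x⟩
    change Yp y (i + 1) x = 0
    rw [Yp_apply, h2]

theorem lead_mono {c : GI G W} (i n : ℕ) : (lead st c i).J n ≤ (lead st c (i + 1)).J n := by
  intro z hz
  obtain ⟨x, h1, h2, h3⟩ := (mem_lead st).mp hz
  refine (mem_lead st).mpr ⟨(((i + 1 : ℕ) : ℚ)⁻¹) • (s * x), ?_, ?_, ?_⟩
  · have h4 := c.mul st.Ws st.hs h1
    rw [show k + (n + i * k) = n + (i + 1) * k by ring] at h4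
    exact Submodule.smul_mem _ _ h4
  · rw [iter_smul, iter_slice st.ys, h2, Function.iterate_succ_apply' (f := y), h2, map_zero, mul_zero, mul_zero, add_zero,
      smul_zero]
  · rw [iter_smul, iter_slice st.ys, h2, mul_zero, zero_add, h3, Algebra.smul_def, ← mul_assoc, ← map_natCast (algebraMap ℚ A),
      ← map_mul, inv_mul_cancel₀ (Nat.cast_ne_zero.mpr i.succ_ne_zero), map_one, one_mul]

theorem lead_mono' {c c' : GI G W} (h : ∀ n, c.J n ≤ c'.J n) (i n : ℕ) : (lead st c i).J n ≤ (lead st c' i).J n := by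
  intro z hz
  obtain ⟨x, h1, h2, h3⟩ := (mem_lead st).mp hz
  exact (mem_lead st).mpr ⟨x, h _ h1, h2, h3⟩

include hG in
theorem finJ (c : GI G W) (n : ℕ) : FiniteDimensional ℚ (c.J n) := by
  have := hG.fin n
  exact Submodule.finiteDimensional_of_le ((c.le n).trans inf_le_right)

include hG in
theorem fin_sum (c : GI G W) (n : ℕ) : finrank ℚ (c.J n) =
    ∑ i ∈ Finset.range (n + 1), if i * k ≤ n then finrank ℚ ((lead st c i).J (n - i * k)) else 0 := by
  have hf := finJ hG c n
  have key : ∀ m, finrank ℚ (c.J n ⊓ LinearMap.ker (Yp y m) : Submodule ℚ A) =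
      ∑ i ∈ Finset.range m, if i * k ≤ n then finrank ℚ ((lead st c i).J (n - i * k)) else 0 := by
    intro m
    induction m with
    | zero =>
      have h1 : (c.J n ⊓ LinearMap.ker (Yp y 0) : Submodule ℚ A) = ⊥ := by
        rw [eq_bot_iff]
        rintro x ⟨-, h⟩
        exact h
      rw [h1, finrank_bot]
      rfl
    | succ m ih =>
      have hf2 : FiniteDimensional ℚ (c.J n ⊓ LinearMap.ker (Yp y (m + 1)) : Submodule ℚ A) :=
        Submodule.finiteDimensional_of_le inf_le_left
      have h1 := finrank_map_add (Yp y m) (c.J n ⊓ LinearMap.ker (Yp y (m + 1)))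
      have h2 : (c.J n ⊓ LinearMap.ker (Yp y (m + 1)) ⊓ LinearMap.ker (Yp y m) : Submodule ℚ A) =
          c.J n ⊓ LinearMap.ker (Yp y m) := by
        rw [inf_assoc, inf_eq_right.mpr (show LinearMap.ker (Yp y m) ≤ LinearMap.ker (Yp y (m + 1)) from fun x hx => ?_)]
        have hx' : Yp y m x = 0 := hx
        change y (Yp y m x) = 0
        rw [hx', map_zero]
      rw [Finset.sum_range_succ, ← ih, ← h1, h2, add_comm]
      congr 1
      split_ifs with h3
      · change finrank ℚ _ = finrank ℚ ((c.J (n - m * k + m * k) ⊓ LinearMap.ker (Yp y (m + 1))).map (Yp y m))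
        rw [Nat.sub_add_cancel h3]
      · have h4 : (c.J n ⊓ LinearMap.ker (Yp y (m + 1))).map (Yp y m) = ⊥ := by
          rw [eq_bot_iff]
          rintro _ ⟨x, ⟨hx, -⟩, rfl⟩
          rw [Yp_apply]
          rcases iter_deg st.hy m n x (c.le n hx).2 with h5 | ⟨j, h5, -⟩
          · rw [h5]
            exact zero_mem _
          · omega
        rw [h4, finrank_bot]
  rw [← key (n + 1)]
  have h1 : (c.J n ⊓ LinearMap.ker (Yp y (n + 1)) : Submodule ℚ A) = c.J n := by
    refine inf_eq_left.mpr fun x hx => ?_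
    change Yp y (n + 1) x = 0
    rw [Yp_apply]
    exact iter_nil st.pos st.hy n x (c.le n hx).2
  rw [h1]

include hG in
theorem series (c : GI G W) (i₀ : ℕ) (h : ∀ i, i₀ ≤ i → ∀ n, (lead st c i).J n = (lead st c i₀).J n) :
    Nl c * (1 - PowerSeries.X ^ k) = Nl (lead st c 0) +
      ∑ i ∈ Finset.range i₀, PowerSeries.X ^ ((i + 1) * k) * (Nl (lead st c (i + 1)) - Nl (lead st c i)) := by
  ext n
  have hk := st.pos
  set L : ℕ → ℕ → ℤ := fun i m => (finrank ℚ ((lead st c i).J m) : ℤ) with hL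
  have e1 : ∀ m, (PowerSeries.coeff m (Nl c) : ℤ) = ∑ i ∈ Finset.range (m + 1), if i * k ≤ m then L i (m - i * k) else 0 := by
    intro m
    rw [Nl, PowerSeries.coeff_mk, fin_sum hG st c m]
    push_cast
    rfl
  have e2 : ∀ i m, (PowerSeries.coeff m (Nl (lead st c i)) : ℤ) = L i m := fun i m => PowerSeries.coeff_mk _ _
  set g : ℕ → ℤ := fun i => if (i + 1) * k ≤ n then L (i + 1) (n - (i + 1) * k) - L i (n - (i + 1) * k) else 0 with hg
  have hg1 : ∀ i, n ≤ i → g i = 0 := by
    intro i hi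
    rw [hg]
    simp only
    rw [if_neg]
    intro h1
    have : (i + 1) * 1 ≤ (i + 1) * k := Nat.mul_le_mul_left _ hk
    omega
  have hg2 : ∀ i, i₀ ≤ i → g i = 0 := by
    intro i hi
    rw [hg]
    simp only
    split_ifs
    · rw [hL]
      simp only
      rw [h (i + 1) (by omega), h i hi, sub_self]
    · rfl
  have e3 : (PowerSeries.coeff n (Nl c * (1 - PowerSeries.X ^ k)) : ℤ) = L 0 n + ∑ i ∈ Finset.range n, g i := by
    rw [mul_sub, mul_one, map_sub, PowerSeries.coeff_mul_X_pow', e1, Finset.sum_range_succ', if_pos (by omega)]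
    have h5 : (if k ≤ n then (PowerSeries.coeff (n - k) (Nl c) : ℤ) else 0) =
        ∑ i ∈ Finset.range n, if (i + 1) * k ≤ n then L i (n - (i + 1) * k) else 0 := by
      split_ifs with h6
      · rw [e1]
        have h7 : Finset.range (n - k + 1) ⊆ Finset.range n := Finset.range_subset_range.mpr (by omega)
        rw [← Finset.sum_subset h7]
        · refine Finset.sum_congr rfl fun i _ => ?_
          have h8 : i * k ≤ n - k ↔ (i + 1) * k ≤ n := by
            rw [add_mul, one_mul]
            omega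
          by_cases h9 : i * k ≤ n - k
          · rw [if_pos h9, if_pos (h8.mp h9)]
            congr 1
            rw [add_mul, one_mul]
            omega
          · rw [if_neg h9, if_neg (fun h10 => h9 (h8.mpr h10))]
        · intro i _ hi
          rw [if_neg]
          intro h8
          rw [Finset.mem_range] at hi
          have : (i + 1) * 1 ≤ (i + 1) * k := Nat.mul_le_mul_left _ hk
          have h9 : i * 1 ≤ i * k := Nat.mul_le_mul_left _ hk
          rw [add_mul, one_mul] at h8
          omega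
      · symm
        refine Finset.sum_eq_zero fun i _ => ?_
        rw [if_neg]
        intro h8
        rw [add_mul, one_mul] at h8
        omega
    rw [h5, zero_mul, Nat.sub_zero, add_sub_right_comm, ← Finset.sum_sub_distrib, add_comm]
    congr 1
    refine Finset.sum_congr rfl fun i _ => ?_
    rw [hg]
    simp only
    split_ifs
    · rfl
    · rw [sub_self]
  have e4 : ∑ i ∈ Finset.range n, g i = ∑ i ∈ Finset.range i₀, g i := by
    rcases le_total n i₀ with h1 | h1
    · exact Finset.sum_subset (Finset.range_subset_range.mpr h1) fun i _ hi => hg1 i (by simpa using hi)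
    · exact (Finset.sum_subset (Finset.range_subset_range.mpr h1) fun i _ hi => hg2 i (by simpa using hi)).symm
  rw [e3, e4, map_add, e2, map_sum]
  congr 1
  refine Finset.sum_congr rfl fun i _ => ?_
  rw [PowerSeries.coeff_X_pow_mul', hg]
  simp only
  split_ifs
  · rw [map_sub, e2, e2]
  · rfl

/-- the unit ideal -/
def topGI (W : Submodule ℚ (Derivation ℚ A A)) (hG : Gr G) : GI G W where
  J n := MZ.Inv W ⊓ G n
  le _ := le_rfl
  mul h1 h2 h3 := ⟨Inv_mul h1 h3.1, hG.mul h2 h3.2⟩

theorem lead_top (i n : ℕ) : (lead st (topGI W hG) i).J n = MZ.Inv (W ⊔ span ℚ {y}) ⊓ G n := by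
  apply le_antisymm ((lead st (topGI W hG) i).le n)
  rintro z ⟨h1, h2⟩
  obtain ⟨h3, h4⟩ := mem_Inv_sup.mp h1
  have h4' := mem_Inv_span.mp h4
  obtain ⟨c1, c2, -⟩ := cc_mem hG (I := ⊤) st (N := i) h2 h3
  refine (mem_lead st).mpr ⟨cc s z i, ⟨c2, by rwa [add_comm] at c1⟩, ?_, iter_cc st.ys h4' i⟩
  rw [Function.iterate_succ_apply', iter_cc st.ys h4', h4']

include hG st in
theorem hl_step : Hl G W * (1 - PowerSeries.X ^ k) = Hl G (W ⊔ span ℚ {y}) := by
  have h1 := series hG st (topGI W hG) 0 (fun i _ n => by rw [lead_top, lead_top])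
  rw [Finset.range_zero, Finset.sum_empty, add_zero] at h1
  have h2 : Nl (topGI W hG) = Hl G W := rfl
  rw [← h2, h1]
  ext n
  rw [Nl, Hl, PowerSeries.coeff_mk, PowerSeries.coeff_mk, lead_top]

include hG st in
/-- **Step of the induction.** -/
theorem phs_step (hP : PHS G (W ⊔ span ℚ {y})) : PHS G W := by
  obtain ⟨hN, hE⟩ := hP
  refine ⟨?_, ?_⟩
  · intro c hc
    have hc' : ∀ i j, i ≤ j → ∀ n, (c i).J n ≤ (c j).J n := by
      intro i j hij n
      induction hij with
      | refl => exact le_rfl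
      | step _ ih => exact ih.trans (hc _ n)
    have hl : ∀ (d : GI G W) (i j : ℕ), i ≤ j → ∀ n, (lead st d i).J n ≤ (lead st d j).J n := by
      intro d i j hij n
      induction hij with
      | refl => exact le_rfl
      | step _ ih => exact ih.trans (lead_mono st _ n)
    obtain ⟨m₀, h0⟩ := hN (fun m => lead st (c m) m) (fun i n => (lead_mono' st (hc i) i n).trans (lead_mono st i n))
    have h1 : ∀ i, ∃ m, ∀ m', m ≤ m' → ∀ n, (lead st (c m') i).J n = (lead st (c m) i).J n := fun i =>
      hN (fun m => lead st (c m) i) (fun m n => lead_mono' st (hc m) i n)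
    choose f hf using h1
    obtain ⟨M, hM⟩ : ∃ M, M = m₀ + ∑ i ∈ Finset.range m₀, f i := ⟨_, rfl⟩
    have hfM : ∀ i < m₀, f i ≤ M := by
      intro i hi
      rw [hM]
      exact (Finset.single_le_sum (f := f) (fun _ _ => Nat.zero_le _) (Finset.mem_range.mpr hi)).trans (Nat.le_add_left _ _)
    have big : ∀ m i, m₀ ≤ m → m₀ ≤ i → ∀ n, (lead st (c m) i).J n = (lead st (c m₀) m₀).J n := by
      intro m i hm hi n
      apply le_antisymm
      · rw [← h0 (max m i) (le_max_of_le_left hm) n]
        exact (lead_mono' st (hc' m (max m i) (le_max_left _ _)) i n).trans (hl _ i (max m i) (le_max_right _ _) n)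
      · exact (lead_mono' st (hc' m₀ m hm) m₀ n).trans (hl _ m₀ i hi n)
    have all : ∀ m, M ≤ m → ∀ i n, (lead st (c m) i).J n = (lead st (c M) i).J n := by
      intro m hm i n
      rcases lt_or_ge i m₀ with hi | hi
      · rw [hf i m ((hfM i hi).trans hm) n, hf i M (hfM i hi) n]
      · rw [big m i (by omega) hi n, big M i (by omega) hi n]
    refine ⟨M, fun m hm n => ?_⟩
    have e1 := fin_sum hG st (c m) n
    have e2 := fin_sum hG st (c M) n
    have e3 : finrank ℚ ((c M).J n) = finrank ℚ ((c m).J n) := by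
      rw [e1, e2]
      refine Finset.sum_congr rfl fun i _ => ?_
      rw [all m hm]
    have hfin := finJ hG (c m) n
    exact (Submodule.eq_of_le_of_finrank_eq (hc' M m hm n) e3).symm
  · intro c
    obtain ⟨i₀, h0⟩ := hN (fun i => lead st c i) (fun i n => lead_mono st i n)
    choose p hp using fun i => hE (lead st c i)
    have h1 := series hG st c i₀ h0
    have h2 := hl_step hG st
    have h3 : ∀ i, Nl (lead st c i) = Hl G (W ⊔ span ℚ {y}) - (p i : PowerSeries ℤ) * Hl G (W ⊔ span ℚ {y}) := fun i => by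
      rw [← hp i]
      ring
    refine ⟨p 0 + ∑ i ∈ Finset.range i₀, Polynomial.X ^ ((i + 1) * k) * (p (i + 1) - p i), ?_⟩
    have hne : (1 - PowerSeries.X ^ k : PowerSeries ℤ) ≠ 0 := by
      intro h4
      have h5 := congrArg (PowerSeries.coeff (R := ℤ) 0) h4
      have hk := st.pos
      rw [map_sub, PowerSeries.coeff_X_pow, map_zero, if_neg hk.ne, sub_zero, PowerSeries.coeff_zero_one] at h5
      exact one_ne_zero h5
    apply mul_right_cancel₀ hne
    rw [sub_mul, h1, mul_assoc, h2, h3 0]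
    have h6 : ∑ i ∈ Finset.range i₀, PowerSeries.X ^ ((i + 1) * k) * (Nl (lead st c (i + 1)) - Nl (lead st c i)) =
        -(∑ i ∈ Finset.range i₀, PowerSeries.X ^ ((i + 1) * k) * ((p (i + 1) : PowerSeries ℤ) - (p i : PowerSeries ℤ))) *
          Hl G (W ⊔ span ℚ {y}) := by
      rw [← Finset.sum_neg_distrib, Finset.sum_mul]
      refine Finset.sum_congr rfl fun i _ => ?_
      rw [h3, h3]
      ring
    have h7 : ((p 0 + ∑ i ∈ Finset.range i₀, Polynomial.X ^ ((i + 1) * k) * (p (i + 1) - p i) : Polynomial ℤ) : PowerSeries ℤ) =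
        (p 0 : PowerSeries ℤ) +
          ∑ i ∈ Finset.range i₀, PowerSeries.X ^ ((i + 1) * k) * ((p (i + 1) : PowerSeries ℤ) - (p i : PowerSeries ℤ)) := by
      have h8 : ∀ q : Polynomial ℤ, (q : PowerSeries ℤ) = Polynomial.coeToPowerSeries.ringHom q := fun q => rfl
      rw [h8, map_add, map_sum]
      congr 1
      refine Finset.sum_congr rfl fun i _ => ?_
      rw [map_mul, map_sub, map_pow]
      congr 1
      rw [← h8, Polynomial.coe_X]
    rw [h6, h7]
    ring

end step

end Pool.Agent.H249.ML
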