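import Pool.Agent.H249.ML.HS
import Pool.Agent.H249.ML.Cnt

/-!
# The Hilbert series of the quotient by a finitely generated ideal
-/

set_option autoImplicit false
set_option linter.unusedSectionVars false

open Submodule Module

namespace Pool.Agent.H249.ML

open Pool.Agent.H249.MZ

section general

variable {A : Type} [CommRing A] [Algebra ℚ A] {G : ℕ → Submodule ℚ A}

theorem fin_le (hG : Gr G) {W : Submodule ℚ (Derivation ℚ A A)} (c : GI G W) :
    finrank ℚ (MZ.Inv W ⊓ G 0 : Submodule ℚ A) ≤ 1 := by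
  have h1 : (MZ.Inv W ⊓ G 0 : Submodule ℚ A) ≤ span ℚ {(1 : A)} := by
    rintro x ⟨-, hx⟩
    obtain ⟨q, rfl⟩ := hG.zero x hx
    rw [Algebra.algebraMap_eq_smul_one]
    exact Submodule.smul_mem _ _ (mem_span_singleton_self _)
  have h2 : FiniteDimensional ℚ (span ℚ {(1 : A)}) := FiniteDimensional.span_singleton ℚ _
  refine (Submodule.finrank_mono h1).trans ?_
  have h3 := finrank_span_le_card (R := ℚ) ({(1 : A)} : Set A)
  simpa using h3

theorem zero_or (hG : Gr G) {W : Submodule ℚ (Derivation ℚ A A)} (c : GI G W) :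
    c.J 0 = ⊥ ∨ c.J 0 = MZ.Inv W ⊓ G 0 := by
  have h0 := hG.fin 0
  have hf : FiniteDimensional ℚ (MZ.Inv W ⊓ G 0 : Submodule ℚ A) := Submodule.finiteDimensional_of_le inf_le_right
  have hf2 := finJ hG c 0
  have h1 := fin_le hG c
  rcases Nat.eq_zero_or_pos (finrank ℚ (c.J 0)) with h2 | h2
  · left
    exact Submodule.finrank_eq_zero.mp h2
  · right
    exact Submodule.eq_of_le_of_finrank_le (c.le 0) (h1.trans h2)

/-- **Base of the induction.** -/
theorem phs_base (hG : Gr G) {W : Submodule ℚ (Derivation ℚ A A)} (h : ∀ n, 0 < n → (MZ.Inv W ⊓ G n : Submodule ℚ A) = ⊥) :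
    PHS G W := by
  have hp : ∀ (c : GI G W) (n : ℕ), 0 < n → c.J n = ⊥ := fun c n hn => by
    rw [eq_bot_iff, ← h n hn]
    exact c.le n
  refine ⟨fun c hc => ?_, fun c => ?_⟩
  · have hc' : ∀ i j, i ≤ j → ∀ n, (c i).J n ≤ (c j).J n := by
      intro i j hij n
      induction hij with
      | refl => exact le_rfl
      | step _ ih => exact ih.trans (hc _ n)
    by_cases h1 : ∃ i, (c i).J 0 ≠ ⊥
    · obtain ⟨i, hi⟩ := h1
      refine ⟨i, fun j hj n => ?_⟩
      rcases Nat.eq_zero_or_pos n with rfl | hn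
      · have h2 : (c j).J 0 ≠ ⊥ := fun h3 => hi (by
          rw [eq_bot_iff, ← h3]
          exact hc' i j hj 0)
        rw [(zero_or hG (c i)).resolve_left hi, (zero_or hG (c j)).resolve_left h2]
      · rw [hp _ n hn, hp _ n hn]
    · push Not at h1
      refine ⟨0, fun j _ n => ?_⟩
      rcases Nat.eq_zero_or_pos n with rfl | hn
      · rw [h1, h1]
      · rw [hp _ n hn, hp _ n hn]
  · rcases zero_or hG c with h1 | h1
    · refine ⟨1, ?_⟩
      have h2 : Nl c = 0 := by
        ext n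
        rw [Nl, PowerSeries.coeff_mk, map_zero]
        rcases Nat.eq_zero_or_pos n with rfl | hn
        · rw [h1, finrank_bot]
          rfl
        · rw [hp _ n hn, finrank_bot]
          rfl
      rw [h2, sub_zero, Polynomial.coe_one, one_mul]
    · refine ⟨0, ?_⟩
      have h2 : Nl c = Hl G W := by
        ext n
        rw [Nl, Hl, PowerSeries.coeff_mk, PowerSeries.coeff_mk]
        rcases Nat.eq_zero_or_pos n with rfl | hn
        · rw [h1]
        · rw [hp _ n hn, h n hn]
      rw [h2, sub_self, Polynomial.coe_zero, zero_mul]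

theorem level_phs [Nontrivial A] (hG : Gr G) {S : LieSubalgebra ℚ (Derivation ℚ A A)} (hN : NonDeg G S) {k : ℕ} (hk : 0 < k)
    (h : PHS G (up G S k)) : PHS G (up G S (k + 1)) := by
  have hf := fin_deg hG hN hk
  obtain ⟨b, h1, h2, h3⟩ := exists_chain (S.toSubmodule ⊓ Deg G k : Submodule ℚ (Derivation ℚ A A))
  have key : ∀ j ≤ rk G S k, PHS G (up G S (k + 1) ⊔ span ℚ (b '' Set.Iio j)) → PHS G (up G S (k + 1)) := by
    intro j
    induction j with
    | zero =>
      intro _ h
      have h4 : span ℚ (b '' Set.Iio 0) = ⊥ := by simp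
      rwa [h4, sup_bot_eq] at h
    | succ j ih =>
      intro hj h
      apply ih (by omega)
      have hU : span ℚ (b '' Set.Iio j) ≤ S.toSubmodule ⊓ Deg G k := by
        rw [Submodule.span_le]
        rintro _ ⟨i, hi, rfl⟩
        have hi' : i < j := hi
        exact h1 i (by
          change i < rk G S k
          omega)
      obtain ⟨s, st⟩ := exists_step hG hN hk hU (h1 j hj) (h2 j hj)
      rw [span_Iio_succ, ← sup_assoc] at h
      exact phs_step hG st h
  refine key _ le_rfl ?_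
  have h5 : up G S (k + 1) ⊔ span ℚ (b '' Set.Iio (rk G S k)) = up G S k := by
    rw [up_succ S k]
    congr 1
  rwa [h5]

theorem all_phs [Nontrivial A] (hG : Gr G) {S : LieSubalgebra ℚ (Derivation ℚ A A)} (hN : NonDeg G S) (hS : IsGr G S)
    (h : PHS G S.toSubmodule) (n : ℕ) : PHS G (up G S (n + 1)) := by
  induction n with
  | zero => rwa [up_one hS]
  | succ n ih => exact level_phs hG hN (Nat.succ_pos n) ih

/-- the invariant elements of an ideal -/
def kerGI (I : Ideal A) (W : Submodule ℚ (Derivation ℚ A A)) (hG : Gr G) : GI G W where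
  J n := MZ.Inv W ⊓ G n ⊓ I.restrictScalars ℚ
  le _ := inf_le_left
  mul h1 h2 h3 := ⟨⟨Inv_mul h1 h3.1.1, hG.mul h2 h3.1.2⟩, I.mul_mem_left _ h3.2⟩

theorem hs_inv (hG : Gr G) {W : Submodule ℚ (Derivation ℚ A A)} (h : PHS G W) (I : Ideal A) :
    ∃ p : Polynomial ℤ, HS G I W = ((p.map (Int.castRingHom ℚ) : Polynomial ℚ) : PowerSeries ℚ) * HS G ⊥ W := by
  obtain ⟨p, hp⟩ := h.2 (kerGI I W hG)
  refine ⟨p, ?_⟩
  have h0 : ∀ n, FiniteDimensional ℚ (MZ.Inv W ⊓ G n : Submodule ℚ A) := fun n => by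
    have := hG.fin n
    exact Submodule.finiteDimensional_of_le inf_le_right
  have h1 : HS G I W = PowerSeries.map (Int.castRingHom ℚ) (Hl G W - Nl (kerGI I W hG)) := by
    ext n
    have h2 := h0 n
    have h3 := finrank_inf I (MZ.Inv W ⊓ G n)
    rw [HS, PowerSeries.coeff_mk, PowerSeries.coeff_map, map_sub, Hl, Nl, PowerSeries.coeff_mk, PowerSeries.coeff_mk]
    change ((finrank ℚ ((MZ.Inv W ⊓ G n).map (I.restrictScalars ℚ).mkQ) : ℕ) : ℚ) =
      (Int.castRingHom ℚ) (((finrank ℚ (MZ.Inv W ⊓ G n : Submodule ℚ A) : ℕ) : ℤ) -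
        ((finrank ℚ (MZ.Inv W ⊓ G n ⊓ I.restrictScalars ℚ : Submodule ℚ A) : ℕ) : ℤ))
    rw [← h3]
    push_cast
    simp
  have h2 : HS G ⊥ W = PowerSeries.map (Int.castRingHom ℚ) (Hl G W) := by
    ext n
    have h2 := h0 n
    have h3 := finrank_inf (⊥ : Ideal A) (MZ.Inv W ⊓ G n)
    have h4 : (MZ.Inv W ⊓ G n ⊓ (⊥ : Ideal A).restrictScalars ℚ : Submodule ℚ A) = ⊥ := by
      rw [eq_bot_iff]
      rintro x ⟨-, hx⟩
      exact hx
    rw [h4, finrank_bot, add_zero] at h3
    rw [HS, PowerSeries.coeff_mk, PowerSeries.coeff_map, Hl, PowerSeries.coeff_mk]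
    change ((finrank ℚ ((MZ.Inv W ⊓ G n).map ((⊥ : Ideal A).restrictScalars ℚ).mkQ) : ℕ) : ℚ) = _
    rw [h3]
    simp
  rw [h1, h2, hp, map_mul]
  congr 1
  ext n
  rw [PowerSeries.coeff_map, Polynomial.coeff_coe, Polynomial.coeff_coe, Polynomial.coeff_map]

theorem dm_trunc (I : Ideal A) (S : LieSubalgebra ℚ (Derivation ℚ A A)) {w n : ℕ} (h : w ≤ n) :
    dm G I (up G S (n + 1)) w = dm G I ⊥ w := by
  have hb : (MZ.Inv ⊥ ⊓ G w : Submodule ℚ A) = MZ.Inv (up G S (n + 1)) ⊓ G w := by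
    apply le_antisymm
    · rintro x ⟨-, hx⟩
      exact ⟨up_kill (Nat.lt_succ_of_le h) hx, hx⟩
    · rintro x ⟨-, hx⟩
      exact ⟨fun d hd => by
        rw [(Submodule.mem_bot ℚ).mp hd]
        rfl, hx⟩
  unfold dm
  rw [hb]

/-- **Theorem.** The Hilbert series of the quotient by an ideal preserved by the elements of large degree. -/
theorem hs_full [Nontrivial A] (hG : Gr G) {S : LieSubalgebra ℚ (Derivation ℚ A A)} (hN : NonDeg G S) (hS : IsGr G S)
    (h : PHS G S.toSubmodule) {I : Ideal A} {N : ℕ} (hI : ∀ k, N < k → ∀ d ∈ S.toSubmodule ⊓ Deg G k, ∀ x ∈ I, d x ∈ I) :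
    ∃ p : Polynomial ℤ, HS G I ⊥ = ((p.map (Int.castRingHom ℚ) : Polynomial ℚ) : PowerSeries ℚ) * HS G ⊥ ⊥ := by
  have hst : ∀ d ∈ tail G S N, ∀ x ∈ I, d x ∈ I := by
    intro d hd x hx
    refine Submodule.iSup_induction _ (motive := fun d : Derivation ℚ A A => d x ∈ I) hd ?_ (zero_mem _) ?_
    · rintro ⟨j, hj⟩ d hd
      exact hI j hj d hd x hx
    · intro a b ha hb
      rw [Derivation.add_apply]
      exact add_mem ha hb
  have hst0 : ∀ d ∈ tail G S N, ∀ x ∈ (⊥ : Ideal A), d x ∈ (⊥ : Ideal A) := by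
    intro d _ x hx
    rw [Ideal.mem_bot] at hx
    rw [hx, map_zero]
    exact zero_mem _
  have hnd : NonDeg G (tail G S N) := fun k hk d hd => hN k hk d ⟨tail_le S N hd.1, hd.2⟩
  obtain ⟨p, hp⟩ := hs_inv hG (all_phs hG hN hS h N) I
  refine ⟨p, ?_⟩
  obtain ⟨P, hP⟩ : ∃ P : PowerSeries ℚ, P = ((p.map (Int.castRingHom ℚ) : Polynomial ℚ) : PowerSeries ℚ) := ⟨_, rfl⟩
  rw [← hP] at hp ⊢
  have e0 : up G (tail G S N) 1 = up G S (N + 1) := up_one (tail_gr S N)
  ext n
  have e1 := chain_HS hG hnd hst n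
  have e2 := chain_HS hG hnd hst0 n
  rw [e0] at e1 e2
  rw [e2, e1, ← mul_assoc] at hp
  have e3 : prd G (tail G S N) n ≠ 0 := by
    intro h0
    have := const_prd (G := G) (tail G S N) n
    rw [h0, map_zero] at this
    exact this rfl
  have e4 := mul_right_cancel₀ e3 hp
  have e5 := congrArg (PowerSeries.coeff (R := ℚ) n) e4
  rw [HS, PowerSeries.coeff_mk, dm_trunc I _ le_rfl] at e5
  rw [HS, PowerSeries.coeff_mk, e5, PowerSeries.coeff_mul, PowerSeries.coeff_mul]
  refine Finset.sum_congr rfl fun ij hij => ?_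
  have h6 := Finset.HasAntidiagonal.mem_antidiagonal.mp hij
  rw [HS, HS, PowerSeries.coeff_mk, PowerSeries.coeff_mk, dm_trunc _ _ (show ij.2 ≤ n by omega)]

end general

section HH

open Polynomial

/-- the derivative with respect to the variable -/
noncomputable def dX : Derivation ℚ HH HH :=
  Derivation.mk' (LinearMap.restrictScalars ℚ (Polynomial.derivative (R := Sh))) fun p q => by
    change derivative (p * q) = p • derivative q + q • derivative p
    rw [derivative_mul, smul_eq_mul, smul_eq_mul]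
    ring

theorem dX_apply (p : HH) : dX p = derivative p := rfl

variable (W : Wt)

theorem dX_deg : dX ∈ Deg (deg W) W.e := by
  intro w x hx
  refine Submodule.span_induction (p := fun x _ => (∀ v, v + W.e = w → dX x ∈ deg W v) ∧
    (w < W.e → dX x = 0)) ?_ ?_ ?_ ?_ hx
  · rintro _ ⟨i, u, h1, rfl⟩
    rw [dX_apply, derivative_monomial]
    rcases i with _ | i
    · rw [Nat.cast_zero, mul_zero, map_zero]
      exact ⟨fun _ _ => zero_mem _, fun _ => rfl⟩
    · rw [mul_add, mul_one] at h1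
      refine ⟨fun v hv => ?_, fun h => by omega⟩
      have h2 : (monomial (i + 1 - 1) (word u * ((i + 1 : ℕ) : Sh)) : HH) = ((i + 1 : ℕ) : ℚ) • monomial i (word u) := by
        rw [smul_monomial, Nat.add_sub_cancel]
        congr 1
        rw [Algebra.smul_def, map_natCast, mul_comm]
      rw [h2]
      exact Submodule.smul_mem _ _ (subset_span ⟨i, u, by omega, rfl⟩)
  · rw [map_zero]
    exact ⟨fun _ _ => zero_mem _, fun _ => rfl⟩
  · intro x y _ _ hx hy
    rw [map_add]
    exact ⟨fun v hv => add_mem (hx.1 v hv) (hy.1 v hv), fun h => by rw [hx.2 h, hy.2 h, add_zero]⟩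
  · intro c x _ hx
    rw [Derivation.map_smul]
    exact ⟨fun v hv => Submodule.smul_mem _ _ (hx.1 v hv), fun h => by rw [hx.2 h, smul_zero]⟩

theorem dX_step : Step (deg W) Fl.toSubmodule dX X W.e where
  pos := W.epos
  hy := dX_deg W
  hs := subset_span ⟨1, [], by simp, rfl⟩
  ys := by rw [dX_apply, derivative_X]
  Ws := by
    intro d hd
    obtain ⟨δ, rfl, -⟩ := Fl_struct hd
    change mapD δ (monomial 1 1) = 0
    rw [mapD_monomial, Derivation.map_one_eq_zero, map_zero]
  Wy := by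
    intro x hx d hd
    have h1 := hx d hd
    obtain ⟨δ, rfl, -⟩ := Fl_struct hd
    have h2 : mapD δ (dX x) = dX (mapD δ x) := by
      ext1 n
      rw [coeff_mapD, dX_apply, dX_apply, coeff_derivative, coeff_derivative, coeff_mapD, Derivation.leibniz]
      have h3 : δ ((n : Sh) + 1) = 0 := by
        rw [map_add, Derivation.map_natCast, Derivation.map_one_eq_zero, add_zero]
      rw [h3, smul_zero, zero_add, smul_eq_mul, mul_comm]
    rw [h2, h1, map_zero]

theorem phs_Fl : PHS (deg W) Fl.toSubmodule := by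
  refine phs_step (gr_deg W) (dX_step W) (phs_base (gr_deg W) fun n hn => ?_)
  rw [eq_bot_iff]
  rintro x ⟨h1, h2⟩
  obtain ⟨h3, h4⟩ := mem_Inv_sup.mp h1
  obtain ⟨q, rfl⟩ := Inv_Fl h3
  have h5 := mem_Inv_span.mp h4
  rw [dX_apply, derivative_map] at h5
  have h6 : derivative q = 0 := (Polynomial.map_eq_zero (algebraMap ℚ Sh)).mp h5
  have h7 := derivative_eq_zero.mp h6
  rw [eq_C_of_natDegree_eq_zero h7, Polynomial.map_C] at h2 ⊢
  -- a constant of positive degree is zero
  have key : ∀ y ∈ deg W n, cf (0, []) y = 0 := by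
    intro y hy
    refine Submodule.span_induction (p := fun y _ => cf (0, []) y = 0) ?_ (map_zero _) (fun a b _ _ ha hb => by
      rw [map_add, ha, hb, add_zero]) (fun c a _ ha => by rw [map_smul, ha, smul_zero]) hy
    rintro _ ⟨i, u, h1, rfl⟩
    rw [cf_monomial, if_neg]
    intro h8
    obtain ⟨rfl, rfl⟩ := Prod.mk.inj h8
    rw [mul_zero, wt_nil] at h1
    omega
  have h9 : ∀ c : ℚ, (C (algebraMap ℚ Sh c) : HH) = c • monomial 0 (word []) := fun c => by
    rw [smul_monomial, Algebra.algebraMap_eq_smul_one]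
    rfl
  have h8 := key _ h2
  rw [h9, map_smul, cf_monomial, if_pos rfl, smul_eq_mul, mul_one] at h8
  rw [h8, map_zero, map_zero]
  exact zero_mem _

end HH

end Pool.Agent.H249.ML
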