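import Pool.Agent.H249.MZ.Dom

/-!
# The shuffle algebra over a polynomial ring, letters and variable with arbitrary weights
-/

set_option autoImplicit false
set_option linter.unusedSectionVars false

open Submodule Module Polynomial

namespace Pool.Agent.H249.ML

open Pool.Agent.H249.MZ

/-- weights of the letters and of the variable -/
structure Wt where
  L : ℕ → ℕ
  e : ℕ
  pos : ∀ a, 0 < L a
  epos : 0 < e
  fin : ∀ n, {a | L a ≤ n}.Finite

/-- the weight of a word -/
def Wt.wt (W : Wt) (w : List ℕ) : ℕ := (w.map W.L).sum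

@[simp] theorem wt_nil (W : Wt) : W.wt [] = 0 := rfl
@[simp] theorem wt_cons (W : Wt) (a : ℕ) (w : List ℕ) : W.wt (a :: w) = W.L a + W.wt w := by simp [Wt.wt]

theorem wt_append (W : Wt) (u v : List ℕ) : W.wt (u ++ v) = W.wt u + W.wt v := by simp [Wt.wt]

/-- the combinations of the words of weight `n` -/
noncomputable def shDeg (W : Wt) (n : ℕ) : Submodule ℚ Sh := span ℚ {x | ∃ u, W.wt u = n ∧ x = word u}

variable {W : Wt}

theorem word_mem (u : List ℕ) : word u ∈ shDeg W (W.wt u) := subset_span ⟨u, rfl, rfl⟩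

theorem cons_mem {a n : ℕ} {x : Sh} (hx : x ∈ shDeg W n) : cons a x ∈ shDeg W (W.L a + n) := by
  refine Submodule.span_induction (p := fun x _ => cons a x ∈ shDeg W (W.L a + n)) ?_ ?_ ?_ ?_ hx
  · rintro _ ⟨u, hu, rfl⟩
    rw [cons_word]
    exact subset_span ⟨a :: u, by rw [wt_cons, hu], rfl⟩
  · rw [map_zero]; exact zero_mem _
  · intro x y _ _ hx hy
    rw [map_add]; exact add_mem hx hy
  · intro c x _ hx
    rw [map_smul]; exact Submodule.smul_mem _ _ hx

theorem shw_mem : ∀ (n : ℕ) (u v : List ℕ), u.length + v.length ≤ n → shw u v ∈ shDeg W (W.wt u + W.wt v) := by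
  intro n
  induction n with
  | zero =>
    intro u v h
    have h1 : u = [] := List.length_eq_zero_iff.1 (by omega)
    subst h1
    rw [shw, wt_nil, zero_add]
    exact word_mem v
  | succ n ih =>
    intro u v h
    rcases u with _ | ⟨a, u⟩
    · rw [shw, wt_nil, zero_add]
      exact word_mem v
    rcases v with _ | ⟨b, v⟩
    · rw [shw, wt_nil, add_zero]
      exact word_mem _
    simp only [List.length_cons] at h
    rw [shw]
    refine add_mem ?_ ?_
    · have h1 := cons_mem (a := a) (ih u (b :: v) (by simp; omega))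
      rwa [show W.L a + (W.wt u + W.wt (b :: v)) = W.wt (a :: u) + W.wt (b :: v) by rw [wt_cons W a]; omega] at h1
    · have h1 := cons_mem (a := b) (ih (a :: u) v (by simp; omega))
      rwa [show W.L b + (W.wt (a :: u) + W.wt v) = W.wt (a :: u) + W.wt (b :: v) by rw [wt_cons W b]; omega] at h1

theorem co_nil_of_mem {n : ℕ} (hn : 0 < n) {x : Sh} (hx : x ∈ shDeg W n) : co [] x = 0 := by
  refine Submodule.span_induction (p := fun x _ => co [] x = 0) ?_ ?_ ?_ ?_ hx
  · rintro _ ⟨u, hu, rfl⟩
    rw [co_word, if_neg]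
    rintro rfl
    rw [wt_nil] at hu
    omega
  · rw [map_zero]
  · intro x y _ _ hx hy
    rw [map_add, hx, hy, add_zero]
  · intro c x _ hx
    rw [map_smul, hx, smul_zero]

/-- the part of degree `n` -/
noncomputable def deg (W : Wt) (n : ℕ) : Submodule ℚ HH :=
  span ℚ {x | ∃ (i : ℕ) (u : List ℕ), W.e * i + W.wt u = n ∧ x = monomial i (word u)}

theorem monomial_mem (i n : ℕ) {x : Sh} (hx : x ∈ shDeg W n) : (monomial i x : HH) ∈ deg W (W.e * i + n) := by
  refine Submodule.span_induction (p := fun x _ => (monomial i x : HH) ∈ deg W (W.e * i + n)) ?_ ?_ ?_ ?_ hx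
  · rintro _ ⟨u, hu, rfl⟩
    exact subset_span ⟨i, u, by rw [hu], rfl⟩
  · rw [map_zero]; exact zero_mem _
  · intro x y _ _ hx hy
    rw [map_add]; exact add_mem hx hy
  · intro c x _ hx
    rw [← smul_monomial]; exact Submodule.smul_mem _ _ hx

theorem words_finite (n : ℕ) : {u : List ℕ | W.wt u ≤ n}.Finite := by
  induction n using Nat.strong_induction_on with
  | _ n ih =>
    have h1 : {u : List ℕ | W.wt u ≤ n} ⊆ {[]} ∪ ⋃ a ∈ {a | W.L a ≤ n}, (fun u => a :: u) '' {u | W.wt u ≤ n - 1 ∧ 0 < n} := by
      intro u hu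
      rcases u with _ | ⟨a, u⟩
      · exact Or.inl rfl
      · right
        have hu' : W.wt (a :: u) ≤ n := hu
        rw [wt_cons] at hu'
        have hp := W.pos a
        simp only [Set.mem_iUnion]
        exact ⟨a, show W.L a ≤ n by omega, u, ⟨by omega, by omega⟩, rfl⟩
    refine Set.Finite.subset ?_ h1
    refine (Set.finite_singleton _).union (Set.Finite.biUnion (W.fin n) fun a _ => Set.Finite.image _ ?_)
    by_cases h0 : 0 < n
    · exact (ih (n - 1) (by omega)).subset fun u hu => hu.1
    · exact Set.finite_empty.subset fun u hu => absurd hu.2 h0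

theorem gr_deg (W : Wt) : Gr (deg W) where
  one := subset_span ⟨0, [], by simp, rfl⟩
  mul := fun {a b x y} hx hy => by
    refine Submodule.span_induction₂ (p := fun x y _ _ => x * y ∈ deg W (a + b)) ?_ ?_ ?_ ?_ ?_ ?_ ?_ hx hy
    · rintro _ _ ⟨i, u, h1, rfl⟩ ⟨j, v, h2, rfl⟩
      rw [monomial_mul_monomial, MZ.mul_def, sh_word]
      have h3 := monomial_mem (W := W) (i + j) _ (shw_mem _ u v le_rfl)
      rwa [show W.e * (i + j) + (W.wt u + W.wt v) = a + b by rw [mul_add]; omega] at h3
    · intro y _
      rw [zero_mul]; exact zero_mem _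
    · intro x _
      rw [mul_zero]; exact zero_mem _
    · intro x y z _ _ _ h1 h2
      rw [add_mul]; exact add_mem h1 h2
    · intro x y z _ _ _ h1 h2
      rw [mul_add]; exact add_mem h1 h2
    · intro c x y _ _ h
      rw [smul_mul_assoc]; exact Submodule.smul_mem _ _ h
    · intro c x y _ _ h
      rw [mul_smul_comm]; exact Submodule.smul_mem _ _ h
  top := by
    rw [eq_top_iff]
    rintro p -
    refine Polynomial.induction_on' (motive := fun p : HH => p ∈ ⨆ w, deg W w) p (fun p q hp hq => add_mem hp hq) ?_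
    intro i x
    refine Sh.induction (p := fun x => (monomial i x : HH) ∈ ⨆ w, deg W w) x ?_ ?_ ?_
    · rw [map_zero]; exact zero_mem _
    · intro f g hf hg
      rw [map_add]; exact add_mem hf hg
    · intro c w
      rw [← smul_monomial]
      exact Submodule.smul_mem _ _ (Submodule.mem_iSup_of_mem (W.e * i + W.wt w) (subset_span ⟨i, w, rfl, rfl⟩))
  zero := fun x hx => by
    refine Submodule.span_induction (p := fun x _ => ∃ c : ℚ, x = algebraMap ℚ HH c) ?_ ?_ ?_ ?_ hx
    · rintro _ ⟨i, u, h1, rfl⟩
      refine ⟨1, ?_⟩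
      have h2 : i = 0 := by
        rcases i with _ | i
        · rfl
        · have := W.epos
          rw [mul_add, mul_one] at h1
          omega
      have h3 : u = [] := by
        rcases u with _ | ⟨a, u⟩
        · rfl
        · rw [wt_cons] at h1
          have := W.pos a
          omega
      rw [h2, h3, map_one]
      rfl
    · exact ⟨0, by rw [map_zero]⟩
    · rintro x y _ _ ⟨c, rfl⟩ ⟨d, rfl⟩
      exact ⟨c + d, by rw [map_add]⟩
    · rintro a x _ ⟨c, rfl⟩
      exact ⟨a * c, by rw [map_mul, Algebra.smul_def]⟩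
  fin := fun w => by
    refine FiniteDimensional.span_of_finite ℚ ?_
    have h1 : {x : HH | ∃ (i : ℕ) (u : List ℕ), W.e * i + W.wt u = w ∧ x = monomial i (word u)} ⊆
        (fun p : ℕ × List ℕ => (monomial p.1 (word p.2) : HH)) '' (Set.Iic w ×ˢ {u : List ℕ | W.wt u ≤ w}) := by
      rintro _ ⟨i, u, h1, rfl⟩
      have h2 : i ≤ W.e * i := Nat.le_mul_of_pos_left i W.epos
      exact ⟨(i, u), ⟨by change i ≤ w; omega, by change W.wt u ≤ w; omega⟩, rfl⟩
    exact Set.Finite.subset (Set.Finite.image _ ((Set.finite_Iic w).prod (words_finite w))) h1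

theorem cut_deg (a : ℕ) : cut a ∈ Deg (deg W) (W.L a) := by
  intro w x hx
  refine Submodule.span_induction (p := fun x _ => (∀ v, v + W.L a = w → cut a x ∈ deg W v) ∧
    (w < W.L a → cut a x = 0)) ?_ ?_ ?_ ?_ hx
  · rintro _ ⟨i, u, h1, rfl⟩
    have h2 : cut a (monomial i (word u)) = monomial i (cutw a u) := by
      rw [cut, mapD_monomial, cutD_word]
    rw [h2]
    rcases u with _ | ⟨b, u⟩
    · rw [cutw, map_zero]
      exact ⟨fun _ _ => zero_mem _, fun _ => rfl⟩
    · rw [cutw]
      rw [wt_cons] at h1
      split_ifs with h3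
      · subst h3
        refine ⟨fun v hv => subset_span ⟨i, u, by omega, rfl⟩, fun h => by omega⟩
      · rw [map_zero]
        exact ⟨fun _ _ => zero_mem _, fun _ => rfl⟩
  · rw [map_zero]
    exact ⟨fun _ _ => zero_mem _, fun _ => rfl⟩
  · intro x y _ _ hx hy
    rw [map_add]
    exact ⟨fun v hv => add_mem (hx.1 v hv) (hy.1 v hv), fun h => by rw [hx.2 h, hy.2 h, add_zero]⟩
  · intro c x _ hx
    rw [Derivation.map_smul]
    exact ⟨fun v hv => Submodule.smul_mem _ _ (hx.1 v hv), fun h => by rw [hx.2 h, smul_zero]⟩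

theorem gr_Fl (W : Wt) : IsGr (deg W) Fl := by
  let K : LieSubalgebra ℚ (Derivation ℚ HH HH) :=
    { (up (deg W) Fl 1) with
      lie_mem' := fun {d y} hd hy => by
        exact up_anti (by omega) (lie_up_up (k := 1) (l := 1) hd hy) }
  have h1 : Fl ≤ K := by
    rw [Fl, LieSubalgebra.lieSpan_le]
    rintro _ ⟨a, rfl⟩
    exact le_up (show 1 ≤ W.L a from W.pos a) ⟨cut_mem_Fl a, cut_deg a⟩
  exact h1

theorem nondeg_Fl (W : Wt) : NonDeg (deg W) Fl := by
  intro k hk d hd h0
  obtain ⟨δ, rfl, hδ⟩ := Fl_struct hd.1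
  have key : ∀ n, ∀ u : List ℕ, W.wt u = n → δ (word u) = 0 := by
    intro n
    induction n using Nat.strong_induction_on with
    | _ n ih =>
      intro u hu
      have hm : (monomial 0 (word u) : HH) ∈ deg W n := subset_span ⟨0, u, by rw [hu]; omega, rfl⟩
      have e1 : mapD δ (monomial 0 (word u)) = 0 → δ (word u) = 0 := by
        intro h
        rw [mapD_monomial] at h
        have h1 := congrArg (fun p : HH => p.coeff 0) h
        simpa using h1
      rcases lt_trichotomy n k with h | h | h
      · exact e1 ((hd.2 n _ hm).2 h)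
      · subst h
        exact e1 (h0 _ hm)
      · have h1 := (hd.2 n _ hm).1 (n - k) (by omega)
        rw [mapD_monomial] at h1
        have h2 : ∀ p ∈ deg W (n - k), p.coeff 0 ∈ shDeg W (n - k) := by
          intro p hp
          refine Submodule.span_induction (p := fun p _ => p.coeff 0 ∈ shDeg W (n - k)) ?_ ?_ ?_ ?_ hp
          · rintro _ ⟨i, v, h1, rfl⟩
            rw [coeff_monomial]
            split_ifs with h3
            · exact subset_span ⟨v, by subst h3; omega, rfl⟩
            · exact zero_mem _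
          · rw [coeff_zero]; exact zero_mem _
          · intro x y _ _ hx hy
            rw [coeff_add]; exact add_mem hx hy
          · intro c x _ hx
            rw [coeff_smul]; exact Submodule.smul_mem _ _ hx
        have h3 := h2 _ h1
        rw [coeff_monomial, if_pos rfl] at h3
        refine Sh.ext_co fun v => ?_
        rw [map_zero]
        rcases List.eq_nil_or_concat v with rfl | ⟨v', b, rfl⟩
        · exact co_nil_of_mem (by omega) h3
        · rw [List.concat_eq_append, ← co_back, ← hδ, ext_word, backw]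
          split_ifs with h4
          · rcases List.eq_nil_or_concat u with rfl | ⟨u', c, rfl⟩
            · simp at h4
            · rw [List.concat_eq_append, wt_append] at hu
              rw [List.concat_eq_append, List.dropLast_concat, ih (W.wt u') (by
                have := W.pos c
                rw [wt_cons] at hu
                omega) u' rfl, map_zero]
          · rw [map_zero, map_zero]
  refine Derivation.ext fun p => ?_
  ext1
  rw [coeff_mapD, Derivation.zero_apply, coeff_zero]
  refine Sh.induction (p := fun x => δ x = 0) _ (map_zero _) (fun f g hf hg => by rw [map_add, hf, hg, add_zero]) ?_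
  intro c w
  rw [Derivation.map_smul, key _ w rfl, smul_zero]

/-- the elements killed by the whole Lie algebra form a finitely generated algebra -/
theorem inv_fg : (InvA Fl.toSubmodule).FG := by
  refine ⟨{X}, ?_⟩
  apply le_antisymm
  · rw [Algebra.adjoin_le_iff]
    intro x hx
    rw [Finset.coe_singleton, Set.mem_singleton_iff] at hx
    rw [hx]
    intro d hd
    obtain ⟨δ, rfl, -⟩ := Fl_struct hd
    change mapD δ (monomial 1 1) = 0
    rw [mapD_monomial, Derivation.map_one_eq_zero, map_zero]
  · intro x hx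
    obtain ⟨q, rfl⟩ := Inv_Fl hx
    rw [Finset.coe_singleton]
    have h1 : q.map (algebraMap ℚ Sh) = aeval (X : HH) q := by
      have h2 : Polynomial.mapAlgHom (Algebra.ofId ℚ Sh) = aeval (X : HH) := by
        refine Polynomial.algHom_ext ?_
        rw [aeval_X, coe_mapAlgHom, Polynomial.map_X]
      exact congrArg (fun f : ℚ[X] →ₐ[ℚ] HH => f q) h2
    rw [h1]
    exact aeval_mem_adjoin_singleton ℚ X

end Pool.Agent.H249.ML
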