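import Pool.Agent.H249.ML.Wr
import Pool.Agent.Q187.ZD.Padic

/-!
# Real relations and a second homomorphism
-/

set_option autoImplicit false

open Submodule Module Polynomial

namespace Pool.Agent.H249.ML.Pa

open Pool.Agent.H447R2.MZ (val Zs Adm)
open Pool.Agent.Q187.ZD.Padic (Sp Transfer pair)
open Pool.Agent.H249.ML.Two (H vari Der LieSub F)
open Pool.Agent.H249.ML.Wr (Lowers IsGradedSub Stable Generated dimLie)

/-- the element of an algebra given by a polynomial -/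
theorem sum_span {m : ℕ} {R : Type} [CommRing R] [Algebra ℚ R] (c : Fin m → ℚ) (y : Fin m → R) :
    MvPolynomial.aeval y (∑ i, MvPolynomial.C (c i) * MvPolynomial.X i) = ∑ i, c i • y i := by
  rw [map_sum]
  refine Finset.sum_congr rfl fun i _ => ?_
  rw [map_mul, MvPolynomial.aeval_C, MvPolynomial.aeval_X, Algebra.smul_def]

section

open Pool.Agent.H249.MZ

variable {mz : List ℕ → HH} (hm : ∀ n, Submodule.span ℚ {x | ∃ s, Adm s ∧ s.sum = n ∧ x = mz s} = ML.deg ML.WZ n)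

include hm

theorem span_all (x : HH) : x ∈ Submodule.span ℚ {x | ∃ s, Adm s ∧ x = mz s} := by
  have hx : x ∈ ⨆ w, ML.deg ML.WZ w := by
    rw [(ML.gr_deg ML.WZ).top]
    trivial
  have h1 : (⨆ w, ML.deg ML.WZ w) ≤ Submodule.span ℚ {x | ∃ s, Adm s ∧ x = mz s} := by
    refine iSup_le fun n => ?_
    rw [← hm n]
    refine Submodule.span_mono ?_
    rintro x ⟨s, h1, -, h2⟩
    exact ⟨s, h1, h2⟩
  exact h1 hx

theorem span_upTo (n : ℕ) : Submodule.span ℚ {x | ∃ s, Adm s ∧ s.sum ≤ n ∧ x = mz s} = ML.Fi (ML.deg ML.WZ) n := by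
  apply le_antisymm
  · rw [Submodule.span_le]
    rintro x ⟨s, h1, h2, rfl⟩
    refine ML.le_Fi h2 ?_
    rw [← hm s.sum]
    exact Submodule.subset_span ⟨s, h1, rfl, rfl⟩
  · refine iSup_le fun k => ?_
    rw [← hm k.1]
    refine Submodule.span_mono ?_
    rintro x ⟨s, h1, h2, h3⟩
    exact ⟨s, h1, h2.trans_le k.2, h3⟩

/-- the transfer of all relations in terms of the two homomorphisms -/
theorem transfer_iff {K : Type} [Field K] [Algebra ℚ K] {z : List ℕ → K} {per : HH →ₐ[ℚ] ℝ} {q : HH →ₐ[ℚ] K}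
    (h1 : ∀ s, Adm s → per (mz s) = val s) (h2 : ∀ s, Adm s → q (mz s) = z s) :
    Transfer z ↔ ∀ x, per x = 0 → q x = 0 := by
  constructor
  · intro h x hx
    obtain ⟨n, c, g, rfl⟩ := Submodule.mem_span_set'.mp (span_all hm x)
    choose s hs hg using fun i => (g i).2
    have h3 : MvPolynomial.aeval (fun i => val (s i)) (∑ i, MvPolynomial.C (c i) * MvPolynomial.X i) = (0 : ℝ) := by
      rw [sum_span, ← hx, map_sum]
      refine Finset.sum_congr rfl fun i _ => ?_
      rw [map_smul, hg i, h1 _ (hs i)]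
    have h4 := h n s hs _ h3
    rw [sum_span] at h4
    rw [← h4, map_sum]
    refine Finset.sum_congr rfl fun i _ => ?_
    rw [map_smul, hg i, h2 _ (hs i)]
  · intro h m s hs f hf
    have h3 := MvPolynomial.comp_aeval_apply (fun i => mz (s i)) per f
    have h4 := MvPolynomial.comp_aeval_apply (fun i => mz (s i)) q f
    have e1 : (fun i => per (mz (s i))) = fun i => val (s i) := funext fun i => h1 _ (hs i)
    have e2 : (fun i => q (mz (s i))) = fun i => z (s i) := funext fun i => h2 _ (hs i)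
    rw [e1] at h3
    rw [e2] at h4
    rw [← h4]
    exact h _ (by rw [h3, hf])

end

section

open Pool.Agent.H249.MZ

variable {R : Type} [CommRing R] [Algebra ℚ R]

theorem dmR {A : Type} [CommRing A] [Algebra ℚ A] {E : ℕ → Submodule ℚ A} (hE : Gr E) (q : A →ₐ[ℚ] R)
    (U : Submodule ℚ (Derivation ℚ A A)) (w : ℕ) :
    dm E (RingHom.ker q) U w = finrank ℚ ((MZ.Inv U ⊓ E w).map q.toLinearMap) := by
  have h0 := hE.fin w
  have hf : FiniteDimensional ℚ (MZ.Inv U ⊓ E w : Submodule ℚ A) := Submodule.finiteDimensional_of_le inf_le_right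
  have h1 := finrank_inf (RingHom.ker q) (MZ.Inv U ⊓ E w)
  have h2 := finrank_map_add q.toLinearMap (MZ.Inv U ⊓ E w)
  have h3 : LinearMap.ker q.toLinearMap = (RingHom.ker q).restrictScalars ℚ := by
    ext x
    rfl
  rw [h3] at h2
  unfold dm
  omega

/-- the formula for the number of the relations of `per` which fail for `q` -/
theorem fail_formula {W : ML.Wt} {K : Type} [Field K] [Algebra ℚ K] {per : HH →ₐ[ℚ] K} {q : HH →ₐ[ℚ] R}
    {S : LieSubalgebra ℚ (Derivation ℚ HH HH)} (hS : ML.IsGradedSub W S) (h1 : ∀ d ∈ S, ∀ x, per x = 0 → per (d x) = 0)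
    (h2 : ∀ d ∈ S, ∀ x, q x = 0 → q (d x) = 0) (n : ℕ) :
    (finrank ℚ ((ML.Fi (ML.deg W) n ⊓ LinearMap.ker per.toLinearMap).map q.toLinearMap) : ℚ) =
      PowerSeries.coeff n (PowerSeries.mk (fun w => (finrank ℚ ((MZ.Inv S.toSubmodule ⊓ ML.Fi (ML.deg W) w ⊓
        LinearMap.ker per.toLinearMap).map q.toLinearMap) : ℚ)) *
          (∏ k ∈ Finset.Icc 1 n, (1 - PowerSeries.X ^ k) ^ ML.dimLie W S k)⁻¹) := by
  have hgr : IsGr (ML.deg W) S := ML.isGr_iff.mpr hS.2
  have hnd : NonDeg (ML.deg W) S := fun k hk d hd => ML.nondeg_Fl W k hk d ⟨hS.1 hd.1, hd.2⟩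
  have hE := ML.gr_Fi (ML.gr_deg W)
  -- the dimension of the values of the relations as a difference
  have diff : ∀ (U : Submodule ℚ (Derivation ℚ HH HH)) (w : ℕ),
      (finrank ℚ ((MZ.Inv U ⊓ ML.Fi (ML.deg W) w ⊓ LinearMap.ker per.toLinearMap).map q.toLinearMap) : ℚ) =
        (dm (ML.Fi (ML.deg W)) (RingHom.ker per ⊓ RingHom.ker q) U w : ℚ) -
          dm (ML.Fi (ML.deg W)) (RingHom.ker per) U w := by
    intro U w
    obtain ⟨B, hB⟩ : ∃ B : Submodule ℚ HH, B = MZ.Inv U ⊓ ML.Fi (ML.deg W) w := ⟨_, rfl⟩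
    have h0 := hE.fin w
    have hf : FiniteDimensional ℚ B := by
      rw [hB]
      exact Submodule.finiteDimensional_of_le inf_le_right
    have e1 := finrank_inf (RingHom.ker per) B
    have e2 := finrank_inf (RingHom.ker per ⊓ RingHom.ker q) B
    have hf2 : FiniteDimensional ℚ (B ⊓ LinearMap.ker per.toLinearMap : Submodule ℚ HH) :=
      Submodule.finiteDimensional_of_le inf_le_left
    have e3 := finrank_map_add q.toLinearMap (B ⊓ LinearMap.ker per.toLinearMap)
    have e4 : (B ⊓ LinearMap.ker per.toLinearMap : Submodule ℚ HH) = B ⊓ (RingHom.ker per).restrictScalars ℚ := by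
      ext x
      rfl
    have e5 : (B ⊓ LinearMap.ker per.toLinearMap ⊓ LinearMap.ker q.toLinearMap : Submodule ℚ HH) =
        B ⊓ (RingHom.ker per ⊓ RingHom.ker q).restrictScalars ℚ := by
      ext x
      exact ⟨fun h => ⟨h.1.1, h.1.2, h.2⟩, fun h => ⟨⟨h.1, h.2.1⟩, h.2.2⟩⟩
    rw [e5] at e3
    rw [e4] at e3
    unfold dm
    rw [← hB]
    rw [e4]
    have e6 : (finrank ℚ ((B ⊓ (RingHom.ker per).restrictScalars ℚ : Submodule ℚ HH).map q.toLinearMap) : ℚ) +
        finrank ℚ (B ⊓ (RingHom.ker per ⊓ RingHom.ker q).restrictScalars ℚ : Submodule ℚ HH) =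
        finrank ℚ (B ⊓ (RingHom.ker per).restrictScalars ℚ : Submodule ℚ HH) := by exact_mod_cast e3
    have e7 : (finrank ℚ (B.map ((RingHom.ker per).restrictScalars ℚ).mkQ) : ℚ) +
        finrank ℚ (B ⊓ (RingHom.ker per).restrictScalars ℚ : Submodule ℚ HH) = finrank ℚ B := by exact_mod_cast e1
    have e8 : (finrank ℚ (B.map ((RingHom.ker per ⊓ RingHom.ker q).restrictScalars ℚ).mkQ) : ℚ) +
        finrank ℚ (B ⊓ (RingHom.ker per ⊓ RingHom.ker q).restrictScalars ℚ : Submodule ℚ HH) = finrank ℚ B := by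
      exact_mod_cast e2
    linarith
  have hb : ∀ w, (MZ.Inv ⊥ ⊓ ML.Fi (ML.deg W) w ⊓ LinearMap.ker per.toLinearMap : Submodule ℚ HH) =
      ML.Fi (ML.deg W) w ⊓ LinearMap.ker per.toLinearMap := fun w => by
    congr 1
    refine inf_eq_right.mpr fun x _ d hd => ?_
    rw [(Submodule.mem_bot ℚ).mp hd]
    rfl
  have f1 := ML.dmF_of_stable (ML.gr_deg W) hnd hgr (I := RingHom.ker per) (fun d hd x hx => h1 d hd x hx) n
  have f2 := ML.dmF_of_stable (ML.gr_deg W) hnd hgr (I := RingHom.ker per ⊓ RingHom.ker q)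
    (fun d hd x hx => ⟨h1 d hd x hx.1, h2 d hd x hx.2⟩) n
  have h3 := diff ⊥ n
  rw [hb] at h3
  rw [h3, f1, f2, ML.bdF, ML.bdF, ← map_sub, ← sub_mul]
  have h4 : HS (ML.Fi (ML.deg W)) (RingHom.ker per ⊓ RingHom.ker q) S.toSubmodule -
      HS (ML.Fi (ML.deg W)) (RingHom.ker per) S.toSubmodule =
      PowerSeries.mk (fun w => (finrank ℚ ((MZ.Inv S.toSubmodule ⊓ ML.Fi (ML.deg W) w ⊓
        LinearMap.ker per.toLinearMap).map q.toLinearMap) : ℚ)) := by
    ext w
    rw [map_sub, HS, HS, PowerSeries.coeff_mk, PowerSeries.coeff_mk, PowerSeries.coeff_mk, diff]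
  rw [h4]
  rfl

end

end Pool.Agent.H249.ML.Pa
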