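import Pool.Agent.H249.ML.Un
import Pool.Agent.Q187.ZD.MT

/-!
# Multiple zeta values: the total dimensions when all relations follow from finitely many
-/

set_option autoImplicit false
set_option linter.unusedSectionVars false

open Submodule Module Polynomial

namespace Pool.Agent.H249.ML

open Pool.Agent.H249.MZ
open Pool.Agent.Q187.ZD (IsZagier IsMotivic)

theorem indep_deg (W : Wt) : iSupIndep (deg W) := by
  intro n
  rw [disjoint_iff, eq_bot_iff]
  rintro x ⟨hx1, hx2⟩
  have key : ∀ p : ℕ × List ℕ, ∀ m, W.e * p.1 + W.wt p.2 ≠ m → ∀ y ∈ deg W m, cf p y = 0 := by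
    intro p m hp y hy
    refine Submodule.span_induction (p := fun y _ => cf p y = 0) ?_ (map_zero _) (fun a b _ _ ha hb => by
      rw [map_add, ha, hb, add_zero]) (fun c a _ ha => by rw [map_smul, ha, smul_zero]) hy
    rintro _ ⟨i, u, h1, rfl⟩
    rw [cf_monomial, if_neg]
    intro h8
    rw [← h8] at hp
    exact hp h1
  have hz : ∀ p : ℕ × List ℕ, cf p x = 0 := by
    intro p
    by_cases hp : W.e * p.1 + W.wt p.2 = n
    · refine Submodule.iSup_induction _ (motive := fun x : HH => cf p x = 0) hx2 (fun m y hy => ?_) (map_zero _)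
        fun a b ha hb => by rw [map_add, ha, hb, add_zero]
      refine Submodule.iSup_induction _ (motive := fun x : HH => cf p x = 0) hy (fun hm y hy => ?_) (map_zero _)
        fun a b ha hb => by rw [map_add, ha, hb, add_zero]
      exact key p m (fun h => hm (by rw [← h, hp])) y hy
    · exact key p n hp x hx1
  rw [Submodule.mem_bot]
  ext1 i
  refine Sh.ext_co fun u => ?_
  have h5 := hz (i, u)
  rw [coeff_zero, map_zero]
  exact h5

theorem prsZ_rec (n : ℕ) : (prs WZ (n + 3)).ncard = (prs WZ (n + 1)).ncard + (prs WZ n).ncard := by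
  have h := prs_rec (W := WZ) (n + 1)
  change (prs WZ (n + 3)).ncard = (prs WZ (n + 1)).ncard + (wds WZ (n + 3)).ncard at h
  rw [h]
  congr 1
  have h1 : wds WZ (n + 3) = (fun p : ℕ × List ℕ => p.1 :: p.2) '' prs WZ n := by
    ext u
    constructor
    · intro h
      have h' : WZ.wt u = n + 3 := h
      rcases u with _ | ⟨a, u⟩
      · rw [wt_nil] at h'
        omega
      · rw [wt_cons] at h'
        change 2 * a + 3 + WZ.wt u = n + 3 at h'
        exact ⟨(a, u), by change 2 * a + WZ.wt u = n; omega, rfl⟩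
    · rintro ⟨⟨a, v⟩, h, rfl⟩
      have h' : 2 * a + WZ.wt v = n := h
      change WZ.wt (a :: v) = n + 3
      rw [wt_cons]
      change 2 * a + 3 + WZ.wt v = n + 3
      omega
  rw [h1, Set.ncard_image_of_injective]
  rintro ⟨a, u⟩ ⟨b, v⟩ h
  obtain ⟨h2, h3⟩ := List.cons.inj h
  simp only at h2 h3
  rw [h2, h3]

theorem prsZ_small : (prs WZ 0).ncard = 1 ∧ (prs WZ 1).ncard = 0 ∧ (prs WZ 2).ncard = 1 := by
  have hz : ∀ n, 0 < n → n < 3 → wds WZ n = ∅ := by
    intro n h0 h1
    rw [Set.eq_empty_iff_forall_notMem]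
    intro u h
    have h' : WZ.wt u = n := h
    rcases u with _ | ⟨a, u⟩
    · rw [wt_nil] at h'
      omega
    · rw [wt_cons] at h'
      change 2 * a + 3 + WZ.wt u = n at h'
      omega
  refine ⟨?_, ?_, ?_⟩
  · rw [prs_lt (by change 0 < 2; omega), wds_zero]
  · rw [prs_lt (by change 1 < 2; omega), hz 1 (by omega) (by omega), Set.ncard_empty]
  · have h := prs_rec (W := WZ) 0
    change (prs WZ 2).ncard = (prs WZ 0).ncard + (wds WZ 2).ncard at h
    rw [h, prs_lt (by change 0 < 2; omega), wds_zero, hz 2 (by omega) (by omega), Set.ncard_empty]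

theorem isZagier_deg : IsZagier (fun n => finrank ℚ (deg WZ n)) := by
  refine ⟨?_, ?_, ?_, fun n => ?_⟩ <;> simp only [finrank_deg]
  · exact prsZ_small.1
  · exact prsZ_small.2.1
  · exact prsZ_small.2.2
  · exact prsZ_rec n

theorem zagier_unique {d d' : ℕ → ℕ} (h : IsZagier d) (h' : IsZagier d') (n : ℕ) : d n = d' n := by
  induction n using Nat.strong_induction_on with
  | _ n ih =>
    rcases n with _ | _ | _ | n
    · rw [h.1, h'.1]
    · rw [h.2.1, h'.2.1]
    · rw [h.2.2.1, h'.2.2.1]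
    · rw [h.2.2.2, h'.2.2.2, ih (n + 1) (by omega), ih n (by omega)]

theorem zagier_series {d : ℕ → ℕ} (h : IsZagier d) :
    (PowerSeries.mk (fun n => (d n : ℚ))) * (1 - PowerSeries.X ^ 2 - PowerSeries.X ^ 3) = 1 := by
  ext n
  rw [mul_sub, mul_sub, mul_one, map_sub, map_sub, PowerSeries.coeff_mul_X_pow', PowerSeries.coeff_mul_X_pow',
    PowerSeries.coeff_mk, PowerSeries.coeff_mk, PowerSeries.coeff_mk, PowerSeries.coeff_one]
  rcases n with _ | _ | _ | n
  · rw [if_neg (by omega), if_neg (by omega), if_pos rfl, h.1]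
    simp
  · rw [if_neg (by omega), if_neg (by omega), if_neg (by omega), h.2.1]
    simp
  · rw [if_pos (by omega), if_neg (by omega), if_neg (by omega), show 0 + 1 + 1 - 2 = 0 by omega, show 0 + 1 + 1 = 2 by omega,
      h.2.2.1, h.1]
    simp
  · rw [if_pos (by omega), if_pos (by omega), if_neg (by omega), show n + 1 + 1 + 1 - 2 = n + 1 by omega,
      show n + 1 + 1 + 1 - 3 = n by omega, show n + 1 + 1 + 1 = n + 3 by omega, h.2.2.2]
    push_cast
    ring

/-- integral solutions of the recurrence -/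
theorem zagier_repr {d : ℕ → ℕ} (hd : IsZagier d) : ∀ (n₀ : ℕ) (v : ℕ → ℤ), (∀ n, n₀ ≤ n → v (n + 3) = v (n + 1) + v n) →
    ∃ a b c : ℤ, ∀ n, n₀ ≤ n → v n = a * d n + b * d (n + 1) + c * d (n + 2) := by
  obtain ⟨h0, h1, h2, h3⟩ := hd
  have h4 : d 3 = 1 := by rw [h3 0, h1, h0]
  have h5 : d 4 = 1 := by rw [h3 1, h2, h1]
  intro n₀
  induction n₀ with
  | zero =>
    intro v h
    refine ⟨v 2 - v 1, v 2 - v 0, v 0 + v 1 - v 2, ?_⟩
    intro n _
    induction n using Nat.strong_induction_on with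
    | _ n ih =>
      rcases n with _ | _ | _ | n
      · simp only [zero_add]
        rw [h0, h1, h2]
        push_cast
        ring
      · rw [show 0 + 1 = 1 by omega, show 1 + 1 = 2 by omega, show 1 + 2 = 3 by omega, h1, h2, h4]
        push_cast
        ring
      · rw [show 0 + 1 + 1 = 2 by omega, show 2 + 1 = 3 by omega, show 2 + 2 = 4 by omega, h2, h4, h5]
        push_cast
        ring
      · have e3 : (d (n + 3) : ℤ) = d (n + 1) + d n := by exact_mod_cast h3 n
        have e4 : (d (n + 4) : ℤ) = d (n + 2) + d (n + 1) := by exact_mod_cast h3 (n + 1)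
        have e5 : (d (n + 5) : ℤ) = d (n + 3) + d (n + 2) := by exact_mod_cast h3 (n + 2)
        have i1 := ih (n + 1) (by omega) (by omega)
        have i0 := ih n (by omega) (by omega)
        have hh := h n (Nat.zero_le n)
        simp only [Nat.add_assoc, Nat.reduceAdd] at i1 i0 hh ⊢
        rw [hh, i1, i0, e3, e4, e5, e3]
        ring
  | succ n₀ ih =>
    intro v h
    obtain ⟨a, b, c, h6⟩ := ih (fun n => if n₀ + 1 ≤ n then v n else v (n₀ + 3) - v (n₀ + 1)) (fun n hn => by
      rcases hn.eq_or_lt with h2 | h2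
      · subst h2
        rw [if_pos (by omega), if_pos (by omega), if_neg (by omega)]
        ring
      · rw [if_pos (by omega), if_pos (by omega), if_pos (by omega)]
        exact h n h2)
    refine ⟨a, b, c, fun n hn => ?_⟩
    have h7 := h6 n (by omega)
    rwa [if_pos hn] at h7

theorem zagier_zero {d : ℕ → ℕ} (hd : IsZagier d) : ∀ (n₀ : ℕ) (a b c : ℤ),
    (∀ n, n₀ ≤ n → a * d n + b * d (n + 1) + c * d (n + 2) = 0) → a = 0 ∧ b = 0 ∧ c = 0 := by
  intro n₀ a b c
  have hd' := hd
  obtain ⟨h0, h1, h2, h3⟩ := hd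
  have h4 : d 3 = 1 := by rw [h3 0, h1, h0]
  have h5 : d 4 = 1 := by rw [h3 1, h2, h1]
  induction n₀ with
  | zero =>
    intro h
    have e0 := h 0 le_rfl
    have e1 := h 1 (by omega)
    have e2 := h 2 (by omega)
    simp only [zero_add] at e0
    rw [h0, h1, h2] at e0
    rw [show 1 + 1 = 2 by omega, show 1 + 2 = 3 by omega, h1, h2, h4] at e1
    rw [show 2 + 1 = 3 by omega, show 2 + 2 = 4 by omega, h2, h4, h5] at e2
    push_cast at e0 e1 e2
    omega
  | succ n₀ ih =>
    intro h
    refine ih fun n hn => ?_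
    rcases hn.eq_or_lt with h6 | h6
    · subst h6
      have e1 := h (n₀ + 1) (by omega)
      have e3 := h (n₀ + 3) (by omega)
      rw [show n₀ + 3 + 1 = n₀ + 1 + 3 by ring, show n₀ + 3 + 2 = n₀ + 2 + 3 by ring, h3, h3, h3] at e3
      push_cast at e1 e3
      rw [show n₀ + 1 + 1 = n₀ + 2 by ring, show n₀ + 1 + 2 = n₀ + 3 by ring, h3] at e1
      push_cast at e1
      rw [show n₀ + 2 + 1 = n₀ + 3 by ring, show n₀ + 1 + 1 = n₀ + 2 by ring, h3] at e3
      push_cast at e3
      linarith
    · exact h n h6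

end Pool.Agent.H249.ML
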