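import Pool.Agent.H249.ML.Ev
import Pool.Agent.H249.ML.Cnt
import Pool.Agent.H249.MZ.Main

/-!
# Multiple Clausen values and alternating multiple zeta values: the definitions
-/

set_option autoImplicit false

open Submodule Module Polynomial Filter Topology

namespace Pool.Agent.H249.ML.Two

/-- `part [(a_1, z_1), ..., (a_n, z_n)] m` is the sum of `∏ z_j ^ l_j / l_j ^ a_j` over `m > l_1 > ... > l_n ≥ 1`. -/
noncomputable def psum : List (ℕ × ℂ) → ℕ → ℂ
  | [], _ => 1
  | x :: l, m => ∑ j ∈ Finset.Ico 1 m, x.2 ^ j / (j : ℂ) ^ x.1 * psum l j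

/-- The multiple polylogarithm of the arguments `l` converges, with value `x`. -/
def IsLi (l : List (ℕ × ℂ)) (x : ℂ) : Prop := Tendsto (psum l) atTop (𝓝 x)

/-- `e^(πi/3)` -/
noncomputable def omega : ℂ := Complex.exp (Real.pi * Complex.I / 3)

/-- The span of the multiple Clausen values of weight `w`; in weight `0` of the number `1`. -/
noncomputable def clausen (w : ℕ) : Submodule ℚ ℂ :=
  Submodule.span ℚ {x | (w = 0 ∧ x = 1) ∨ ∃ (a : ℕ) (l : List ℕ), 1 ≤ a ∧ (∀ b ∈ l, 1 ≤ b) ∧ a + l.sum = w ∧
    IsLi ((a, omega) :: l.map fun b => (b, 1)) x}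

/-- The span of the alternating multiple zeta values of weight `w`; in weight `0` of the number `1`. -/
noncomputable def alternating (w : ℕ) : Submodule ℚ ℂ :=
  Submodule.span ℚ {x | (w = 0 ∧ x = 1) ∨ ∃ (y : ℕ × ℂ) (l : List (ℕ × ℂ)), (∀ b ∈ y :: l, 1 ≤ b.1 ∧ b.2 ^ 2 = 1) ∧
    y ≠ (1, 1) ∧ ((y :: l).map Prod.fst).sum = w ∧ IsLi (y :: l) x}

/-- The two families of spaces: `false` stands for the multiple Clausen values, `true` for the alternating multiple
zeta values. -/
noncomputable def Z : Bool → ℕ → Submodule ℚ ℂ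
  | false => clausen
  | true => alternating

/-- The weights: for the Clausen values the letter `a` stands for `f_(a+2)` and the variable for `2 π i` (weight `1`), for
the alternating values the letter `a` stands for `f_(2a+1)` and the variable for `π²` (weight `2`). -/
def W : Bool → ML.Wt
  | false => ML.WC
  | true => ML.WA

/-- The algebra `H`: polynomials in one variable over the shuffle algebra on the letters `0, 1, 2, ...`. -/
def H : Type := Pool.Agent.H249.MZ.HH

noncomputable instance instRing : CommRing H := Pool.Agent.H249.MZ.ringHH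
noncomputable instance instAlg : Algebra ℚ H := Pool.Agent.H249.MZ.algHH

/-- The variable, of weight `1` or `2`. -/
noncomputable def vari : H := (X : Pool.Agent.H249.MZ.HH)

/-- The part of weight `n` of `H`, spanned by the products of a power of the variable and a word, of total weight `n`. -/
noncomputable def part (b : Bool) (n : ℕ) : Submodule ℚ H := ML.deg (W b) n

/-- The derivations of `H`. -/
def Der : Type := Derivation ℚ Pool.Agent.H249.MZ.HH Pool.Agent.H249.MZ.HH

noncomputable instance instGroup : AddCommGroup Der := Pool.Agent.H249.MZ.dacg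
noncomputable instance instMod : Module ℚ Der := Pool.Agent.H249.MZ.dmod

/-- The value of a derivation. -/
noncomputable def Der.app (d : Der) (x : H) : H := Pool.Agent.H249.MZ.dapp d x

/-- The Lie algebras of derivations of `H`. -/
def LieSub : Type := LieSubalgebra ℚ (Derivation ℚ Pool.Agent.H249.MZ.HH Pool.Agent.H249.MZ.HH)

/-- `S` contains `d`. -/
def LieSub.Has (S : LieSub) (d : Der) : Prop := Pool.Agent.H249.MZ.lhas S d

instance instLE : LE LieSub := ⟨fun S T => ∀ d, S.Has d → T.Has d⟩

/-- The Lie algebra `F`, generated by the derivations `cut a` which remove the first letter of a word if it is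
`a`, and send all other words and the variable to zero. -/
noncomputable def F : LieSub := Pool.Agent.H249.MZ.Fl

/-- A surjective homomorphism of graded algebras from `H` to the algebra of the polynomials `∑ z_w X^w`, `z_w ∈ Z_w`,
which maps the variable to `2 π i` (in weight `1`), respectively `π²` (in weight `2`). -/
def IsPeriodMap (b : Bool) (ev : H →ₐ[ℚ] ℂ[X]) : Prop :=
  (∀ w, ∀ p : ℂ[X], (∃ x ∈ part b w, ev x = p) ↔ ∃ z ∈ Z b w, monomial w z = p) ∧
    ev vari = match b with
      | false => monomial 1 (2 * Real.pi * Complex.I)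
      | true => monomial 2 (Real.pi ^ 2)

/-- The derivation `d` has degree `k`: it lowers all weights by `k`. -/
def Lowers (b : Bool) (k : ℕ) (d : Der) : Prop :=
  ∀ w, ∀ x ∈ part b w, (∀ v, v + k = w → d.app x ∈ part b v) ∧ (w < k → d.app x = 0)

section

open Pool.Agent.H249.MZ

theorem period_iff {b : Bool} {ev : H →ₐ[ℚ] ℂ[X]} (h : IsPeriodMap b ev) : ML.IsMap (W b) (Z b) ev := by
  intro w
  ext p
  exact h.1 w p

theorem vari_ne {b : Bool} {ev : H →ₐ[ℚ] ℂ[X]} (h : IsPeriodMap b ev) :
    ∃ z : ℂ, z ≠ 0 ∧ ev (X : HH) = monomial (W b).e z := by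
  have h2 := h.2
  rcases b with _ | _
  · exact ⟨2 * Real.pi * Complex.I, Complex.two_pi_I_ne_zero, h2⟩
  · exact ⟨(Real.pi : ℂ) ^ 2, pow_ne_zero 2 (Complex.ofReal_ne_zero.mpr Real.pi_ne_zero), h2⟩

theorem dim_part (b : Bool) (n : ℕ) : finrank ℚ (ML.deg (W b) n) = Nat.fib (n + 1) := by
  rcases b with _ | _
  · exact ML.dimC n
  · exact (ML.dimA n).1

end

end Pool.Agent.H249.ML.Two
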