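import Pool.Agent.H249.ML.Tot
import Pool.Agent.H249.ML.Two
import Pool.Agent.H340R2.LW

/-!
# Real multiple zeta values: the definitions
-/

set_option autoImplicit false

open Submodule Module Polynomial

namespace Pool.Agent.H249.ML.Re

open Pool.Agent.H447R2.MZ (val Zs)
open Pool.Agent.Q187.ZD (IsZagier IsMotivic S)
open Pool.Agent.Q187.ZD.Hof (Brown IsBasis words isZagier)
open Pool.Agent.H249.ML.Two (H vari)

/-- The part of weight `n` of `H`, spanned by the products of a power of the variable (of weight `2`) and a word (the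
letter `a` has weight `2 a + 3`), of total weight `n`. -/
noncomputable def part (n : ℕ) : Submodule ℚ H := ML.deg ML.WZ n

/-- The word with the single letter `a`. -/
noncomputable def letter (a : ℕ) : H := (monomial 0 (MZ.word [a]) : MZ.HH)

/-- A homomorphism of algebras from `H` to the real numbers which maps the elements of weight `w` onto the space of the
multiple zeta values of weight `w`, for each `w`, the variable to `π²`, and the letter `a` to `ζ(2 a + 3)`. -/
def IsPeriodMap (per : H →ₐ[ℚ] ℝ) : Prop :=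
  (∀ w, ∀ z : ℝ, (∃ x ∈ part w, per x = z) ↔ z ∈ Zs w) ∧ per vari = Real.pi ^ 2 ∧
    ∀ a, per (letter a) = ∑' n : ℕ, 1 / ((n : ℝ) + 1) ^ (2 * a + 3)

section

open Pool.Agent.H249.MZ

theorem isPer {per : H →ₐ[ℚ] ℝ} (h : IsPeriodMap per) : ML.IsPer ML.WZ Zs per := by
  intro w
  ext z
  exact h.1 w z

theorem trans_sq {K : Type} [Field K] [Algebra ℚ K] {x : K} (h : Transcendental ℚ x) : Transcendental ℚ (x ^ 2) := by
  intro h2
  exact h (h2.of_pow (by norm_num))

theorem trans_vari {per : H →ₐ[ℚ] ℝ} (h : IsPeriodMap per) : Transcendental ℚ (per (X : HH)) := by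
  have h1 : per (X : HH) = Real.pi ^ 2 := h.2.1
  rw [h1]
  exact trans_sq Pool.Agent.H340R2.LW.transcendental_pi

theorem tot_eq {M : Type} [AddCommGroup M] [Module ℚ M] (Z : ℕ → Submodule ℚ M) (n : ℕ) :
    (⨆ k : {k : ℕ // k ≤ n}, Z k.1) = Pool.Agent.Q187.ZD.tot Z n := by
  apply le_antisymm
  · exact iSup_le fun k => Pool.Agent.Q187.ZD.le_tot Z k.2
  · rw [Pool.Agent.Q187.ZD.tot, Finset.sup_le_iff]
    intro k hk
    exact le_iSup (fun k : {k : ℕ // k ≤ n} => Z k.1) ⟨k, Nat.lt_succ_iff.mp (Finset.mem_range.mp hk)⟩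

theorem isMotivic {per : H →ₐ[ℚ] ℝ} (h : IsPeriodMap per) :
    IsMotivic (fun n => (words n).card) Zs (ML.deg ML.WZ) (per : HH →ₐ[ℚ] ℝ) where
  domain := by
    have h1 : NoZeroDivisors HH := ⟨fun {a b} hab => HH_dom a b hab⟩
    exact NoZeroDivisors.to_isDomain HH
  indep := ML.indep_deg ML.WZ
  mul i j x hx y hy := (ML.gr_deg ML.WZ).mul hx hy
  finite := (ML.gr_deg ML.WZ).fin
  dim j := ML.zagier_unique ML.isZagier_deg isZagier j
  period := isPer h

theorem exhaust (x : HH) : ∃ N, x ∈ Pool.Agent.Q187.ZD.tot (ML.deg ML.WZ) N := by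
  obtain ⟨n, hn⟩ := ML.mem_some (ML.gr_deg ML.WZ) x
  refine ⟨n, ?_⟩
  rw [← tot_eq]
  exact hn

theorem basis_iff' {per : HH →ₐ[ℚ] ℝ} (hm : IsMotivic (fun n => (words n).card) Zs (ML.deg ML.WZ) per) (hB : Brown)
    {d : ℕ → ℕ} (hd : IsZagier d) : IsBasis ↔ ∀ n, finrank ℚ (Pool.Agent.Q187.ZD.tot Zs n) = S d n := by
  have hS : ∀ n, S (fun n => (words n).card) n = S d n := fun n =>
    Finset.sum_congr rfl fun j _ => ML.zagier_unique isZagier hd j
  constructor
  · intro hb n
    rw [← hS]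
    exact Pool.Agent.Q187.ZD.MT.tot_of_inj hm (Pool.Agent.Q187.ZD.MT.inj_of_basis hm exhaust hb) n
  · intro ht
    exact Pool.Agent.Q187.ZD.MT.basis_of_inj hm hB
      (Pool.Agent.Q187.ZD.MT.inj_of_tot hm exhaust fun N => by rw [hS]; exact ht N)

/-- transcendence over a ring and over its field of fractions -/
theorem trans_adjoin {K : Type} [Field K] [Algebra ℚ K] {s : Set K} {x : K} (h : Transcendental (Algebra.adjoin ℚ s) x) :
    Transcendental (IntermediateField.adjoin ℚ s) x := by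
  open scoped IntermediateField.algebraAdjoinAdjoin in
  intro h2
  exact h ((IsFractionRing.isAlgebraic_iff (Algebra.adjoin ℚ s) (IntermediateField.adjoin ℚ s) K).mpr h2)

/-- values of the letters -/
theorem trans_letter {W : ML.Wt} {K : Type} [Field K] [Algebra ℚ K] {Z : ℕ → Submodule ℚ K} {per : HH →ₐ[ℚ] K}
    (hper : ML.IsPer W Z per) {a : ℕ} (ha : ∀ x, per x = 0 → per (cut a x) = 0) :
    Transcendental (IntermediateField.adjoin ℚ {z | ∃ j < W.L a, z ∈ Z j}) (per (monomial 0 (word [a]))) := by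
  apply trans_adjoin
  have h1 : cut a (monomial 0 (word [a])) = 1 := by
    rw [cut, mapD_monomial, cutD_word, cutw, if_pos rfl, ← one_def]
    rfl
  refine ML.trans_of_stable h1 ha fun z hz => ?_
  have h2 : Algebra.adjoin ℚ {z | ∃ j < W.L a, z ∈ Z j} ≤ (InvA (span ℚ {cut a})).map per := by
    rw [Algebra.adjoin_le_iff]
    rintro z ⟨j, hj, hz⟩
    rw [← hper j] at hz
    obtain ⟨x, hx, rfl⟩ := hz
    refine ⟨x, ?_, rfl⟩
    exact mem_Inv_span.mpr ((ML.cut_deg (W := W) a j x hx).2 hj)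
  obtain ⟨x, hx, hxz⟩ := h2 hz
  exact ⟨x, mem_Inv_span.mp hx, hxz⟩

/-- Hoffman's conjecture and the dimensions -/
theorem basis_iff {per : H →ₐ[ℚ] ℝ} (h : IsPeriodMap per) (hB : Brown) {d : ℕ → ℕ} (hd : IsZagier d) :
    IsBasis ↔ ∀ n, finrank ℚ (Pool.Agent.Q187.ZD.tot Zs n) = S d n := basis_iff' (isMotivic h) hB hd

end

end Pool.Agent.H249.ML.Re
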