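import Pool.Agent.H249.ML.HT

/-!
# Dimensions when all relations follow from finitely many
-/

set_option autoImplicit false
set_option linter.unusedSectionVars false

open Submodule Module Polynomial Filter Topology

namespace Pool.Agent.H249.ML

open Pool.Agent.H249.MZ

section

variable {W : Wt} {K : Type} [Field K] [Algebra ℚ K] {Z : ℕ → Submodule ℚ K} {ev : HH →ₐ[ℚ] K[X]} (hev : IsMap W Z ev)

include hev

theorem dim_add (n : ℕ) : finrank ℚ (Z n) + finrank ℚ (deg W n ⊓ LinearMap.ker ev.toLinearMap : Submodule ℚ HH) =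
    finrank ℚ (deg W n) := by
  have hf := (gr_deg W).fin n
  rw [dim_Z hev]
  exact finrank_map_add ev.toLinearMap (deg W n)

/-- one relation of weight `m` lowers all dimensions -/
theorem dim_drop {m n : ℕ} (hmn : m ≤ n) {x : HH} (hx : x ∈ deg W m) (hx0 : x ≠ 0) (hxe : ev x = 0) :
    finrank ℚ (Z n) + finrank ℚ (deg W (n - m)) ≤ finrank ℚ (deg W n) := by
  have hf := (gr_deg W).fin n
  have hf2 : FiniteDimensional ℚ (deg W n ⊓ LinearMap.ker ev.toLinearMap : Submodule ℚ HH) :=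
    Submodule.finiteDimensional_of_le inf_le_left
  rw [← dim_add hev n]
  refine Nat.add_le_add_left ?_ _
  have h1 : ∀ z : deg W (n - m), x * (z : HH) ∈ (deg W n ⊓ LinearMap.ker ev.toLinearMap : Submodule ℚ HH) := fun z => by
    refine ⟨?_, ?_⟩
    · have h2 := (gr_deg W).mul hx z.2
      rwa [Nat.add_sub_cancel' hmn] at h2
    · change ev (x * z) = 0
      rw [map_mul, hxe, zero_mul]
  let f : deg W (n - m) →ₗ[ℚ] (deg W n ⊓ LinearMap.ker ev.toLinearMap : Submodule ℚ HH) :=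
    LinearMap.codRestrict _ ((LinearMap.mulLeft ℚ x).comp (deg W (n - m)).subtype) h1
  refine LinearMap.finrank_le_finrank_of_injective (f := f) ?_
  rw [injective_iff_map_eq_zero]
  intro z hz
  have h3 : x * (z : HH) = 0 := congrArg Subtype.val hz
  exact Subtype.ext ((HH_dom _ _ h3).resolve_left hx0)

/-- if some dimension is not maximal, all are lowered -/
theorem dim_drop' {m : ℕ} (hm : finrank ℚ (Z m) ≠ finrank ℚ (deg W m)) (n : ℕ) (hmn : m ≤ n) :
    finrank ℚ (Z n) + finrank ℚ (deg W (n - m)) ≤ finrank ℚ (deg W n) := by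
  have hf := (gr_deg W).fin m
  have h1 : (deg W m ⊓ LinearMap.ker ev.toLinearMap : Submodule ℚ HH) ≠ ⊥ := fun h => by
    have h2 := dim_add hev m
    rw [h, finrank_bot] at h2
    exact hm h2
  obtain ⟨x, hx, hx0⟩ := Submodule.exists_mem_ne_zero_of_ne_bot h1
  exact dim_drop hev hmn hx.1 hx0 hx.2

/-- **Theorem.** -/
theorem dims_series (hfg : (RingHom.ker ev).FG) : ∃ p : Polynomial ℤ,
    PowerSeries.mk (fun n => (finrank ℚ (Z n) : ℚ)) =
      ((p.map (Int.castRingHom ℚ) : Polynomial ℚ) : PowerSeries ℚ) * PowerSeries.mk (fun n => (finrank ℚ (deg W n) : ℚ)) := by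
  obtain ⟨N, hN⟩ := (fg hev).mp hfg
  obtain ⟨p, hp⟩ := hs_full (gr_deg W) (nondeg_Fl W) (gr_Fl W) (phs_Fl W) hN
  refine ⟨p, ?_⟩
  have h1 : HS (deg W) (RingHom.ker ev) ⊥ = PowerSeries.mk (fun n => (finrank ℚ (Z n) : ℚ)) := by
    ext n
    rw [HS, PowerSeries.coeff_mk, PowerSeries.coeff_mk, dm_bot hev]
  have h2 : HS (deg W) (⊥ : Ideal HH) ⊥ = PowerSeries.mk (fun n => (finrank ℚ (deg W n) : ℚ)) := by
    ext n
    have hf := (gr_deg W).fin n
    have hb : (MZ.Inv ⊥ ⊓ deg W n : Submodule ℚ HH) = deg W n := inf_eq_right.mpr fun x _ d hd => by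
      rw [(Submodule.mem_bot ℚ).mp hd]
      rfl
    have h3 := finrank_inf (⊥ : Ideal HH) (deg W n)
    have h4 : (deg W n ⊓ (⊥ : Ideal HH).restrictScalars ℚ : Submodule ℚ HH) = ⊥ := by
      rw [eq_bot_iff]
      rintro x ⟨-, hx⟩
      exact hx
    rw [h4, finrank_bot, add_zero] at h3
    rw [HS, PowerSeries.coeff_mk, PowerSeries.coeff_mk, dm, hb, h3]
  rw [← h1, ← h2]
  exact hp

theorem series_poly {Q : PowerSeries ℚ} (hQ : PowerSeries.mk (fun n => (finrank ℚ (deg W n) : ℚ)) * Q = 1)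
    (hfg : (RingHom.ker ev).FG) : ∃ m, ∀ n, m < n →
      PowerSeries.coeff n (PowerSeries.mk (fun n => (finrank ℚ (Z n) : ℚ)) * Q) = 0 := by
  obtain ⟨p, hp⟩ := dims_series hev hfg
  refine ⟨(p.map (Int.castRingHom ℚ)).natDegree, fun n hn => ?_⟩
  rw [hp, mul_assoc, hQ, mul_one, Polynomial.coeff_coe]
  exact coeff_eq_zero_of_natDegree_lt hn

/-- the powers of the value of the variable -/
theorem dim_pos {z : K} (hz : z ≠ 0) (hX : ev X = monomial W.e z) (m : ℕ) : 0 < finrank ℚ (Z (W.e * m)) := by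
  have hf := (gr_deg W).fin (W.e * m)
  rw [dim_Z hev]
  refine Nat.pos_of_ne_zero fun h => ?_
  rw [Submodule.finrank_eq_zero] at h
  have h1 : (monomial m (word []) : HH) ∈ deg W (W.e * m) := subset_span ⟨m, [], by simp, rfl⟩
  have h2 : ev.toLinearMap (monomial m (word [])) ∈ (deg W (W.e * m)).map ev.toLinearMap := ⟨_, h1, rfl⟩
  rw [h, Submodule.mem_bot] at h2
  have h3 : (monomial m (word []) : HH) = X ^ m := by
    rw [← one_def, ← Polynomial.X_pow_eq_monomial]
  rw [h3] at h2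
  change ev (X ^ m) = 0 at h2
  rw [map_pow, hX, monomial_pow] at h2
  exact (pow_ne_zero m hz) ((monomial_eq_zero_iff _ _).mp h2)

end

/-! ### Fibonacci numbers -/

theorem fib_series : (PowerSeries.mk (fun n => (Nat.fib (n + 1) : ℚ))) * (1 - PowerSeries.X ^ 1 - PowerSeries.X ^ 2) = 1 := by
  ext n
  rw [mul_sub, mul_sub, mul_one, map_sub, map_sub, PowerSeries.coeff_mul_X_pow', PowerSeries.coeff_mul_X_pow',
    PowerSeries.coeff_mk, PowerSeries.coeff_mk, PowerSeries.coeff_mk, PowerSeries.coeff_one]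
  rcases n with _ | _ | n
  · simp
  · simp
  · rw [if_pos (by omega), if_pos (by omega), if_neg (by omega), show n + 1 + 1 - 1 + 1 = n + 2 by omega,
      show n + 1 + 1 - 2 + 1 = n + 1 by omega, show n + 1 + 1 + 1 = n + 1 + 2 by omega, Nat.fib_add_two]
    push_cast
    ring

theorem fib_ratio (k : ℕ) : Tendsto (fun n => (Nat.fib n / Nat.fib (n + k) : ℝ)) atTop (𝓝 ((-Real.goldenConj) ^ k)) := by
  induction k with
  | zero =>
    rw [pow_zero]
    refine tendsto_const_nhds.congr' ?_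
    filter_upwards [eventually_gt_atTop 0] with n hn
    rw [add_zero, div_self]
    exact Nat.cast_ne_zero.mpr (Nat.fib_pos.mpr hn).ne'
  | succ k ih =>
    have h1 := (tendsto_fib_div_fib_succ_atTop.comp (tendsto_add_atTop_nat k))
    have h2 := ih.mul h1
    rw [← pow_succ] at h2
    refine h2.congr' ?_
    filter_upwards [eventually_gt_atTop 0] with n hn
    have h3 : (Nat.fib (n + k) : ℝ) ≠ 0 := Nat.cast_ne_zero.mpr (Nat.fib_pos.mpr (by omega)).ne'
    simp only [Function.comp_apply]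
    rw [div_mul_div_cancel₀ h3]
    rfl

/-- sequences which satisfy the recurrence from some point on -/
theorem fib_limit {v : ℕ → ℕ} {n₀ : ℕ} (h : ∀ n, n₀ ≤ n → v (n + 2) = v (n + 1) + v n) (hpos : ∀ n, ∃ m, n ≤ m ∧ 0 < v m) :
    ∃ L : ℝ, 0 < L ∧ Tendsto (fun n => (v n : ℝ) / Nat.fib (n + 1)) atTop (𝓝 L) := by
  have h1 : ∀ m, v (n₀ + m + 1) = v n₀ * Nat.fib m + v (n₀ + 1) * Nat.fib (m + 1) ∧
      v (n₀ + m + 2) = v n₀ * Nat.fib (m + 1) + v (n₀ + 1) * Nat.fib (m + 2) := by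
    intro m
    induction m with
    | zero =>
      have h2 := h n₀ le_rfl
      constructor
      · simp
      · rw [add_zero, h2]
        simp
        ring
    | succ m ih =>
      refine ⟨?_, ?_⟩
      · rw [show n₀ + (m + 1) + 1 = n₀ + m + 2 by ring, ih.2]
      · rw [show n₀ + (m + 1) + 2 = n₀ + m + 1 + 2 by ring, h _ (by omega), show n₀ + m + 1 + 1 = n₀ + m + 2 by ring, ih.1, ih.2,
          Nat.fib_add_two (n := m + 1), Nat.fib_add_two (n := m)]
        ring
  have hc : 0 < -Real.goldenConj := by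
    have := Real.goldenConj_neg
    linarith
  refine ⟨v n₀ * (-Real.goldenConj) ^ (n₀ + 2) + v (n₀ + 1) * (-Real.goldenConj) ^ (n₀ + 1), ?_, ?_⟩
  · rcases Nat.eq_zero_or_pos (v n₀) with h2 | h2
    · rcases Nat.eq_zero_or_pos (v (n₀ + 1)) with h3 | h3
      · exfalso
        obtain ⟨m, hm, hm'⟩ := hpos (n₀ + 1)
        obtain ⟨j, rfl⟩ := Nat.exists_eq_add_of_le hm
        have h4 := (h1 j).1
        rw [h2, h3, zero_mul, zero_mul, add_zero, show n₀ + j + 1 = n₀ + 1 + j by ring] at h4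
        omega
      · have h4 : (0 : ℝ) < v (n₀ + 1) := Nat.cast_pos.mpr h3
        positivity
    · have h4 : (0 : ℝ) < v n₀ := Nat.cast_pos.mpr h2
      positivity
  · rw [← tendsto_add_atTop_iff_nat (n₀ + 1)]
    have h5 := ((fib_ratio (n₀ + 2)).const_mul (v n₀ : ℝ)).add
      (((fib_ratio (n₀ + 1)).comp (tendsto_add_atTop_nat 1)).const_mul (v (n₀ + 1) : ℝ))
    refine h5.congr fun m => ?_
    have h6 := (h1 m).1
    simp only [Function.comp_apply]
    rw [show m + (n₀ + 1) = n₀ + m + 1 by ring, h6, show n₀ + m + 1 + 1 = m + (n₀ + 2) by ring,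
      show m + 1 + (n₀ + 1) = m + (n₀ + 2) by ring]
    push_cast
    ring

/-- integral solutions of the recurrence -/
theorem fib_repr : ∀ (n₀ : ℕ) (v : ℕ → ℤ), (∀ n, n₀ ≤ n → v (n + 2) = v (n + 1) + v n) →
    ∃ a c : ℤ, ∀ n, n₀ ≤ n → v n = a * Nat.fib (n + 1) + c * Nat.fib n := by
  intro n₀
  induction n₀ with
  | zero =>
    intro v h
    refine ⟨v 0, v 1 - v 0, ?_⟩
    have h1 : ∀ n, v n = v 0 * Nat.fib (n + 1) + (v 1 - v 0) * Nat.fib n ∧
        v (n + 1) = v 0 * Nat.fib (n + 2) + (v 1 - v 0) * Nat.fib (n + 1) := by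
      intro n
      induction n with
      | zero => constructor <;> simp
      | succ n ih =>
        refine ⟨ih.2, ?_⟩
        have h2 : (Nat.fib (n + 3) : ℤ) = Nat.fib (n + 1) + Nat.fib (n + 2) := by
          rw [Nat.fib_add_two (n := n + 1)]
          push_cast
          ring
        have h3 : (Nat.fib (n + 2) : ℤ) = Nat.fib n + Nat.fib (n + 1) := by
          rw [Nat.fib_add_two (n := n)]
          push_cast
          ring
        rw [show n + 1 + 1 = n + 2 by ring, h n (Nat.zero_le n), ih.1, ih.2, show n + 1 + 2 = n + 3 by ring, h2, h3]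
        ring
    exact fun n _ => (h1 n).1
  | succ n₀ ih =>
    intro v h
    obtain ⟨a, c, h1⟩ := ih (fun n => if n₀ + 1 ≤ n then v n else v (n₀ + 2) - v (n₀ + 1)) (fun n hn => by
      rcases hn.eq_or_lt with h2 | h2
      · subst h2
        rw [if_pos (by omega), if_pos (by omega), if_neg (by omega)]
        ring
      · rw [if_pos (by omega), if_pos (by omega), if_pos (by omega)]
        exact h n h2)
    refine ⟨a, c, fun n hn => ?_⟩
    have h2 := h1 n (by omega)
    rwa [if_pos hn] at h2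

section

variable {W : Wt} (hW : ∀ n, finrank ℚ (deg W n) = Nat.fib (n + 1)) {K : Type} [Field K] [Algebra ℚ K] {Z : ℕ → Submodule ℚ K}
  {ev : HH →ₐ[ℚ] K[X]} (hev : IsMap W Z ev) {z : K} (hz : z ≠ 0) (hX : ev X = monomial W.e z) (hfg : (RingHom.ker ev).FG)

include hW hev hfg

theorem fib_rec : ∃ n₀, ∀ n, n₀ ≤ n → finrank ℚ (Z (n + 2)) = finrank ℚ (Z (n + 1)) + finrank ℚ (Z n) := by
  have h1 : PowerSeries.mk (fun n => (finrank ℚ (deg W n) : ℚ)) * (1 - PowerSeries.X ^ 1 - PowerSeries.X ^ 2) = 1 := by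
    have h0 : PowerSeries.mk (fun n => (finrank ℚ (deg W n) : ℚ)) = PowerSeries.mk (fun n => (Nat.fib (n + 1) : ℚ)) := by
      ext n
      rw [PowerSeries.coeff_mk, PowerSeries.coeff_mk, hW]
    rw [h0, fib_series]
  obtain ⟨m, hm⟩ := series_poly hev h1 hfg
  refine ⟨m, fun n hn => ?_⟩
  have h2 := hm (n + 2) (by omega)
  rw [mul_sub, mul_sub, mul_one, map_sub, map_sub, PowerSeries.coeff_mul_X_pow', PowerSeries.coeff_mul_X_pow',
    PowerSeries.coeff_mk, PowerSeries.coeff_mk, PowerSeries.coeff_mk, if_pos (by omega), if_pos (by omega),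
    show n + 2 - 1 = n + 1 by omega, show n + 2 - 2 = n by omega] at h2
  have h3 : (finrank ℚ (Z (n + 2)) : ℚ) = ((finrank ℚ (Z (n + 1)) + finrank ℚ (Z n) : ℕ) : ℚ) := by
    push_cast
    linarith
  exact_mod_cast h3

include hz hX

theorem fib_final : ∃ L : ℝ, 0 < L ∧ L ≤ 1 ∧ Tendsto (fun n => (finrank ℚ (Z n) : ℝ) / Nat.fib (n + 1)) atTop (𝓝 L) ∧
    (L = 1 ↔ ∀ n, finrank ℚ (Z n) = Nat.fib (n + 1)) := by
  obtain ⟨n₀, h0⟩ := fib_rec hW hev hfg
  obtain ⟨L, h1, h2⟩ := fib_limit (v := fun n => finrank ℚ (Z n)) h0 (fun n => ⟨W.e * n, Nat.le_mul_of_pos_left n W.epos, dim_pos hev hz hX n⟩)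
  have hfp : ∀ n, (0 : ℝ) < Nat.fib (n + 1) := fun n => Nat.cast_pos.mpr (Nat.fib_pos.mpr (by omega))
  have hle : L ≤ 1 := by
    refine le_of_tendsto h2 (Eventually.of_forall fun n => ?_)
    rw [div_le_one (hfp n)]
    have h3 := dim_add hev n
    rw [hW] at h3
    exact_mod_cast (show finrank ℚ (Z n) ≤ Nat.fib (n + 1) by omega)
  refine ⟨L, h1, hle, h2, ?_, ?_⟩
  · intro hL
    by_contra hcon
    push Not at hcon
    obtain ⟨m, hm⟩ := hcon
    rw [← hW] at hm
    have h3 : ∀ n, m ≤ n → finrank ℚ (Z n) + Nat.fib (n - m + 1) ≤ Nat.fib (n + 1) := by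
      intro n hn
      have h4 := dim_drop' hev hm n hn
      rwa [hW, hW] at h4
    have h5 := ((fib_ratio m).comp (tendsto_add_atTop_nat 1))
    have h6 := ((tendsto_add_atTop_iff_nat m).mpr h2).add h5
    have h7 : L + (-Real.goldenConj) ^ m ≤ 1 := by
      refine le_of_tendsto h6 (Eventually.of_forall fun n => ?_)
      simp only [Function.comp_apply]
      rw [show n + 1 + m = n + m + 1 by ring, ← add_div, div_le_one (hfp _)]
      have h8 := h3 (n + m) (by omega)
      rw [show n + m - m + 1 = n + 1 by omega] at h8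
      exact_mod_cast h8
    have hc : 0 < (-Real.goldenConj) ^ m := pow_pos (by
      have := Real.goldenConj_neg
      linarith) m
    linarith
  · intro h
    refine tendsto_nhds_unique h2 (tendsto_const_nhds.congr fun n => ?_)
    rw [h, div_self (hfp n).ne']

/-- **Theorem.** -/
theorem fib_closed : ∃ a c : ℤ, (∃ n₀, ∀ n, n₀ ≤ n → (finrank ℚ (Z n) : ℤ) = a * Nat.fib (n + 1) + c * Nat.fib n) ∧
    0 < a + c / Real.goldenRatio ∧ a + c / Real.goldenRatio ≤ 1 ∧
    Tendsto (fun n => (finrank ℚ (Z n) : ℝ) / Nat.fib (n + 1)) atTop (𝓝 (a + c / Real.goldenRatio)) ∧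
    ((∀ n, finrank ℚ (Z n) = Nat.fib (n + 1)) ↔ a = 1 ∧ c = 0) := by
  obtain ⟨n₀, h0⟩ := fib_rec hW hev hfg
  obtain ⟨a, c, h1⟩ := fib_repr n₀ (fun n => (finrank ℚ (Z n) : ℤ)) (fun n hn => by
    exact_mod_cast h0 n hn)
  obtain ⟨L, h2, h3, h4, h5⟩ := fib_final hW hev hz hX hfg
  have h6 : Tendsto (fun n => (finrank ℚ (Z n) : ℝ) / Nat.fib (n + 1)) atTop (𝓝 (a + c / Real.goldenRatio)) := by
    have h7 := (tendsto_fib_div_fib_succ_atTop.const_mul (c : ℝ)).const_add (a : ℝ)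
    rw [div_eq_mul_inv, Real.inv_goldenRatio]
    refine h7.congr' ?_
    filter_upwards [eventually_ge_atTop n₀] with n hn
    have h8 : (finrank ℚ (Z n) : ℝ) = a * Nat.fib (n + 1) + c * Nat.fib n := by
      have h9 := h1 n hn
      exact_mod_cast h9
    have h10 : (Nat.fib (n + 1) : ℝ) ≠ 0 := Nat.cast_ne_zero.mpr (Nat.fib_pos.mpr (by omega)).ne'
    rw [h8, add_div, mul_div_assoc, div_self h10, mul_one, mul_div_assoc]
  have h7 : L = a + c / Real.goldenRatio := tendsto_nhds_unique h4 h6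
  rw [h7] at h2 h3 h5
  refine ⟨a, c, ⟨n₀, h1⟩, h2, h3, h6, ?_⟩
  rw [← h5]
  constructor
  · intro h8
    have hc : c = 0 := by
      by_contra hc
      have h9 : (c : ℝ) ≠ 0 := Int.cast_ne_zero.mpr hc
      have h10 : Real.goldenRatio⁻¹ = (((1 - a : ℤ) : ℚ) / (c : ℚ) : ℚ) := by
        push_cast
        rw [eq_div_iff h9]
        rw [div_eq_mul_inv] at h8
        linarith
      exact (irrational_inv_iff.mpr Real.goldenRatio_irrational).ne_rat _ h10
    rw [hc, Int.cast_zero, zero_div, add_zero] at h8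
    exact ⟨by exact_mod_cast h8, hc⟩
  · rintro ⟨rfl, rfl⟩
    simp

end

end Pool.Agent.H249.ML
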