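import Pool.Agent.H249.ML.Pad

/-!
# Multiple zeta values: the total dimensions when all relations follow from finitely many
-/

set_option autoImplicit false
set_option linter.unusedSectionVars false

open Submodule Module Polynomial

namespace Pool.Agent.H249.ML

open Pool.Agent.H249.MZ
open Pool.Agent.Q187.ZD (IsZagier IsMotivic)

section

variable {W : Wt} {K : Type} [Field K] [Algebra ℚ K] {Z : ℕ → Submodule ℚ K} {per : HH →ₐ[ℚ] K} (hper : IsPer W Z per)

include hper

theorem fin_tot (n : ℕ) : FiniteDimensional ℚ (tot Z n) := by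
  have h1 := (gr_Fi (gr_deg W)).fin n
  rw [← map_Fi hper]
  infer_instance

omit hper in
theorem tot_mono' {m n : ℕ} (h : m ≤ n) : tot Z m ≤ tot Z n :=
  iSup_le fun k => le_iSup (fun k : {k : ℕ // k ≤ n} => Z k.1) ⟨k.1, k.2.trans h⟩

theorem D_mono {m n : ℕ} (h : m ≤ n) : finrank ℚ (tot Z m) ≤ finrank ℚ (tot Z n) := by
  have := fin_tot hper n
  exact Submodule.finrank_mono (tot_mono' h)

theorem D_le (n : ℕ) : finrank ℚ (tot Z n) ≤ finrank ℚ (Fi (deg W) n) := by
  have h1 := (gr_Fi (gr_deg W)).fin n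
  rw [← map_Fi hper]
  exact Submodule.finrank_map_le _ _

theorem pow_mem_tot {i m : ℕ} (h : i ≤ m) : (per X) ^ i ∈ tot Z (W.e * m) := by
  rw [← map_Fi hper]
  refine ⟨monomial i (word []), le_Fi (Nat.mul_le_mul_left W.e h) (subset_span ⟨i, [], by simp, rfl⟩), ?_⟩
  have h3 : (monomial i (word []) : HH) = X ^ i := by
    rw [← one_def, ← Polynomial.X_pow_eq_monomial]
  rw [h3]
  exact map_pow per X i

theorem D_unbounded (hX : Transcendental ℚ (per X)) (m : ℕ) : m + 1 ≤ finrank ℚ (tot Z (W.e * m)) := by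
  have hf := fin_tot hper (W.e * m)
  have h1 : LinearIndependent ℚ (fun i : Fin (m + 1) => (per X) ^ (i : ℕ)) := by
    rw [Fintype.linearIndependent_iff]
    intro g hg i
    by_contra hi
    refine hX ⟨∑ i : Fin (m + 1), Polynomial.C (g i) * Polynomial.X ^ (i : ℕ), fun h0 => hi ?_, ?_⟩
    · have h2 := congrArg (fun p : ℚ[X] => p.coeff (i : ℕ)) h0
      simp only [Polynomial.finsetSum_coeff, Polynomial.coeff_C_mul, Polynomial.coeff_X_pow, Polynomial.coeff_zero] at h2
      rw [Finset.sum_eq_single i] at h2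
      · simpa using h2
      · intro j _ hj
        rw [if_neg (fun h => hj (Fin.ext h.symm)), mul_zero]
      · exact fun h => absurd (Finset.mem_univ i) h
    · rw [map_sum, ← hg]
      refine Finset.sum_congr rfl fun j _ => ?_
      rw [map_mul, map_pow, aeval_X, aeval_C, Algebra.smul_def]
  have h2 : LinearIndependent ℚ (fun i : Fin (m + 1) => (⟨(per X) ^ (i : ℕ), pow_mem_tot hper (Nat.lt_succ_iff.mp i.2)⟩ :
      tot Z (W.e * m))) := by
    refine LinearIndependent.of_comp (tot Z (W.e * m)).subtype ?_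
    exact h1
  have h3 := h2.fintype_card_le_finrank
  rwa [Fintype.card_fin] at h3

end

section zagier

variable {K : Type} [Field K] [Algebra ℚ K] {Z : ℕ → Submodule ℚ K} {per : HH →ₐ[ℚ] K} (hper : IsPer WZ Z per)

include hper

theorem D_rec (hfg : (RingHom.ker per).FG) : ∃ n₀, ∀ n, n₀ ≤ n →
    ((finrank ℚ (tot Z (n + 4)) : ℤ) - finrank ℚ (tot Z (n + 3))) =
      (finrank ℚ (tot Z (n + 2)) - finrank ℚ (tot Z (n + 1))) + (finrank ℚ (tot Z (n + 1)) - finrank ℚ (tot Z n)) := by
  obtain ⟨p, hp⟩ := tot_series hper hfg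
  have hz := zagier_series isZagier_deg
  obtain ⟨E, hE⟩ : ∃ E, E = PowerSeries.mk (fun n => (finrank ℚ (tot Z n) : ℚ)) * (1 - PowerSeries.X ^ 1) := ⟨_, rfl⟩
  have hE1 : ∀ n, PowerSeries.coeff (n + 1) E = (finrank ℚ (tot Z (n + 1)) : ℚ) - finrank ℚ (tot Z n) := by
    intro n
    rw [hE, mul_sub, mul_one, map_sub, PowerSeries.coeff_mul_X_pow', PowerSeries.coeff_mk, if_pos (by omega),
      PowerSeries.coeff_mk, Nat.add_sub_cancel]
  have h1 : E * (1 - PowerSeries.X ^ 2 - PowerSeries.X ^ 3) = ((p.map (Int.castRingHom ℚ) : Polynomial ℚ) : PowerSeries ℚ) := by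
    rw [hE, hp, mul_assoc, hz, mul_one]
  refine ⟨(p.map (Int.castRingHom ℚ)).natDegree, fun n hn => ?_⟩
  have h2 := congrArg (PowerSeries.coeff (R := ℚ) (n + 4)) h1
  rw [Polynomial.coeff_coe, coeff_eq_zero_of_natDegree_lt (by omega), mul_sub, mul_sub, mul_one, map_sub, map_sub,
    PowerSeries.coeff_mul_X_pow', PowerSeries.coeff_mul_X_pow', if_pos (by omega), if_pos (by omega),
    show n + 4 - 2 = n + 1 + 1 by omega, show n + 4 - 3 = n + 1 by omega, show n + 4 = n + 3 + 1 by omega, hE1, hE1, hE1] at h2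
  have h3 : (((finrank ℚ (tot Z (n + 4)) : ℤ) - finrank ℚ (tot Z (n + 3)) : ℤ) : ℚ) =
      (((finrank ℚ (tot Z (n + 2)) - finrank ℚ (tot Z (n + 1))) + (finrank ℚ (tot Z (n + 1)) - finrank ℚ (tot Z n)) : ℤ) : ℚ) := by
    push_cast
    rw [show n + 4 = n + 3 + 1 by ring, show n + 2 = n + 1 + 1 by ring]
    linarith
  exact_mod_cast h3

/-- the numbers of the conjecture -/
theorem Fi_eq_S {d : ℕ → ℕ} (hd : IsZagier d) (n : ℕ) : finrank ℚ (Fi (deg WZ) n) = Pool.Agent.Q187.ZD.S d n := by
  induction n with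
  | zero =>
    rw [Fi_zero, Pool.Agent.Q187.ZD.S]
    simp only [zero_add, Finset.sum_range_one]
    exact zagier_unique isZagier_deg hd 0
  | succ n ih =>
    rw [finrank_Fi_succ, ih, Pool.Agent.Q187.ZD.S, Pool.Agent.Q187.ZD.S, Finset.sum_range_succ _ (n + 1)]
    congr 1
    exact zagier_unique isZagier_deg hd (n + 1)

/-- **Theorem.** -/
theorem D_final {d : ℕ → ℕ} (hd : IsZagier d) (hX : Transcendental ℚ (per X)) (hfg : (RingHom.ker per).FG) :
    ∃ a b c : ℤ, (∃ n₀, ∀ n, n₀ ≤ n → (finrank ℚ (tot Z (n + 1)) : ℤ) - finrank ℚ (tot Z n) =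
        a * d (n + 1) + b * d (n + 2) + c * d (n + 3)) ∧
      (∃ M : ℕ, ∀ n, Pool.Agent.Q187.ZD.S d n ≤ 2 ^ M * finrank ℚ (tot Z n)) ∧
      ((∀ n, finrank ℚ (tot Z n) = Pool.Agent.Q187.ZD.S d n) ↔ a = 1 ∧ b = 0 ∧ c = 0) := by
  obtain ⟨n₀, h0⟩ := D_rec hper hfg
  obtain ⟨v, hv⟩ : ∃ v : ℕ → ℤ, v = fun n => (finrank ℚ (tot Z n) : ℤ) - finrank ℚ (tot Z (n - 1)) := ⟨_, rfl⟩
  have hv1 : ∀ n, v (n + 1) = (finrank ℚ (tot Z (n + 1)) : ℤ) - finrank ℚ (tot Z n) := fun n => by
    rw [hv]
    rfl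
  have hvrec : ∀ n, n₀ + 1 ≤ n → v (n + 3) = v (n + 1) + v n := by
    intro n hn
    obtain ⟨m, rfl⟩ : ∃ m, n = m + 1 := ⟨n - 1, by omega⟩
    rw [show m + 1 + 3 = m + 3 + 1 by ring, hv1, hv1, hv1]
    exact h0 m (by omega)
  have hvnn : ∀ n, 0 ≤ v n := by
    intro n
    rw [hv]
    have := D_mono hper (Nat.sub_le n 1)
    simp only
    omega
  obtain ⟨a, b, c, habc⟩ := zagier_repr hd (n₀ + 1) v hvrec
  refine ⟨a, b, c, ⟨n₀ + 1, fun n hn => ?_⟩, ?_, ?_⟩
  · rw [← hv1]
    exact habc (n + 1) (by omega)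
  · -- positive proportion
    have hex : ∃ m, n₀ + 2 ≤ m ∧ 1 ≤ v m := by
      by_contra hcon
      push Not at hcon
      have h1 : ∀ m, finrank ℚ (tot Z (n₀ + 1 + m)) ≤ finrank ℚ (tot Z (n₀ + 1)) := by
        intro m
        induction m with
        | zero => exact le_rfl
        | succ m ih =>
          have h2 := hcon (n₀ + 1 + m + 1) (by omega)
          rw [hv1] at h2
          rw [show n₀ + 1 + (m + 1) = n₀ + 1 + m + 1 by ring]
          omega
      have h2 := D_unbounded hper hX (finrank ℚ (tot Z (n₀ + 1)))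
      have h3 := h1 (WZ.e * finrank ℚ (tot Z (n₀ + 1)))
      have h4 := D_mono hper (show WZ.e * finrank ℚ (tot Z (n₀ + 1)) ≤ n₀ + 1 + WZ.e * finrank ℚ (tot Z (n₀ + 1)) by omega)
      omega
    obtain ⟨m, hm, hvm⟩ := hex
    have h2 : 1 ≤ v (m + 2) := by
      have h3 := hvrec (m - 1) (by omega)
      rw [show m - 1 + 3 = m + 2 by omega, show m - 1 + 1 = m by omega] at h3
      have := hvnn (m - 1)
      omega
    have h3 : 1 ≤ v (m + 3) := by
      have h3 := hvrec m (by omega)
      have := hvnn (m + 1)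
      omega
    have h4 : 1 ≤ v (m + 4) := by
      have h3 := hvrec (m + 1) (by omega)
      rw [show m + 1 + 3 = m + 4 by ring, show m + 1 + 1 = m + 2 by ring] at h3
      have := hvnn (m + 1)
      omega
    have h5 : ∀ j, (d j : ℤ) ≤ v (m + 2 + j) := by
      obtain ⟨e0, e1, e2, e3⟩ := hd
      intro j
      induction j using Nat.strong_induction_on with
      | _ j ih =>
        rcases j with _ | _ | _ | j
        · rw [e0]; exact_mod_cast h2
        · rw [show 0 + 1 = 1 by rfl, e1]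
          push_cast
          exact hvnn _
        · rw [show 0 + 1 + 1 = 2 by rfl, e2]; exact_mod_cast h4
        · have i1 := ih (j + 1) (by omega)
          have i0 := ih j (by omega)
          have hh := hvrec (m + 2 + j) (by omega)
          rw [show m + 2 + (j + 1 + 1 + 1) = m + 2 + j + 3 by ring, hh, show j + 1 + 1 + 1 = j + 3 by ring, e3]
          rw [show m + 2 + (j + 1) = m + 2 + j + 1 by ring] at i1
          push_cast
          omega
    have h6 : ∀ j, (Pool.Agent.Q187.ZD.S d j : ℤ) ≤ finrank ℚ (tot Z (m + 2 + j)) := by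
      intro j
      induction j with
      | zero =>
        have e1 := h5 0
        rw [show m + 2 + 0 = m + 1 + 1 by ring, hv1] at e1
        rw [Pool.Agent.Q187.ZD.S]
        simp only [zero_add, Finset.sum_range_one]
        rw [show m + 2 + 0 = m + 1 + 1 by ring]
        omega
      | succ j ih =>
        have e1 := h5 (j + 1)
        rw [show m + 2 + (j + 1) = m + 2 + j + 1 by ring, hv1] at e1
        rw [Pool.Agent.Q187.ZD.S, Finset.sum_range_succ]
        rw [Pool.Agent.Q187.ZD.S] at ih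
        rw [show m + 2 + (j + 1) = m + 2 + j + 1 by ring]
        push_cast at ih ⊢
        omega
    have hone : ∀ n, 1 ≤ finrank ℚ (tot Z n) := by
      intro n
      have e1 := D_unbounded hper hX 0
      rw [mul_zero] at e1
      exact e1.trans (D_mono hper (Nat.zero_le n))
    refine ⟨m + 2, fun n => ?_⟩
    rcases lt_or_ge n (m + 2) with h7 | h7
    · have e1 := Pool.Agent.Q187.ZD.S_pow hd 0 n
      rw [zero_add] at e1
      have e2 : Pool.Agent.Q187.ZD.S d 0 = 1 := by
        rw [Pool.Agent.Q187.ZD.S]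
        simp only [zero_add, Finset.sum_range_one]
        exact hd.1
      rw [e2, mul_one] at e1
      calc Pool.Agent.Q187.ZD.S d n ≤ 2 ^ n := e1
        _ ≤ 2 ^ (m + 2) := Nat.pow_le_pow_right (by omega) h7.le
        _ = 2 ^ (m + 2) * 1 := (mul_one _).symm
        _ ≤ _ := Nat.mul_le_mul_left _ (hone n)
    · obtain ⟨j, rfl⟩ := Nat.exists_eq_add_of_le h7
      have e1 := Pool.Agent.Q187.ZD.S_pow hd j (m + 2)
      rw [add_comm (m + 2) j]
      refine e1.trans (Nat.mul_le_mul_left _ ?_)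
      rw [add_comm j (m + 2)]
      exact_mod_cast h6 j
  · constructor
    · intro h
      have h1 := zagier_zero hd (n₀ + 1) (a - 1) b c (fun n hn => by
        obtain ⟨k, rfl⟩ : ∃ k, n = k + 1 := ⟨n - 1, by omega⟩
        have h2 := habc (k + 1) hn
        rw [hv1, h, h, Pool.Agent.Q187.ZD.S, Pool.Agent.Q187.ZD.S, Finset.sum_range_succ _ (k + 1)] at h2
        push_cast at h2
        linarith)
      exact ⟨by omega, h1.2.1, h1.2.2⟩
    · rintro ⟨rfl, rfl, rfl⟩
      -- the difference of the totals is eventually constant, while one relation makes it unbounded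
      have h1 : ∀ k, (Pool.Agent.Q187.ZD.S d (n₀ + 1 + k) : ℤ) - finrank ℚ (tot Z (n₀ + 1 + k)) =
          Pool.Agent.Q187.ZD.S d (n₀ + 1) - finrank ℚ (tot Z (n₀ + 1)) := by
        intro k
        induction k with
        | zero => rfl
        | succ k ih =>
          have h2 := habc (n₀ + 1 + k + 1) (by omega)
          rw [hv1] at h2
          rw [← ih, show n₀ + 1 + (k + 1) = n₀ + 1 + k + 1 by ring, Pool.Agent.Q187.ZD.S, Finset.sum_range_succ,
            Pool.Agent.Q187.ZD.S]
          push_cast at h2 ⊢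
          linarith
      intro n
      by_contra hne
      have hlt : finrank ℚ (tot Z n) < finrank ℚ (Fi (deg WZ) n) := by
        have e1 := D_le hper n
        rw [Fi_eq_S hper hd] at e1 ⊢
        omega
      -- a relation
      have hfd := (gr_Fi (gr_deg WZ)).fin n
      have e2 := finrank_map_add per.toLinearMap (Fi (deg WZ) n)
      rw [map_Fi hper] at e2
      have e3 : (Fi (deg WZ) n ⊓ LinearMap.ker per.toLinearMap : Submodule ℚ HH) ≠ ⊥ := fun h => by
        rw [h, finrank_bot] at e2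
        omega
      obtain ⟨x, hx, hx0⟩ := Submodule.exists_mem_ne_zero_of_ne_bot e3
      have drop : ∀ N, n ≤ N → finrank ℚ (tot Z N) + finrank ℚ (Fi (deg WZ) (N - n)) ≤ finrank ℚ (Fi (deg WZ) N) := by
        intro N hN
        have hf := (gr_Fi (gr_deg WZ)).fin N
        have hf2 : FiniteDimensional ℚ (Fi (deg WZ) N ⊓ LinearMap.ker per.toLinearMap : Submodule ℚ HH) :=
          Submodule.finiteDimensional_of_le inf_le_left
        have e4 := finrank_map_add per.toLinearMap (Fi (deg WZ) N)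
        rw [map_Fi hper] at e4
        rw [← e4]
        refine Nat.add_le_add_left ?_ _
        have h1 : ∀ z : Fi (deg WZ) (N - n), x * (z : HH) ∈ (Fi (deg WZ) N ⊓ LinearMap.ker per.toLinearMap : Submodule ℚ HH) :=
            fun z => by
          refine ⟨?_, ?_⟩
          · have h2 := (gr_Fi (gr_deg WZ)).mul hx.1 z.2
            rwa [Nat.add_sub_cancel' hN] at h2
          · change per (x * z) = 0
            have h5 : per x = 0 := hx.2
            rw [map_mul, h5, zero_mul]
        let f : Fi (deg WZ) (N - n) →ₗ[ℚ] (Fi (deg WZ) N ⊓ LinearMap.ker per.toLinearMap : Submodule ℚ HH) :=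
          LinearMap.codRestrict _ ((LinearMap.mulLeft ℚ x).comp (Fi (deg WZ) (N - n)).subtype) h1
        refine LinearMap.finrank_le_finrank_of_injective (f := f) ?_
        rw [injective_iff_map_eq_zero]
        intro z hz
        have h3 : x * (z : HH) = 0 := congrArg Subtype.val hz
        exact Subtype.ext ((HH_dom _ _ h3).resolve_left hx0)
      obtain ⟨C, hC⟩ : ∃ C : ℕ, C = Pool.Agent.Q187.ZD.S d (n₀ + 1) := ⟨_, rfl⟩
      obtain ⟨N, hN⟩ : ∃ N : ℕ, N = n₀ + 1 + (n + WZ.e * C) := ⟨_, rfl⟩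
      have e5 := drop N (by omega)
      have e6 := h1 (n + WZ.e * C)
      rw [← hN] at e6
      rw [Fi_eq_S hper hd] at e5
      have e7 : C + 1 ≤ finrank ℚ (Fi (deg WZ) (N - n)) := by
        have e8 := D_unbounded hper hX C
        have e9 := D_le hper (WZ.e * C)
        have hff := (gr_Fi (gr_deg WZ)).fin (N - n)
        have e10 : finrank ℚ (Fi (deg WZ) (WZ.e * C)) ≤ finrank ℚ (Fi (deg WZ) (N - n)) :=
          Submodule.finrank_mono (Fi_mono (by omega))
        omega
      rw [Fi_eq_S hper hd] at e5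
      rw [Fi_eq_S hper hd] at e7
      omega

end zagier

end Pool.Agent.H249.ML
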