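import Pool.Agent.H249.ML.Rec

/-!
# Arbitrary (not necessarily homogeneous) ideals
-/

set_option autoImplicit false
set_option linter.unusedSectionVars false

open Submodule Module

namespace Pool.Agent.H249.ML

open Pool.Agent.H249.MZ

section general

variable {A : Type} [CommRing A] [Algebra ℚ A] {G : ℕ → Submodule ℚ A}

/-- the ideal generated by the elements of `I` which are killed by `W` -/
def genI (I : Ideal A) (W : Submodule ℚ (Derivation ℚ A A)) : Ideal A := Ideal.span {x | x ∈ I ∧ x ∈ MZ.Inv W}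

theorem genI_le (I : Ideal A) (W : Submodule ℚ (Derivation ℚ A A)) : genI I W ≤ I := Ideal.span_le.mpr fun _ hx => hx.1

theorem genI_stable (I : Ideal A) (W : Submodule ℚ (Derivation ℚ A A)) : ∀ d ∈ W, ∀ x ∈ genI I W, d x ∈ genI I W := by
  intro d hd x hx
  refine stable_of_kill (I := genI I W) (T := {x | x ∈ I ∧ x ∈ MZ.Inv W}) le_rfl (fun x hx => Ideal.subset_span hx)
    (fun x hx => hx.2 d hd) x hx

section step

variable {I : Ideal A} {W : Submodule ℚ (Derivation ℚ A A)} {y : Derivation ℚ A A} {s : A} {k : ℕ}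
  (st : Step G W y s k)

include st

theorem genI_step_mem (hI : ∀ x ∈ I, y x ∈ I) : ∀ (N : ℕ) (x : A), x ∈ I → x ∈ MZ.Inv W → (y)^[N] x = 0 →
    x ∈ genI I (W ⊔ span ℚ {y}) := by
  intro N
  induction N with
  | zero =>
    intro x _ _ h0
    rw [show x = 0 from h0]
    exact zero_mem _
  | succ N ih =>
    intro x hxI hxW h0
    have hye : y ((y)^[N] x) = 0 := by rwa [Function.iterate_succ_apply'] at h0
    obtain ⟨e, he⟩ : ∃ e, e = (y)^[N] x := ⟨_, rfl⟩
    have heI : e ∈ I := by rw [he]; exact iter_mem hI N hxI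
    have heW : e ∈ MZ.Inv W := by rw [he]; exact iter_mem st.Wy N hxW
    rw [← he] at hye
    have hcI : cc s e N ∈ I := by
      unfold cc
      rw [Algebra.smul_def]
      exact I.mul_mem_left _ (I.mul_mem_left _ heI)
    have hcW : cc s e N ∈ MZ.Inv W := Submodule.smul_mem _ _ (Inv_mul (Inv_pow st.Ws N) heW)
    have h3 := ih (x - cc s e N) (sub_mem hxI hcI) (sub_mem hxW hcW) (by
      rw [iterate_map_sub, iter_cc st.ys hye, ← he, sub_self])
    have h4 : cc s e N ∈ genI I (W ⊔ span ℚ {y}) := by
      unfold cc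
      rw [Algebra.smul_def]
      exact Ideal.mul_mem_left _ _ (Ideal.mul_mem_left _ _ (Ideal.subset_span
        ⟨heI, mem_Inv_sup.mpr ⟨heW, mem_Inv_span.mpr hye⟩⟩))
    have h5 := add_mem h3 h4
    rwa [sub_add_cancel] at h5

theorem genI_step (hG : Gr G) (hI : ∀ x ∈ I, y x ∈ I) : genI I W ≤ genI I (W ⊔ span ℚ {y}) := by
  refine Ideal.span_le.mpr ?_
  rintro x ⟨h1, h2⟩
  obtain ⟨N, hN⟩ := nilp hG st.pos st.hy x
  exact genI_step_mem st hI N x h1 h2 hN

end step

variable [Nontrivial A] (hG : Gr G) {S : LieSubalgebra ℚ (Derivation ℚ A A)} (hN : NonDeg G S) {I : Ideal A}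

include hG hN

theorem genI_level {k : ℕ} (hk : 0 < k) (hI : ∀ d ∈ S, ∀ x ∈ I, d x ∈ I) :
    genI I (up G S (k + 1)) ≤ genI I (up G S k) := by
  have hf := fin_deg hG hN hk
  obtain ⟨b, h1, h2, h3⟩ := exists_chain (S.toSubmodule ⊓ Deg G k : Submodule ℚ (Derivation ℚ A A))
  have key : ∀ j ≤ rk G S k, genI I (up G S (k + 1)) ≤ genI I (up G S (k + 1) ⊔ span ℚ (b '' Set.Iio j)) := by
    intro j
    induction j with
    | zero =>
      intro _
      have h4 : span ℚ (b '' Set.Iio 0) = ⊥ := by simp
      rw [h4, sup_bot_eq]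
    | succ j ih =>
      intro hj
      have hU : span ℚ (b '' Set.Iio j) ≤ S.toSubmodule ⊓ Deg G k := by
        rw [Submodule.span_le]
        rintro _ ⟨i, hi, rfl⟩
        have hi' : i < j := hi
        exact h1 i (by
          change i < rk G S k
          omega)
      have hy : b j ∈ S.toSubmodule ⊓ Deg G k := h1 j hj
      obtain ⟨s, st⟩ := exists_step hG hN hk hU hy (h2 j hj)
      rw [span_Iio_succ, ← sup_assoc]
      exact (ih (by omega)).trans (genI_step st hG (hI (b j) hy.1))
  have h5 : up G S (k + 1) ⊔ span ℚ (b '' Set.Iio (rk G S k)) = up G S k := by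
    rw [up_succ S k]
    congr 1
  have h4 := key _ le_rfl
  rwa [h5] at h4

theorem genI_chain (hI : ∀ d ∈ S, ∀ x ∈ I, d x ∈ I) (n : ℕ) : genI I (up G S (n + 1)) ≤ genI I (up G S 1) := by
  induction n with
  | zero => exact le_rfl
  | succ n ih => exact (genI_level hG hN (Nat.succ_pos n) hI).trans ih

/-- **Theorem.** An arbitrary ideal is stable under `S` if and only if it is generated by elements killed by `S`. -/
theorem stable_iff_genI (hS : IsGr G S) : (∀ d ∈ S, ∀ x ∈ I, d x ∈ I) ↔ I ≤ genI I S.toSubmodule := by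
  constructor
  · intro hst x hx
    obtain ⟨n, hn⟩ := exists_kill hG S x
    have h1 : x ∈ genI I (up G S (n + 1)) := Ideal.subset_span ⟨hx, hn⟩
    have h2 := genI_chain hG hN hst n h1
    rwa [up_one hS] at h2
  · intro h d hd x hx
    exact genI_le I _ (genI_stable I S.toSubmodule d hd x (h hx))

/-- **Theorem.** Finitely generated ideals. -/
theorem fg_iff' (hS : IsGr G S) (hfg : (InvA S.toSubmodule).FG) :
    I.FG ↔ ∃ N, ∀ k, N < k → ∀ d ∈ S.toSubmodule ⊓ Deg G k, ∀ x ∈ I, d x ∈ I := by
  constructor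
  · rintro ⟨t, ht⟩
    obtain ⟨N, hN'⟩ := exists_kill_finset hG S t
    refine ⟨N, fun k hk d hd => stable_of_kill (T := t) ht.ge (fun x hx => ?_) fun x hx => ?_⟩
    · rw [← ht]
      exact Ideal.subset_span hx
    · exact hN' x hx d (le_up (by omega) hd)
  · rintro ⟨N, h⟩
    have hst : ∀ d ∈ tail G S N, ∀ x ∈ I, d x ∈ I := by
      intro d hd x hx
      refine Submodule.iSup_induction _ (motive := fun d : Derivation ℚ A A => d x ∈ I) hd ?_ (zero_mem _) ?_
      · rintro ⟨j, hj⟩ d hd
        exact h j hj d hd x hx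
      · intro a b ha hb
        rw [Derivation.add_apply]
        exact add_mem ha hb
    have hnd : NonDeg G (tail G S N) := fun k hk d hd => hN k hk d ⟨tail_le S N hd.1, hd.2⟩
    have h1 := (stable_iff_genI hG hnd (tail_gr S N)).mp hst
    have h2 : ∀ n, (InvA (up G S (n + 1))).FG := by
      intro n
      induction n with
      | zero => rwa [up_one hS]
      | succ n ih => exact level_fg hG hN (Nat.succ_pos n) ih
    obtain ⟨B, hB⟩ : ∃ B, B = InvA (up G S (N + 1)) := ⟨_, rfl⟩
    have hBfg := h2 N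
    rw [← hB] at hBfg
    have h3 : Algebra.FiniteType ℚ B := B.fg_iff_finiteType.mp hBfg
    have h4 : IsNoetherianRing B := Algebra.FiniteType.isNoetherianRing ℚ B
    have h5 : (I.comap B.val).FG := h4.noetherian _
    have h6 : I = (I.comap B.val).map B.val := by
      apply le_antisymm
      · refine h1.trans (Ideal.span_le.mpr ?_)
        rintro x ⟨hx1, hx2⟩
        have hx3 : x ∈ B := by
          rw [hB]
          exact hx2
        exact Ideal.mem_map_of_mem B.val (x := (⟨x, hx3⟩ : B)) hx1
      · exact Ideal.map_comap_le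
    rw [h6]
    exact h5.map _

end general

/-! ### derivations and transcendence -/

section trans

variable {A : Type} [CommRing A] [Algebra ℚ A] {K : Type} [Field K] [Algebra ℚ K] {per : A →ₐ[ℚ] K}

theorem iter_pow_lt {d : Derivation ℚ A A} {s : A} (hs : d s = 1) : ∀ n i : ℕ, i < n → (d)^[n] (s ^ i) = 0 := by
  intro n
  induction n with
  | zero => intro i hi; omega
  | succ n ih =>
    intro i hi
    rw [Function.iterate_succ_apply]
    rcases i with _ | i
    · rw [pow_zero, Derivation.map_one_eq_zero, iter_zero]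
    · rw [Derivation.leibniz_pow, hs, Nat.add_sub_cancel, smul_eq_mul, mul_one, nsmul_eq_mul]
      have h1 : (((i + 1 : ℕ) : A) * s ^ i) = (((i + 1 : ℕ) : ℚ)) • s ^ i := by
        rw [Algebra.smul_def, map_natCast]
      rw [h1, iter_smul, ih i (by omega), smul_zero]

theorem iter_pow_eq {d : Derivation ℚ A A} {s : A} (hs : d s = 1) : ∀ n : ℕ, (d)^[n] (s ^ n) = ((n.factorial : ℕ) : A) := by
  intro n
  induction n with
  | zero => simp
  | succ n ih =>
    rw [Function.iterate_succ_apply, Derivation.leibniz_pow, hs, Nat.add_sub_cancel, smul_eq_mul, mul_one, nsmul_eq_mul]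
    have h1 : (((n + 1 : ℕ) : A) * s ^ n) = (((n + 1 : ℕ) : ℚ)) • s ^ n := by
      rw [Algebra.smul_def, map_natCast]
    rw [h1, iter_smul, ih, Nat.factorial_succ, Algebra.smul_def, map_natCast]
    push_cast
    ring

/-- **Theorem.** If the derivation `d` preserves the relations and `d s = 1`, then the value of `s` is transcendental over
the field generated by the values of the elements killed by `d`. -/
theorem trans_of_stable {d : Derivation ℚ A A} {s : A} (hs : d s = 1) (hd : ∀ x, per x = 0 → per (d x) = 0)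
    {R : Subalgebra ℚ K} (hR : ∀ z ∈ R, ∃ x, d x = 0 ∧ per x = z) : Transcendental R (per s) := by
  rintro ⟨P, hP0, hP⟩
  obtain ⟨n, hn⟩ : ∃ n, n = P.natDegree := ⟨_, rfl⟩
  choose f hf1 hf2 using fun i : ℕ => hR (P.coeff i : K) (P.coeff i).2
  obtain ⟨x, hx⟩ : ∃ x, x = ∑ i ∈ Finset.range (n + 1), f i * s ^ i := ⟨_, rfl⟩
  have h1 : per x = 0 := by
    rw [hx, map_sum, ← hP, Polynomial.aeval_eq_sum_range, ← hn]
    refine Finset.sum_congr rfl fun i _ => ?_
    rw [map_mul, map_pow, hf2]
    rfl
  have h2 : ∀ m, per ((d)^[m] x) = 0 := by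
    intro m
    induction m with
    | zero => exact h1
    | succ m ih =>
      rw [Function.iterate_succ_apply']
      exact hd _ ih
  have h3 : (d)^[n] x = f n * ((n.factorial : ℕ) : A) := by
    have h4 : ∀ t : Finset ℕ, (d)^[n] (∑ i ∈ t, f i * s ^ i) = ∑ i ∈ t, (d)^[n] (f i * s ^ i) := by
      intro t
      classical
      induction t using Finset.induction_on with
      | empty => simp [iter_zero]
      | insert a t ha ih => rw [Finset.sum_insert ha, Finset.sum_insert ha, iter_add, ih]
    rw [hx, h4, Finset.sum_range_succ, Finset.sum_eq_zero, zero_add, iter_const (hf1 n), iter_pow_eq hs]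
    intro i hi
    rw [iter_const (hf1 i), iter_pow_lt hs n i (Finset.mem_range.mp hi), mul_zero]
  have h5 := h2 n
  rw [h3, map_mul, hf2, map_natCast] at h5
  have h6 : ((n.factorial : ℕ) : K) ≠ 0 := by
    have : CharZero K := algebraRat.charZero K
    exact Nat.cast_ne_zero.mpr n.factorial_ne_zero
  have h7 : (P.coeff n : K) = 0 := (mul_eq_zero.mp h5).resolve_right h6
  have h8 : P.coeff n = 0 := Subtype.ext h7
  rw [hn] at h8
  exact hP0 (Polynomial.leadingCoeff_eq_zero.mp h8)

end trans

end Pool.Agent.H249.ML
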