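import Pool.Agent.H249.ML.Fi

/-!
# Homomorphisms to a field: the structure of the kernel
-/

set_option autoImplicit false
set_option linter.unusedSectionVars false

open Submodule Module Polynomial

namespace Pool.Agent.H249.ML

open Pool.Agent.H249.MZ

section general

variable {A : Type} [CommRing A] [Algebra ℚ A] {G : ℕ → Submodule ℚ A} {K : Type} [Field K] [Algebra ℚ K]

/-- the largest graded Lie subalgebra of `T` -/
def core (G : ℕ → Submodule ℚ A) (T : LieSubalgebra ℚ (Derivation ℚ A A)) : LieSubalgebra ℚ (Derivation ℚ A A) :=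
  { (up G T 1) with
    lie_mem' := fun {d y} hd hy => up_anti (by omega) (lie_up_up (k := 1) (l := 1) hd hy) }

theorem core_le (T : LieSubalgebra ℚ (Derivation ℚ A A)) : core G T ≤ T := up_le T 1

theorem core_gr (T : LieSubalgebra ℚ (Derivation ℚ A A)) : IsGr G (core G T) := by
  refine iSup_le fun j => ?_
  refine le_trans ?_ (le_up (G := G) (S := core G T) (k := 1) (j := j.1) j.2)
  exact le_inf (le_up j.2) inf_le_right

theorem le_core {S T : LieSubalgebra ℚ (Derivation ℚ A A)} (hS : IsGr G S) : S ≤ core G T ↔ S ≤ T := by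
  constructor
  · exact fun h => h.trans (core_le T)
  · intro h d hd
    have h1 : up G S 1 ≤ up G T 1 := iSup_mono fun j => inf_le_inf_right _ h
    exact h1 (hS hd)

/-- the elements of `F` which preserve the kernel -/
def stabU (F : LieSubalgebra ℚ (Derivation ℚ A A)) (per : A →ₐ[ℚ] K) : LieSubalgebra ℚ (Derivation ℚ A A) where
  carrier := {d | d ∈ F ∧ ∀ x, per x = 0 → per (d x) = 0}
  add_mem' := fun {d d'} h h' => ⟨add_mem h.1 h'.1, fun x hx => by
    rw [Derivation.add_apply, map_add, h.2 x hx, h'.2 x hx, add_zero]⟩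
  zero_mem' := ⟨zero_mem _, fun x _ => by rw [Derivation.zero_apply, map_zero]⟩
  smul_mem' := fun c d h => ⟨F.smul_mem c h.1, fun x hx => by
    rw [Derivation.smul_apply]
    have h1 : per (c • d x) = c • per (d x) := map_smul per c (d x)
    rw [h1, h.2 x hx, Algebra.smul_def, mul_zero]⟩
  lie_mem' := fun {d d'} h h' => ⟨F.lie_mem h.1 h'.1, fun x hx => by
    rw [Derivation.commutator_apply, map_sub, h.2 _ (h'.2 x hx), h'.2 _ (h.2 x hx), sub_zero]⟩

theorem dmU {E : ℕ → Submodule ℚ A} (hE : Gr E) (per : A →ₐ[ℚ] K) (U : Submodule ℚ (Derivation ℚ A A)) (w : ℕ) :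
    dm E (RingHom.ker per) U w = finrank ℚ ((MZ.Inv U ⊓ E w).map per.toLinearMap) := by
  have h0 := hE.fin w
  have hf : FiniteDimensional ℚ (MZ.Inv U ⊓ E w : Submodule ℚ A) := Submodule.finiteDimensional_of_le inf_le_right
  have h1 := finrank_inf (RingHom.ker per) (MZ.Inv U ⊓ E w)
  have h2 := finrank_map_add per.toLinearMap (MZ.Inv U ⊓ E w)
  have h3 : LinearMap.ker per.toLinearMap = (RingHom.ker per).restrictScalars ℚ := by
    ext x
    rfl
  rw [h3] at h2
  unfold dm
  omega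

end general

section

variable (W : Wt) {K : Type} [Field K] [Algebra ℚ K] (Z : ℕ → Submodule ℚ K)

/-- the spaces of the values of the elements of weight at most `n` -/
def tot (n : ℕ) : Submodule ℚ K := ⨆ k : {k : ℕ // k ≤ n}, Z k.1

/-- A homomorphism which maps the elements of weight `n` onto `Z n`. -/
def IsPer (per : HH →ₐ[ℚ] K) : Prop := ∀ n, (deg W n).map per.toLinearMap = Z n

/-- The ideal of the relations is generated by relations which are killed by `S`. -/
def GenU (per : HH →ₐ[ℚ] K) (S : LieSubalgebra ℚ (Derivation ℚ HH HH)) : Prop :=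
  ∀ x, per x = 0 → x ∈ Ideal.span {y | per y = 0 ∧ ∀ d ∈ S, d y = 0}

/-- The relations are preserved by `S`. -/
def StU (per : HH →ₐ[ℚ] K) (S : LieSubalgebra ℚ (Derivation ℚ HH HH)) : Prop := ∀ d ∈ S, ∀ x, per x = 0 → per (d x) = 0

/-- the dimension of the space of the values of the elements of weight at most `n` killed by `S` -/
noncomputable def dimU (per : HH →ₐ[ℚ] K) (S : LieSubalgebra ℚ (Derivation ℚ HH HH)) (n : ℕ) : ℕ :=
  finrank ℚ ((MZ.Inv S.toSubmodule ⊓ Fi (deg W) n).map per.toLinearMap)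

/-- The coefficient of `X ^ n` in `(∑ dimU per S w * X ^ w) / ∏_k (1 - X ^ k) ^ dimLie S k`. -/
noncomputable def boundU (per : HH →ₐ[ℚ] K) (S : LieSubalgebra ℚ (Derivation ℚ HH HH)) (n : ℕ) : ℚ :=
  PowerSeries.coeff n (PowerSeries.mk (fun w => (dimU W per S w : ℚ)) *
    (∏ k ∈ Finset.Icc 1 n, (1 - PowerSeries.X ^ k) ^ dimLie W S k)⁻¹)

variable {W} {Z} {per : HH →ₐ[ℚ] K}

theorem map_Fi (hper : IsPer W Z per) (n : ℕ) : (Fi (deg W) n).map per.toLinearMap = tot Z n := by
  unfold Fi tot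
  rw [Submodule.map_iSup]
  exact iSup_congr fun k => hper k.1

theorem dmF_bot (hper : IsPer W Z per) (n : ℕ) : dm (Fi (deg W)) (RingHom.ker per) ⊥ n = finrank ℚ (tot Z n) := by
  have hb : (MZ.Inv ⊥ ⊓ Fi (deg W) n : Submodule ℚ HH) = Fi (deg W) n := inf_eq_right.mpr fun x _ d hd => by
    rw [(Submodule.mem_bot ℚ).mp hd]
    rfl
  rw [dmU (gr_Fi (gr_deg W)), hb, map_Fi hper]

theorem bdF_eq (S : LieSubalgebra ℚ (Derivation ℚ HH HH)) (n : ℕ) :
    bdF (deg W) (RingHom.ker per) S n = boundU W per S n := by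
  have h1 : HS (Fi (deg W)) (RingHom.ker per) S.toSubmodule = PowerSeries.mk (fun w => (dimU W per S w : ℚ)) := by
    ext w
    rw [HS, PowerSeries.coeff_mk, PowerSeries.coeff_mk, dmU (gr_Fi (gr_deg W))]
    rfl
  rw [bdF, h1]
  rfl

theorem inj_of_Fl (hX : Transcendental ℚ (per X)) (h : StU per Fl) : Function.Injective per := by
  have h1 := (stable_iff_genI (gr_deg WZ) (nondeg_Fl WZ) (I := RingHom.ker per) (gr_Fl WZ)).mp h
  rw [injective_iff_map_eq_zero]
  intro x hx
  have h2 : genI (RingHom.ker per) Fl.toSubmodule ≤ ⊥ := by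
    refine Ideal.span_le.mpr ?_
    rintro y ⟨hy0, hy1⟩
    obtain ⟨q, rfl⟩ := Inv_Fl hy1
    have h3 : (per.comp (Polynomial.mapAlgHom (Algebra.ofId ℚ Sh))) = aeval (per X) := by
      refine Polynomial.algHom_ext ?_
      rw [AlgHom.comp_apply, aeval_X, coe_mapAlgHom, Polynomial.map_X]
    have h4 : aeval (per X) q = 0 := by
      rw [← h3]
      exact hy0
    have h5 : q = 0 := by
      by_contra hq
      exact hX ⟨q, hq, h4⟩
    rw [h5, Polynomial.map_zero]
    rfl
  exact h2 (h1 hx)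

/-- **Theorem.** -/
theorem mainU (hper : IsPer W Z per) (hX : Transcendental ℚ (per X)) :
    ∃ S₀ : LieSubalgebra ℚ (Derivation ℚ HH HH), IsGradedSub W S₀ ∧
      (∀ S, IsGradedSub W S → (StU per S ↔ S ≤ S₀) ∧ (GenU per S ↔ S ≤ S₀) ∧
        ((∀ n, (finrank ℚ (tot Z n) : ℚ) = boundU W per S n) ↔ S ≤ S₀) ∧
          ∀ n, (finrank ℚ (tot Z n) : ℚ) ≤ boundU W per S n) ∧
      (Function.Injective per ↔ S₀ = Fl) ∧
      ((RingHom.ker per).FG ↔ ∃ N, ∀ k > N, Fl.toSubmodule ⊓ Deg (deg W) k ≤ S₀.toSubmodule) := by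
  refine ⟨core (deg W) (stabU Fl per), ⟨(core_le _).trans fun d hd => hd.1, isGr_iff.mp (core_gr _)⟩, fun S hS => ?_, ?_, ?_⟩
  · have hgr : IsGr (deg W) S := isGr_iff.mpr hS.2
    have hnd : NonDeg (deg W) S := fun k hk d hd => nondeg_Fl W k hk d ⟨hS.1 hd.1, hd.2⟩
    have h0 : StU per S ↔ S ≤ core (deg W) (stabU Fl per) := by
      rw [le_core hgr]
      exact ⟨fun h d hd => ⟨hS.1 hd, h d hd⟩, fun h d hd => (h hd).2⟩
    have h0' : StU per S ↔ ∀ d ∈ S, ∀ x ∈ RingHom.ker per, d x ∈ RingHom.ker per := Iff.rfl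
    refine ⟨h0, ?_, ?_, fun n => ?_⟩
    · rw [← h0, h0', stable_iff_genI (gr_deg W) hnd hgr]
      exact Iff.rfl
    · rw [← h0, h0', stable_iff_dmF (gr_deg W) hnd hgr]
      refine forall_congr' fun n => ?_
      rw [dmF_bot hper, bdF_eq]
    · have h1 := dmF_le (gr_deg W) hnd hgr (I := RingHom.ker per) n
      rwa [dmF_bot hper, bdF_eq] at h1
  · constructor
    · intro h
      apply le_antisymm
      · exact (core_le _).trans fun d hd => hd.1
      · rw [le_core (gr_Fl W)]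
        intro d hd
        refine ⟨hd, fun x hx => ?_⟩
        have h1 : x = 0 := h (by rw [hx, map_zero])
        rw [h1, map_zero, map_zero]
    · intro h
      refine inj_of_Fl hX fun d hd => ?_
      rw [← h] at hd
      exact (core_le _ hd).2
  · rw [fg_iff' (gr_deg W) (nondeg_Fl W) (gr_Fl W) inv_fg]
    refine exists_congr fun N => ⟨fun h k hk d hd => ?_, fun h k hk d hd x hx => ?_⟩
    · exact le_up (G := deg W) (S := stabU Fl per) (k := 1) (j := k) (by omega) ⟨⟨hd.1, fun x hx => h k hk d hd x hx⟩, hd.2⟩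
    · exact (core_le _ (h k hk hd)).2 x hx

/-- the elements of weight at most `n` -/
theorem phsF_Fl : PHS (Fi (deg W)) Fl.toSubmodule := by
  refine phs_step (gr_Fi (gr_deg W)) (toFi (dX_step W)) (phs_baseF (gr_deg W) fun x hx => ?_)
  obtain ⟨h3, h4⟩ := mem_Inv_sup.mp hx
  obtain ⟨q, rfl⟩ := Inv_Fl h3
  have h5 := mem_Inv_span.mp h4
  rw [dX_apply, derivative_map] at h5
  have h6 : derivative q = 0 := (Polynomial.map_eq_zero (algebraMap ℚ Sh)).mp h5
  have h7 := derivative_eq_zero.mp h6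
  refine ⟨q.coeff 0, ?_⟩
  conv_lhs => rw [eq_C_of_natDegree_eq_zero h7, Polynomial.map_C]
  rfl

theorem finrank_Fi_succ (n : ℕ) : finrank ℚ (Fi (deg W) (n + 1)) = finrank ℚ (Fi (deg W) n) + finrank ℚ (deg W (n + 1)) := by
  have h0 : Fi (deg W) (n + 1) = Fi (deg W) n ⊔ deg W (n + 1) := by
    apply le_antisymm
    · refine iSup_le fun k => ?_
      rcases k.2.lt_or_eq with h | h
      · exact (le_Fi (Nat.lt_succ_iff.mp h)).trans le_sup_left
      · rw [h]
        exact le_sup_right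
    · exact sup_le (Fi_mono (Nat.le_succ n)) (le_Fi le_rfl)
  have h1 := (gr_Fi (gr_deg W)).fin n
  have h2 := (gr_deg W).fin (n + 1)
  have h3 := Submodule.finrank_sup_add_finrank_inf_eq (Fi (deg W) n) (deg W (n + 1))
  have h4 : (Fi (deg W) n ⊓ deg W (n + 1) : Submodule ℚ HH) = ⊥ := by
    rw [eq_bot_iff]
    rintro x ⟨hx1, hx2⟩
    have key : ∀ p : ℕ × List ℕ, ∀ m, W.e * p.1 + W.wt p.2 ≠ m → ∀ y ∈ deg W m, cf p y = 0 := by
      intro p m hp y hy
      refine Submodule.span_induction (p := fun y _ => cf p y = 0) ?_ (map_zero _) (fun a b _ _ ha hb => by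
        rw [map_add, ha, hb, add_zero]) (fun c a _ ha => by rw [map_smul, ha, smul_zero]) hy
      rintro _ ⟨i, u, h1, rfl⟩
      rw [cf_monomial, if_neg]
      intro h8
      rw [← h8] at hp
      exact hp h1
    have hz : ∀ p : ℕ × List ℕ, cf p x = 0 := by
      intro p
      by_cases hp : W.e * p.1 + W.wt p.2 = n + 1
      · refine Fi_ind (p := fun x => cf p x = 0) (map_zero _) (fun a b ha hb => by rw [map_add, ha, hb, add_zero])
          (fun k hk y hy => key p k (by omega) y hy) hx1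
      · exact key p (n + 1) hp x hx2
    rw [Submodule.mem_bot]
    ext1 i
    refine Sh.ext_co fun u => ?_
    have h5 := hz (i, u)
    rw [coeff_zero, map_zero]
    exact h5
  rw [h0]
  rw [h4, finrank_bot, add_zero] at h3
  exact h3

theorem Fi_zero : Fi (deg W) 0 = deg W 0 := by
  apply le_antisymm
  · refine iSup_le fun k => ?_
    have h := k.2
    have h1 : k.1 = 0 := by omega
    rw [h1]
  · exact le_Fi le_rfl

theorem Fi_series : PowerSeries.mk (fun n => (finrank ℚ (Fi (deg W) n) : ℚ)) * (1 - PowerSeries.X ^ 1) =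
    PowerSeries.mk (fun n => (finrank ℚ (deg W n) : ℚ)) := by
  ext n
  rw [mul_sub, mul_one, map_sub, PowerSeries.coeff_mul_X_pow', PowerSeries.coeff_mk]
  rcases n with _ | n
  · rw [if_neg (by omega), Fi_zero, sub_zero, PowerSeries.coeff_mk]
  · rw [if_pos (by omega), PowerSeries.coeff_mk, PowerSeries.coeff_mk, finrank_Fi_succ, Nat.add_sub_cancel]
    push_cast
    ring

/-- **Theorem.** -/
theorem tot_series (hper : IsPer W Z per) (hfg : (RingHom.ker per).FG) : ∃ p : Polynomial ℤ,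
    PowerSeries.mk (fun n => (finrank ℚ (tot Z n) : ℚ)) * (1 - PowerSeries.X ^ 1) =
      ((p.map (Int.castRingHom ℚ) : Polynomial ℚ) : PowerSeries ℚ) * PowerSeries.mk (fun n => (finrank ℚ (deg W n) : ℚ)) := by
  obtain ⟨N, hN⟩ := (fg_iff' (gr_deg W) (nondeg_Fl W) (gr_Fl W) inv_fg).mp hfg
  obtain ⟨p, hp⟩ := hs_fullF (gr_deg W) (nondeg_Fl W) (gr_Fl W) phsF_Fl hN
  refine ⟨p, ?_⟩
  have h1 : HS (Fi (deg W)) (RingHom.ker per) ⊥ = PowerSeries.mk (fun n => (finrank ℚ (tot Z n) : ℚ)) := by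
    ext n
    rw [HS, PowerSeries.coeff_mk, PowerSeries.coeff_mk, dmF_bot hper]
  have h2 : HS (Fi (deg W)) (⊥ : Ideal HH) ⊥ = PowerSeries.mk (fun n => (finrank ℚ (Fi (deg W) n) : ℚ)) := by
    ext n
    have hf := (gr_Fi (gr_deg W)).fin n
    have hb : (MZ.Inv ⊥ ⊓ Fi (deg W) n : Submodule ℚ HH) = Fi (deg W) n := inf_eq_right.mpr fun x _ d hd => by
      rw [(Submodule.mem_bot ℚ).mp hd]
      rfl
    have h3 := finrank_inf (⊥ : Ideal HH) (Fi (deg W) n)
    have h4 : (Fi (deg W) n ⊓ (⊥ : Ideal HH).restrictScalars ℚ : Submodule ℚ HH) = ⊥ := by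
      rw [eq_bot_iff]
      rintro x ⟨-, hx⟩
      exact hx
    rw [h4, finrank_bot, add_zero] at h3
    rw [HS, PowerSeries.coeff_mk, PowerSeries.coeff_mk, dm, hb, h3]
  rw [← h1, hp, h2, mul_assoc, Fi_series]

end

end Pool.Agent.H249.ML
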