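import Pool.Agent.H249.ML.Re

/-!
# Homomorphisms from `H` to a field: readable definitions
-/

set_option autoImplicit false

open Submodule Module Polynomial

namespace Pool.Agent.H249.ML.Wr

open Pool.Agent.H249.ML.Two (H vari Der LieSub F)

variable (W : ML.Wt) {K : Type} [Field K] [Algebra ℚ K]

/-- The part of weight `n` of `H`, spanned by the products of a power of the variable (of weight `W.e`) and a word
(the letter `a` has weight `W.L a`), of total weight `n`. -/
noncomputable def part (n : ℕ) : Submodule ℚ H := ML.deg W n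

/-- The elements of weight at most `n`. -/
noncomputable def upTo (n : ℕ) : Submodule ℚ H := ⨆ k : {k : ℕ // k ≤ n}, part W k.1

/-- The derivation `d` has degree `k`: it lowers all weights by `k`. -/
def Lowers (k : ℕ) (d : Der) : Prop :=
  ∀ w, ∀ x ∈ part W w, (∀ v, v + k = w → d.app x ∈ part W v) ∧ (w < k → d.app x = 0)

/-- `S` is a graded Lie subalgebra of `F`: it is spanned by its elements of the degrees `1, 2, 3, ...`. -/
def IsGradedSub (S : LieSub) : Prop :=
  S ≤ F ∧ ∀ d, S.Has d → d ∈ Submodule.span ℚ {d' | S.Has d' ∧ ∃ k, Lowers W (k + 1) d'}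

/-- The relations (the kernel of `per`) are preserved by `S`. -/
def Stable (per : H →ₐ[ℚ] K) (S : LieSub) : Prop := ∀ d, S.Has d → ∀ x, per x = 0 → per (d.app x) = 0

/-- The ideal of the relations is generated by relations which are killed by `S`. -/
def Generated (per : H →ₐ[ℚ] K) (S : LieSub) : Prop :=
  ∀ x, per x = 0 → x ∈ Ideal.span {y | per y = 0 ∧ ∀ d, S.Has d → d.app y = 0}

/-- The dimension of the space of the values of the elements of weight at most `n` which are killed by `S`. -/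
noncomputable def dimInv (per : H →ₐ[ℚ] K) (S : LieSub) (n : ℕ) : ℕ :=
  Set.finrank ℚ {z : K | ∃ x ∈ upTo W n, (∀ d, S.Has d → d.app x = 0) ∧ per x = z}

/-- The dimension of the part of degree `k` of `S`. -/
noncomputable def dimLie (S : LieSub) (k : ℕ) : ℕ := Set.finrank ℚ {d : Der | S.Has d ∧ Lowers W k d}

/-- The coefficient of `X ^ n` in `(∑ dimInv W per S w * X ^ w) / ∏_k (1 - X ^ k) ^ dimLie W S k`. -/
noncomputable def bound (per : H →ₐ[ℚ] K) (S : LieSub) (n : ℕ) : ℚ :=
  PowerSeries.coeff n (PowerSeries.mk (fun w => (dimInv W per S w : ℚ)) *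
    (∏ k ∈ Finset.Icc 1 n, (1 - PowerSeries.X ^ k) ^ dimLie W S k)⁻¹)

section

open Pool.Agent.H249.MZ

variable {W}

theorem graded_iff (S : LieSub) : IsGradedSub W S ↔ ML.IsGradedSub W S := by
  refine and_congr Iff.rfl ?_
  have h1 : (Submodule.span ℚ {d' : Derivation ℚ HH HH | S.Has d' ∧ ∃ k, Lowers W (k + 1) d'} :
      Submodule ℚ (Derivation ℚ HH HH)) =
      (⨆ k : ℕ, LieSubalgebra.toSubmodule (L := Derivation ℚ HH HH) S ⊓ Deg (ML.deg W) (k + 1) :
        Submodule ℚ (Derivation ℚ HH HH)) := by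
    apply le_antisymm
    · refine Submodule.span_le.mpr ?_
      rintro d ⟨h1, k, h2⟩
      exact Submodule.mem_iSup_of_mem k ⟨h1, h2⟩
    · refine iSup_le fun k => ?_
      rintro d ⟨h1, h2⟩
      exact Submodule.subset_span ⟨h1, k, h2⟩
  constructor
  · intro h d hd
    exact h1.le (h d hd)
  · intro h d hd
    exact h1.ge (h hd)

theorem dimInv_eq (per : H →ₐ[ℚ] K) (S : LieSub) (n : ℕ) : dimInv W per S n = ML.dimU W per S n := by
  unfold dimInv ML.dimU Set.finrank
  congr 2
  all_goals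
    apply le_antisymm
    · refine Submodule.span_le.mpr ?_
      rintro p ⟨x, hx, h1, rfl⟩
      exact ⟨x, ⟨h1, hx⟩, rfl⟩
    · rintro p ⟨x, ⟨h1, hx⟩, rfl⟩
      exact Submodule.subset_span ⟨x, hx, h1, rfl⟩

theorem dimLie_eq (S : LieSub) (k : ℕ) : dimLie W S k = ML.dimLie W S k := by
  have h1 : (Submodule.span ℚ {d : Derivation ℚ HH HH | S.Has d ∧ Lowers W k d} : Submodule ℚ (Derivation ℚ HH HH)) =
      (LieSubalgebra.toSubmodule (L := Derivation ℚ HH HH) S ⊓ Deg (ML.deg W) k :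
        Submodule ℚ (Derivation ℚ HH HH)) := by
    apply le_antisymm
    · refine Submodule.span_le.mpr ?_
      rintro d ⟨h1, h2⟩
      exact ⟨h1, h2⟩
    · rintro d ⟨h1, h2⟩
      exact Submodule.subset_span ⟨h1, h2⟩
  exact congrArg (fun V : Submodule ℚ (Derivation ℚ HH HH) => finrank ℚ V) h1

theorem bound_eq (per : H →ₐ[ℚ] K) (S : LieSub) (n : ℕ) : bound W per S n = ML.boundU W per S n := by
  unfold bound ML.boundU
  simp only [dimInv_eq, dimLie_eq]

variable {Z : ℕ → Submodule ℚ K} {per : H →ₐ[ℚ] K}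

/-- **Theorem.** -/
theorem main (hper : ML.IsPer W Z per) (hX : Transcendental ℚ (per vari)) :
    ∃ S₀ : LieSub, IsGradedSub W S₀ ∧
      (∀ S, IsGradedSub W S → (Stable per S ↔ S ≤ S₀) ∧ (Generated per S ↔ S ≤ S₀) ∧
        ((∀ n, (finrank ℚ (⨆ k : {k : ℕ // k ≤ n}, Z k.1 : Submodule ℚ K) : ℚ) = bound W per S n) ↔ S ≤ S₀) ∧
        ∀ n, (finrank ℚ (⨆ k : {k : ℕ // k ≤ n}, Z k.1 : Submodule ℚ K) : ℚ) ≤ bound W per S n) ∧
      (Function.Injective per ↔ S₀ = F) ∧
      ((RingHom.ker per).FG ↔ ∃ N, ∀ k > N, ∀ d, F.Has d → Lowers W k d → S₀.Has d) := by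
  obtain ⟨S₀, h1, h2, h3, h4⟩ := ML.mainU hper hX
  refine ⟨S₀, (graded_iff S₀).mpr h1, fun S hS => ?_, h3, ?_⟩
  · obtain ⟨g1, g2, g3, g4⟩ := h2 S ((graded_iff S).mp hS)
    refine ⟨g1, g2, ?_, fun n => ?_⟩
    · simp only [bound_eq]
      exact g3
    · rw [bound_eq]
      exact g4 n
  · exact h4.trans (exists_congr fun _ => ⟨fun h k hk d hd hd' => h k hk ⟨hd, hd'⟩,
      fun h k hk d hd => h k hk d hd.1 hd.2⟩)

end

end Pool.Agent.H249.ML.Wr
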